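import Pool.Agent.helper23.RK.Defs

/-!
# Common notions for MP_6e2074_an
-/

open Filter Topology
open scoped CStarAlgebra ComplexOrder MultiplierAlgebra

namespace Pool.Agent.helper23.RK

universe u v

variable {A : Type u} [NonUnitalCStarAlgebra A] [PartialOrder A]

/-- `e` is a sequence of positive elements of norm one, decreasing in the approximate sense,
which excises `φ`. -/
structure ExcSeq (e : ℕ → A) (φ : A → ℂ) : Prop where
  nonneg : ∀ n, 0 ≤ e n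
  norm_one : ∀ n, ‖e n‖ = 1
  desc : ∀ n m, n < m → ‖e n * e m - e m‖ ≤ (1 / 2 : ℝ) ^ n
  exc : ∀ c : A, Tendsto (fun n => ‖e n * c * e n - φ c • (e n * e n)‖) atTop (𝓝 0)

/-- Kishimoto's condition for the automorphism `β`. -/
def KStep (β : A ≃⋆ₐ[ℂ] A) : Prop :=
  ∀ e : A, 0 ≤ e → ‖e‖ = 1 → ∀ a : A, ∀ δ : ℝ, 0 < δ →
    ∃ e' : A, 0 ≤ e' ∧ ‖e'‖ = 1 ∧ ‖e * e' - e'‖ < δ ∧ ‖e' * a * β e'‖ < δ

end Pool.Agent.helper23.RK
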