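import Pool.Agent.helper23.RK.Base

/-!
# Bump elements and the excision step (module A of MP_6e2074_an)
-/

open Filter Topology
open scoped CStarAlgebra ComplexOrder MultiplierAlgebra

namespace Pool.Agent.helper23.RK

universe u v w

section A_BumpX

variable {A : Type u} [NonUnitalCStarAlgebra A] [PartialOrder A] [StarOrderedRing A]

/-- A ramp function: zero up to `s`, one from `t` on. -/
noncomputable def ramp (s t x : ℝ) : ℝ := max 0 (min 1 ((x - s) / (t - s)))

theorem ramp_nonneg (s t x : ℝ) : 0 ≤ ramp s t x := le_max_left _ _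

theorem ramp_le_one (s t x : ℝ) : ramp s t x ≤ 1 :=
  max_le zero_le_one (min_le_left _ _)

theorem ramp_of_le {s t x : ℝ} (hst : s < t) (hx : x ≤ s) : ramp s t x = 0 := by
  have h : (x - s) / (t - s) ≤ 0 :=
    div_nonpos_of_nonpos_of_nonneg (by linarith) (by linarith)
  exact max_eq_left ((min_le_right _ _).trans h)

theorem ramp_of_ge {s t x : ℝ} (hst : s < t) (hx : t ≤ x) : ramp s t x = 1 := by
  have h : 1 ≤ (x - s) / (t - s) := by
    rw [le_div_iff₀ (by linarith)]
    linarith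
  unfold ramp
  rw [min_eq_left h, max_eq_right zero_le_one]

theorem lt_of_ramp_ne {s t x : ℝ} (hst : s < t) (h : ramp s t x ≠ 0) : s < x := by
  by_contra hx
  exact h (ramp_of_le hst (not_lt.mp hx))

theorem continuous_ramp (s t : ℝ) : Continuous (ramp s t) := by
  unfold ramp
  fun_prop

theorem quasispec_nonneg (a : A) (ha : 0 ≤ a) {x : ℝ} (hx : x ∈ quasispectrum ℝ a) : 0 ≤ x :=
  quasispectrum_nonneg_of_nonneg a ha x hx

theorem quasispec_le (a : A) (ha : 0 ≤ a) {x : ℝ} (hx : x ∈ quasispectrum ℝ a) : x ≤ ‖a‖ := by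
  have hs : IsSelfAdjoint a := .of_nonneg ha
  have h := norm_apply_le_norm_cfcₙ (id : ℝ → ℝ) a hx
  rw [cfcₙ_id ℝ a] at h
  exact (le_abs_self x).trans h

theorem norm_mem_quasispec (a : A) (ha : 0 ≤ a) : ‖a‖ ∈ quasispectrum ℝ a := by
  have hs : IsSelfAdjoint a := .of_nonneg ha
  obtain ⟨⟨x, hx, hxa⟩, -⟩ := IsGreatest.norm_cfcₙ (id : ℝ → ℝ) a
  rw [cfcₙ_id ℝ a] at hxa
  have hx0 := quasispec_nonneg a ha hx
  have : x = ‖a‖ := by
    rw [← hxa]
    simp [abs_of_nonneg hx0]
  rwa [← this]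

theorem norm_cfcₙ_ramp (a : A) (ha : 0 ≤ a) (s : ℝ) (hs0 : 0 ≤ s) (hs : s < ‖a‖) :
    ‖cfcₙ (ramp s ‖a‖) a‖ = 1 := by
  have hsa : IsSelfAdjoint a := .of_nonneg ha
  have hc := (continuous_ramp s ‖a‖).continuousOn (s := quasispectrum ℝ a)
  have h0 : ramp s ‖a‖ 0 = 0 := ramp_of_le hs hs0
  apply le_antisymm
  · apply norm_cfcₙ_le
    intro x _
    rw [Real.norm_eq_abs, abs_of_nonneg (ramp_nonneg _ _ _)]
    exact ramp_le_one _ _ _
  · have h := norm_apply_le_norm_cfcₙ (ramp s ‖a‖) a (norm_mem_quasispec a ha) hc h0 hsa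
    rw [ramp_of_ge hs le_rfl] at h
    simpa using h

/-- A bump of `a` near the top of its spectrum. -/
theorem exists_top (a : A) (ha : 0 ≤ a) (s : ℝ) (hs0 : 0 ≤ s) (hs : s < ‖a‖) :
    ∃ p : A, 0 ≤ p ∧ ‖p‖ = 1 ∧ s • (p * p) ≤ p * a * p := by
  have hsa : IsSelfAdjoint a := .of_nonneg ha
  have hc := (continuous_ramp s ‖a‖).continuousOn (s := quasispectrum ℝ a)
  have h0 : ramp s ‖a‖ 0 = 0 := ramp_of_le hs hs0
  refine ⟨cfcₙ (ramp s ‖a‖) a, cfcₙ_nonneg fun x _ => ramp_nonneg _ _ _,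
    norm_cfcₙ_ramp a ha s hs0 hs, ?_⟩
  have e1 : cfcₙ (ramp s ‖a‖) a * a * cfcₙ (ramp s ‖a‖) a
      = cfcₙ (fun x => ramp s ‖a‖ x * x * ramp s ‖a‖ x) a := by
    rw [cfcₙ_mul (fun x => ramp s ‖a‖ x * x) (ramp s ‖a‖) a
      (by exact hc.mul continuousOn_id) (by simp [h0]) hc h0,
      cfcₙ_mul (ramp s ‖a‖) (fun x => x) a hc h0 (by exact continuousOn_id) rfl, cfcₙ_id' ℝ a]
  have e2 : s • (cfcₙ (ramp s ‖a‖) a * cfcₙ (ramp s ‖a‖) a)
      = cfcₙ (fun x => s * (ramp s ‖a‖ x * ramp s ‖a‖ x)) a := by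
    rw [cfcₙ_const_mul s (fun x => ramp s ‖a‖ x * ramp s ‖a‖ x) a (by exact hc.mul hc)
      (by simp [h0]), cfcₙ_mul (ramp s ‖a‖) (ramp s ‖a‖) a hc h0 hc h0]
  rw [e1, e2]
  apply cfcₙ_mono _ (by exact continuousOn_const.mul (hc.mul hc))
    (by exact (hc.mul continuousOn_id).mul hc) (by simp [h0]) (by simp [h0])
  intro x hx
  by_cases h : ramp s ‖a‖ x = 0
  · simp [h]
  · have hsx := lt_of_ramp_ne hs h
    have := mul_le_mul_of_nonneg_right hsx.le (mul_self_nonneg (ramp s ‖a‖ x))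
    nlinarith [this]

/-- The pair `g`, `a g` used in the excision step. -/
theorem exists_pair (a : A) (ha : 0 ≤ a) (hn : ‖a‖ = 1) (δ : ℝ) (hδ : 0 < δ) (hδ1 : δ < 1) :
    ∃ g : A, 0 ≤ g ∧ ‖g‖ = 1 ∧ 0 ≤ a * g ∧ ‖a * g‖ = 1 ∧ a * g = g * a ∧
      g * g ≤ (a * g) * (a * g) + (2 * δ) • (g * g) := by
  have hsa : IsSelfAdjoint a := .of_nonneg ha
  have hs : 1 - δ < ‖a‖ := by rw [hn]; linarith
  have hc := (continuous_ramp (1 - δ) ‖a‖).continuousOn (s := quasispectrum ℝ a)
  have h0 : ramp (1 - δ) ‖a‖ 0 = 0 := ramp_of_le hs (by linarith)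
  set b := ramp (1 - δ) ‖a‖ with hb
  have hf : cfcₙ (fun x => x * b x) a = a * cfcₙ b a := by
    rw [cfcₙ_mul (fun x => x) b a (by exact continuousOn_id) rfl hc h0, cfcₙ_id' ℝ a]
  have hf' : cfcₙ (fun x => x * b x) a = cfcₙ b a * a := by
    have : (fun x => x * b x) = fun x => b x * x := by ext x; ring
    rw [this, cfcₙ_mul b (fun x => x) a hc h0 (by exact continuousOn_id) rfl, cfcₙ_id' ℝ a]
  refine ⟨cfcₙ b a, cfcₙ_nonneg fun x _ => ramp_nonneg _ _ _, norm_cfcₙ_ramp a ha _ (by linarith) hs,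
    ?_, ?_, ?_, ?_⟩
  · rw [← hf]
    exact cfcₙ_nonneg fun x hx => mul_nonneg (quasispec_nonneg a ha hx) (ramp_nonneg _ _ _)
  · rw [← hf]
    apply le_antisymm
    · apply norm_cfcₙ_le
      intro x hx
      have h1 := quasispec_nonneg a ha hx
      have h2 := quasispec_le a ha hx
      rw [hn] at h2
      rw [Real.norm_eq_abs, abs_of_nonneg (mul_nonneg h1 (ramp_nonneg _ _ _))]
      exact mul_le_one₀ h2 (ramp_nonneg _ _ _) (ramp_le_one _ _ _)
    · have h := norm_apply_le_norm_cfcₙ (fun x => x * b x) a (norm_mem_quasispec a ha)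
        (by exact continuousOn_id.mul hc) (by simp [h0]) hsa
      have hb1 : b ‖a‖ = 1 := ramp_of_ge hs le_rfl
      rw [hn] at hb1
      simp only [hn] at h
      rw [hb1, mul_one, norm_one] at h
      exact h
  · rw [← hf, ← hf']
  · rw [← hf]
    have e1 : cfcₙ b a * cfcₙ b a = cfcₙ (fun x => b x * b x) a := by
      rw [cfcₙ_mul b b a hc h0 hc h0]
    have e2 : cfcₙ (fun x => x * b x) a * cfcₙ (fun x => x * b x) a
        = cfcₙ (fun x => x * b x * (x * b x)) a := by
      rw [cfcₙ_mul (fun x => x * b x) (fun x => x * b x) a (by exact continuousOn_id.mul hc)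
        (by simp [h0]) (by exact continuousOn_id.mul hc) (by simp [h0])]
    have e3 : (2 * δ) • cfcₙ (fun x => b x * b x) a = cfcₙ (fun x => 2 * δ * (b x * b x)) a := by
      rw [cfcₙ_const_mul (2 * δ) (fun x => b x * b x) a (by exact hc.mul hc) (by simp [h0])]
    rw [e2, e1, e3, ← cfcₙ_add (fun x => x * b x * (x * b x)) (fun x => 2 * δ * (b x * b x)) a
      (by exact (continuousOn_id.mul hc).mul (continuousOn_id.mul hc)) (by simp [h0])
      (by exact continuousOn_const.mul (hc.mul hc)) (by simp [h0])]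
    have hc' : ContinuousOn (fun x => x * b x * (x * b x) + 2 * δ * (b x * b x))
        (quasispectrum ℝ a) :=
      ((continuousOn_id.mul hc).mul (continuousOn_id.mul hc)).add
        (continuousOn_const.mul (hc.mul hc))
    apply cfcₙ_mono _ (by exact hc.mul hc) hc' (by simp [h0]) (by simp [h0])
    intro x hx
    by_cases h : b x = 0
    · simp [h]
    · have hsx := lt_of_ramp_ne hs h
      have h2 : 0 ≤ x * x + 2 * δ - 1 := by nlinarith
      nlinarith [mul_nonneg h2 (mul_self_nonneg (b x))]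

theorem exists_bump (e : A) (he : 0 ≤ e) (hn : ‖e‖ = 1) (δ : ℝ) (hδ : 0 < δ) :
    ∃ e₁ e₂ : A, 0 ≤ e₁ ∧ ‖e₁‖ = 1 ∧ 0 ≤ e₂ ∧ ‖e₂‖ ≤ 1 ∧ e₂ * e₁ = e₁ ∧ e₁ * e₂ = e₁ ∧
      (∀ x, e₂ * x = x → ‖e * x - x‖ ≤ δ * ‖x‖) ∧ (∀ x, x * e₂ = x → ‖x * e - x‖ ≤ δ * ‖x‖) := by
  have hsa : IsSelfAdjoint e := .of_nonneg he
  obtain ⟨d, hd0, hdδ, hd1⟩ : ∃ d : ℝ, 0 < d ∧ d ≤ δ ∧ d < 1 :=
    ⟨min δ (1 / 2), lt_min hδ (by norm_num), min_le_left _ _,
      (min_le_right _ _).trans_lt (by norm_num)⟩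
  set b₁ := ramp (1 - d / 2) 1 with hb₁
  set b₂ := ramp (1 - d) (1 - d / 2) with hb₂
  have h12 : 1 - d < 1 - d / 2 := by linarith
  have h23 : 1 - d / 2 < 1 := by linarith
  have hc₁ := (continuous_ramp (1 - d / 2) 1).continuousOn (s := quasispectrum ℝ e)
  have hc₂ := (continuous_ramp (1 - d) (1 - d / 2)).continuousOn (s := quasispectrum ℝ e)
  rw [← hb₁] at hc₁
  rw [← hb₂] at hc₂
  have h01 : b₁ 0 = 0 := ramp_of_le h23 (by linarith)
  have h02 : b₂ 0 = 0 := ramp_of_le h12 (by linarith)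
  have hprod : ∀ x, b₂ x * b₁ x = b₁ x := by
    intro x
    by_cases h : b₁ x = 0
    · simp [h]
    · have := lt_of_ramp_ne h23 h
      rw [hb₂, ramp_of_ge h12 this.le, one_mul]
  have hle : ∀ x ∈ quasispectrum ℝ e, ‖x * b₂ x - b₂ x‖ ≤ d := by
    intro x hx
    have h1 := quasispec_nonneg e he hx
    have h2 := quasispec_le e he hx
    rw [hn] at h2
    by_cases h : b₂ x = 0
    · simp [h, hd0.le]
    · have h3 := lt_of_ramp_ne h12 h
      have h4 : 0 ≤ b₂ x := ramp_nonneg _ _ _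
      have h5 : b₂ x ≤ 1 := ramp_le_one _ _ _
      rw [Real.norm_eq_abs, abs_le]
      constructor <;> nlinarith
  have hle' : ‖e * cfcₙ b₂ e - cfcₙ b₂ e‖ ≤ d := by
    have : e * cfcₙ b₂ e - cfcₙ b₂ e = cfcₙ (fun x => x * b₂ x - b₂ x) e := by
      rw [cfcₙ_sub (fun x => x * b₂ x) b₂ e (by exact continuousOn_id.mul hc₂) (by simp [h02])
        hc₂ h02, cfcₙ_mul (fun x => x) b₂ e (by exact continuousOn_id) rfl hc₂ h02, cfcₙ_id' ℝ e]
    rw [this]
    exact norm_cfcₙ_le hle
  have hle'' : ‖cfcₙ b₂ e * e - cfcₙ b₂ e‖ ≤ d := by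
    have : cfcₙ b₂ e * e - cfcₙ b₂ e = cfcₙ (fun x => x * b₂ x - b₂ x) e := by
      have h : (fun x => x * b₂ x - b₂ x) = fun x => b₂ x * x - b₂ x := by ext x; ring
      rw [h, cfcₙ_sub (fun x => b₂ x * x) b₂ e (by exact hc₂.mul continuousOn_id) (by simp [h02])
        hc₂ h02, cfcₙ_mul b₂ (fun x => x) e hc₂ h02 (by exact continuousOn_id) rfl, cfcₙ_id' ℝ e]
    rw [this]
    exact norm_cfcₙ_le hle
  refine ⟨cfcₙ b₁ e, cfcₙ b₂ e, cfcₙ_nonneg fun x _ => ramp_nonneg _ _ _, ?_,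
    cfcₙ_nonneg fun x _ => ramp_nonneg _ _ _, ?_, ?_, ?_, ?_, ?_⟩
  · have := norm_cfcₙ_ramp e he (1 - d / 2) (by linarith) (by rw [hn]; linarith)
    rwa [hn] at this
  · apply norm_cfcₙ_le
    intro x _
    rw [Real.norm_eq_abs, abs_of_nonneg (ramp_nonneg _ _ _)]
    exact ramp_le_one _ _ _
  · rw [← cfcₙ_mul b₂ b₁ e hc₂ h02 hc₁ h01]
    exact cfcₙ_congr fun x _ => hprod x
  · rw [← cfcₙ_mul b₁ b₂ e hc₁ h01 hc₂ h02]
    exact cfcₙ_congr fun x _ => by
      show b₁ x * b₂ x = b₁ x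
      rw [mul_comm, hprod x]
  · intro x hx
    have : e * x - x = (e * cfcₙ b₂ e - cfcₙ b₂ e) * x := by
      rw [sub_mul, mul_assoc, hx]
    rw [this]
    exact (norm_mul_le _ _).trans
      (mul_le_mul_of_nonneg_right (hle'.trans hdδ) (norm_nonneg _))
  · intro x hx
    have : x * e - x = x * (cfcₙ b₂ e * e - cfcₙ b₂ e) := by
      rw [mul_sub, ← mul_assoc, hx]
    rw [this, mul_comm δ]
    exact (norm_mul_le _ _).trans
      (mul_le_mul_of_nonneg_left (hle''.trans hdδ) (norm_nonneg _))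

/-- The quadratic form `x* (c + K) x`. -/
noncomputable def qf (c : A) (K : ℝ) (x : A) : A := star x * c * x + K • (star x * x)

omit [PartialOrder A] [StarOrderedRing A] in
theorem qf_isSelfAdjoint (c : A) (hc : IsSelfAdjoint c) (K : ℝ) (x : A) :
    IsSelfAdjoint (qf c K x) := by
  have h1 : IsSelfAdjoint (star x * c * x) := hc.conjugate' x
  have h2 : IsSelfAdjoint (K • (star x * x)) :=
    (IsSelfAdjoint.all K).smul (IsSelfAdjoint.star_mul_self x)
  exact h1.add h2

theorem qf_le (c : A) (hc : IsSelfAdjoint c) (K : ℝ) (x : A) :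
    qf c K x ≤ (‖c‖ + K) • (star x * x) := by
  have h := CStarAlgebra.star_left_conjugate_le_norm_smul (a := x) (b := c) hc
  unfold qf
  rw [add_smul]
  exact add_le_add_left h _

theorem le_qf (c : A) (hc : IsSelfAdjoint c) (K : ℝ) (x : A) :
    (K - ‖c‖) • (star x * x) ≤ qf c K x := by
  have h := CStarAlgebra.star_left_conjugate_le_norm_smul (a := x) (b := -c) hc.neg
  rw [norm_neg] at h
  have h' : -(‖c‖ • (star x * x)) ≤ star x * c * x := by
    have h2 : star x * -c * x = -(star x * c * x) := by simp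
    rw [h2] at h
    exact neg_le.mp h
  unfold qf
  rw [sub_smul, sub_eq_add_neg, add_comm]
  exact add_le_add_left h' _

omit [PartialOrder A] [StarOrderedRing A] in
theorem qf_mul (c : A) (K : ℝ) (x y : A) : qf c K (x * y) = star y * qf c K x * y := by
  unfold qf
  simp only [star_mul, mul_add, add_mul, mul_smul_comm, smul_mul_assoc, mul_assoc]

theorem excise_step (e : A) (he : 0 ≤ e) (hn : ‖e‖ = 1) (c : A) (hc : IsSelfAdjoint c)
    (δ : ℝ) (hδ : 0 < δ) :
    ∃ e' : A, 0 ≤ e' ∧ ‖e'‖ = 1 ∧ ‖e * e' - e'‖ < δ ∧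
      ∃ r : ℝ, |r| ≤ ‖c‖ ∧ ‖e' * c * e' - (r : ℂ) • (e' * e')‖ < δ := by
  obtain ⟨e₁, e₂, he₁, hn₁, he₂, hn₂, h21, h12, hx, -⟩ := exists_bump e he hn (δ / 2) (by linarith)
  set K : ℝ := ‖c‖ + 1 with hK
  set q : A → A := qf c K with hq
  have hc0 : 0 ≤ ‖c‖ := norm_nonneg c
  set S : Set A := {a | 0 ≤ a ∧ ‖a‖ = 1 ∧ e₂ * a = a} with hS
  have he₁S : e₁ ∈ S := ⟨he₁, hn₁, h21⟩
  -- positivity of `q`
  have hq0 : ∀ x, star x * x ≤ q x := by
    intro x
    have := le_qf c hc K x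
    have h1 : K - ‖c‖ = 1 := by rw [hK]; ring
    rwa [h1, one_smul] at this
  have hq0' : ∀ x, 0 ≤ q x := fun x => (star_mul_self_nonneg x).trans (hq0 x)
  have hSq : ∀ a ∈ S, 1 ≤ ‖q a‖ := by
    rintro a ⟨ha0, ha1, -⟩
    have h1 := CStarAlgebra.norm_le_norm_of_nonneg_of_le (star_mul_self_nonneg a) (hq0 a)
    rwa [CStarRing.norm_star_mul_self, ha1, mul_one] at h1
  have hSq' : ∀ a ∈ S, ‖q a‖ ≤ ‖c‖ + K := by
    rintro a ⟨ha0, ha1, -⟩
    have h1 := CStarAlgebra.norm_le_norm_of_nonneg_of_le (hq0' a) (qf_le c hc K a)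
    rwa [norm_smul, CStarRing.norm_star_mul_self, ha1, mul_one, mul_one, Real.norm_eq_abs,
      abs_of_nonneg (by positivity)] at h1
  set T : Set ℝ := (fun a => ‖q a‖) '' S with hT
  have hTne : T.Nonempty := ⟨_, e₁, he₁S, rfl⟩
  have hTb : BddBelow T := ⟨0, by rintro _ ⟨a, -, rfl⟩; exact norm_nonneg _⟩
  set m : ℝ := sInf T with hm
  have hm1 : 1 ≤ m := le_csInf hTne (by rintro _ ⟨a, ha, rfl⟩; exact hSq a ha)
  have hm2 : m ≤ ‖c‖ + K := (csInf_le hTb ⟨e₁, he₁S, rfl⟩).trans (hSq' e₁ he₁S)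
  set L : ℝ := ‖c‖ + K with hL
  have hL0 : 1 ≤ L := by rw [hL, hK]; linarith
  obtain ⟨η, hη, hη8⟩ : ∃ η : ℝ, 0 < η ∧ η = δ / 8 := ⟨δ / 8, by linarith, rfl⟩
  obtain ⟨d, hd0, hd1, hdL⟩ : ∃ d : ℝ, 0 < d ∧ d < 1 ∧ 16 * (d * L) ≤ δ := by
    refine ⟨min (1 / 2) (δ / (16 * L)), lt_min (by norm_num) (by positivity),
      (min_le_left _ _).trans_lt (by norm_num), ?_⟩
    have h1 : min (1 / 2) (δ / (16 * L)) * L ≤ δ / (16 * L) * L :=
      mul_le_mul_of_nonneg_right (min_le_right _ _) (by linarith)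
    have h2 : δ / (16 * L) * L = δ / 16 := by
      have : L ≠ 0 := by linarith
      field_simp
    linarith
  obtain ⟨_, ⟨a, haS, rfl⟩, ham⟩ := exists_lt_of_csInf_lt hTne (show sInf T < m + η by linarith)
  obtain ⟨ha0, ha1, hea⟩ := id haS
  set N : ℝ := ‖q a‖ with hN
  have hmN : m ≤ N := csInf_le hTb ⟨a, haS, rfl⟩
  have hNL : N ≤ L := hSq' a haS
  have hNη : N < m + η := ham
  obtain ⟨g, hg0, hg1, hf0, hf1, hcomm, hgf⟩ := exists_pair a ha0 ha1 d hd0 hd1
  set f : A := a * g with hf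
  have hsg : star g = g := (IsSelfAdjoint.of_nonneg hg0).star_eq
  have hsf : star f = f := (IsSelfAdjoint.of_nonneg hf0).star_eq
  have hsa : star a = a := (IsSelfAdjoint.of_nonneg ha0).star_eq
  have hef : e₂ * f = f := by rw [hf, ← mul_assoc, hea]
  -- `q f ≤ N g²`
  have hqf : q f ≤ N • (g * g) := by
    have h1 := CStarAlgebra.star_left_conjugate_le_norm_smul (a := g) (b := q a)
      (qf_isSelfAdjoint c hc K a)
    rw [hsg] at h1
    have h2 : q f = g * q a * g := by rw [hq, hf, qf_mul, hsg]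
    rw [h2]
    exact h1
  set P : A := N • (g * g) - q f with hP
  have hP0 : 0 ≤ P := sub_nonneg.mpr hqf
  -- `f² ≤ g²`
  have haa : ‖a * a‖ = 1 := by
    have := CStarRing.norm_star_mul_self (x := a)
    rwa [hsa, ha1, mul_one] at this
  have hgg : ‖g * g‖ = 1 := by
    have := CStarRing.norm_star_mul_self (x := g)
    rwa [hsg, hg1, mul_one] at this
  have hffn : ‖f * f‖ = 1 := by
    have := CStarRing.norm_star_mul_self (x := f)
    rwa [hsf, hf1, mul_one] at this
  have hff : f * f ≤ g * g := by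
    have h1 := CStarAlgebra.star_left_conjugate_le_norm_smul (a := g) (b := a * a)
      (by rw [IsSelfAdjoint, star_mul, hsa])
    rw [hsg, haa, one_smul] at h1
    have h2 : f * f = g * (a * a) * g := by
      nth_rw 1 [hcomm]
      rw [hf]
      simp only [mul_assoc]
    rwa [h2]
  have hPη : ‖P‖ ≤ 2 * η + 2 * (d * L) := by
    by_contra! hcon
    have hdL0 : 0 ≤ d * L := by positivity
    have hdN : d * N ≤ d * L := mul_le_mul_of_nonneg_left hNL hd0.le
    have hN1 : 1 ≤ N := hm1.trans hmN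
    set s : ℝ := ‖P‖ - η with hs
    obtain ⟨p, hp0, hp1, hpP⟩ := exists_top P hP0 s (by rw [hs]; linarith) (by rw [hs]; linarith)
    have hsp : star p = p := (IsSelfAdjoint.of_nonneg hp0).star_eq
    have hppn : ‖p * p‖ = 1 := by
      have := CStarRing.norm_star_mul_self (x := p)
      rwa [hsp, hp1, mul_one] at this
    set y : A := f * p with hy
    set W : A := star y * y with hW
    have hWf : W = p * (f * f) * p := by
      rw [hW, hy, star_mul, hsp, hsf]
      simp only [mul_assoc]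
    have hgp : p * (g * g) * p ≤ p * p := by
      have h1 := CStarAlgebra.star_left_conjugate_le_norm_smul (a := p) (b := g * g)
        (by rw [IsSelfAdjoint, star_mul, hsg])
      rwa [hsp, hgg, one_smul] at h1
    have hWp : W ≤ p * p := by
      rw [hWf]
      refine le_trans ?_ hgp
      have h1 := star_left_conjugate_le_conjugate hff p
      rwa [hsp] at h1
    have hgW : p * (g * g) * p ≤ W + (2 * d) • (p * p) := by
      have h1 := star_left_conjugate_le_conjugate hgf p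
      rw [hsp, mul_add, add_mul, ← hWf, mul_smul_comm, smul_mul_assoc] at h1
      exact h1.trans (add_le_add_right (smul_le_smul_of_nonneg_left hgp (by positivity)) _)
    have hqy : q y ≤ (N - s + 2 * (d * N)) • W := by
      have h1 : q y = N • (p * (g * g) * p) - p * P * p := by
        have h2 : q y = p * q f * p := by rw [hq, hy, qf_mul, hsp]
        have h3 : q f = N • (g * g) - P := by rw [hP]; abel
        rw [h2, h3, mul_sub, sub_mul, mul_smul_comm, smul_mul_assoc]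
      have h4 : N • (p * (g * g) * p) ≤ N • (W + (2 * d) • (p * p)) :=
        smul_le_smul_of_nonneg_left hgW (by linarith)
      have h5 : (s - 2 * (d * N)) • W ≤ (s - 2 * (d * N)) • (p * p) :=
        smul_le_smul_of_nonneg_left hWp (by rw [hs]; linarith)
      calc q y = N • (p * (g * g) * p) - p * P * p := h1
        _ ≤ N • (W + (2 * d) • (p * p)) - s • (p * p) := sub_le_sub h4 hpP
        _ = N • W - (s - 2 * (d * N)) • (p * p) := by module
        _ ≤ N • W - (s - 2 * (d * N)) • W := sub_le_sub_left h5 _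
        _ = (N - s + 2 * (d * N)) • W := by module
    by_cases hy0 : y = 0
    · have hW0 : W = 0 := by rw [hW, hy0]; simp
      have h1 : (s - 2 * (d * N)) • (p * p) ≤ 0 := by
        have h2 : 0 ≤ N • (p * (g * g) * p) - p * P * p := by
          have h3 : q y = N • (p * (g * g) * p) - p * P * p := by
            have h2 : q y = p * q f * p := by rw [hq, hy, qf_mul, hsp]
            have h3 : q f = N • (g * g) - P := by rw [hP]; abel
            rw [h2, h3, mul_sub, sub_mul, mul_smul_comm, smul_mul_assoc]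
          rw [← h3]
          exact hq0' y
        have h4 : N • (p * (g * g) * p) ≤ N • (W + (2 * d) • (p * p)) :=
          smul_le_smul_of_nonneg_left hgW (by linarith)
        have h5 : 0 ≤ N • (W + (2 * d) • (p * p)) - s • (p * p) := h2.trans (sub_le_sub h4 hpP)
        rw [hW0, zero_add] at h5
        have h6 : N • (2 * d) • (p * p) - s • (p * p) = -((s - 2 * (d * N)) • (p * p)) := by module
        rw [h6] at h5
        exact neg_nonneg.mp h5
      have h2 : 0 ≤ (s - 2 * (d * N)) • (p * p) := by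
        refine smul_nonneg (by rw [hs]; linarith) ?_
        have := star_mul_self_nonneg p
        rwa [hsp] at this
      have h3 := le_antisymm h1 h2
      have h4 : ‖(s - 2 * (d * N)) • (p * p)‖ = 0 := by rw [h3, norm_zero]
      rw [norm_smul, hppn, mul_one, Real.norm_eq_abs, abs_eq_zero] at h4
      linarith
    · set ν : ℝ := ‖y * star y‖ with hν
      have hν0 : 0 < ν := by
        rw [hν, CStarRing.norm_self_mul_star]
        have := norm_pos_iff.mpr hy0
        positivity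
      set b : A := ν⁻¹ • (y * star y) with hb
      have hb0 : 0 ≤ b := smul_nonneg (by positivity) (mul_star_self_nonneg y)
      have hb1 : ‖b‖ = 1 := by
        rw [hb, norm_smul, Real.norm_eq_abs, abs_of_pos (by positivity), ← hν]
        field_simp
      have hsb : star b = b := (IsSelfAdjoint.of_nonneg hb0).star_eq
      have hbS : b ∈ S := by
        refine ⟨hb0, hb1, ?_⟩
        rw [hb, mul_smul_comm, ← mul_assoc]
        congr 2
        rw [hy, ← mul_assoc, hef]
      have hqb : q b = (ν⁻¹ * ν⁻¹) • (y * q y * star y) := by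
        have h1 : b = y * (ν⁻¹ • star y) := by rw [hb, mul_smul_comm]
        have h2 : star (ν⁻¹ • star y) = ν⁻¹ • y := by simp
        rw [hq, h1, qf_mul, h2, smul_mul_assoc, smul_mul_assoc, mul_smul_comm, smul_smul]
      have hbb : b * b = (ν⁻¹ * ν⁻¹) • (y * W * star y) := by
        rw [hb, hW, smul_mul_assoc, mul_smul_comm, smul_smul]
        simp only [mul_assoc]
      have hbbn : ‖b * b‖ = 1 := by
        have := CStarRing.norm_star_mul_self (x := b)
        rwa [hsb, hb1, mul_one] at this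
      have hqb' : q b ≤ (N - s + 2 * (d * N)) • (b * b) := by
        have h1 := star_right_conjugate_le_conjugate hqy y
        rw [mul_smul_comm, smul_mul_assoc] at h1
        have h2 : (ν⁻¹ * ν⁻¹) • (y * q y * star y)
            ≤ (ν⁻¹ * ν⁻¹) • ((N - s + 2 * (d * N)) • (y * W * star y)) :=
          smul_le_smul_of_nonneg_left h1 (by positivity)
        rw [hqb, hbb]
        refine h2.trans (le_of_eq ?_)
        module
      have h1 := CStarAlgebra.norm_le_norm_of_nonneg_of_le (hq0' b) hqb'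
      rw [norm_smul, hbbn, mul_one, Real.norm_eq_abs] at h1
      have h2 : m ≤ ‖q b‖ := csInf_le hTb ⟨b, hbS, rfl⟩
      have hPN : ‖P‖ ≤ N := by
        have h3 : P ≤ N • (g * g) := sub_le_self _ (hq0' f)
        have h4 := CStarAlgebra.norm_le_norm_of_nonneg_of_le hP0 h3
        rwa [norm_smul, hgg, mul_one, Real.norm_eq_abs, abs_of_nonneg (by linarith)] at h4
      rw [abs_of_nonneg (by rw [hs]; nlinarith)] at h1
      linarith
  refine ⟨f, hf0, hf1, ?_, m - K, ?_, ?_⟩
  · have := hx f hef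
    rw [hf1] at this
    linarith
  · rw [abs_le]
    constructor <;> linarith
  · have h1 : f * c * f - ((m - K : ℝ) : ℂ) • (f * f)
        = N • (g * g - f * f) + (N - m) • (f * f) - P := by
      have h2 : q f = f * c * f + K • (f * f) := by rw [hq, qf, hsf]
      rw [hP, h2, Complex.coe_smul]
      module
    have h2 : ‖g * g - f * f‖ ≤ 2 * d := by
      have h3 : g * g - f * f ≤ (2 * d) • (g * g) := by
        rw [sub_le_iff_le_add, add_comm]
        exact hgf
      have h4 := CStarAlgebra.norm_le_norm_of_nonneg_of_le (sub_nonneg.mpr hff) h3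
      rwa [norm_smul, hgg, mul_one, Real.norm_eq_abs, abs_of_nonneg (by positivity)] at h4
    rw [h1]
    have h3 : ‖N • (g * g - f * f) + (N - m) • (f * f) - P‖
        ≤ N * (2 * d) + (N - m) + ‖P‖ := by
      refine (norm_sub_le _ _).trans (add_le_add_left ((norm_add_le _ _).trans ?_) _)
      rw [norm_smul, norm_smul, hffn, mul_one, Real.norm_eq_abs, Real.norm_eq_abs,
        abs_of_nonneg (by linarith : (0:ℝ) ≤ N), abs_of_nonneg (by linarith : (0:ℝ) ≤ N - m)]
      exact add_le_add_left (mul_le_mul_of_nonneg_left h2 (by linarith)) _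
    have h4 : N * (2 * d) ≤ 2 * (d * L) := by nlinarith
    linarith

end A_BumpX

end Pool.Agent.helper23.RK
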