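import Pool.Agent.helper23.RK.Base

/-!
# MP_6e2074_an, module E12: double centralizers and relations in a crossed product
-/

open Filter Topology
open scoped CStarAlgebra ComplexOrder MultiplierAlgebra

namespace Pool.Agent.helper23.RK

universe u v

variable {A : Type u} [NonUnitalCStarAlgebra A]
variable {H : Type v} [NormedAddCommGroup H] [InnerProductSpace ℂ H] [CompleteSpace H]

section E1

/-- data for a double centralizer: `R a` represents `π a * V⋆`, `L a` represents `V⋆ * π a`. -/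
lemma exists_centralizer (π : A →⋆ₙₐ[ℂ] (H →L[ℂ] H)) (hπ : Function.Injective π)
    (X : H →L[ℂ] H) (hX : ‖X‖ ≤ 1) (L R : A → A) (hL : ∀ a, π (L a) = X * π a)
    (hR : ∀ a, π (R a) = π a * X) :
    ∃ W : 𝓜(ℂ, A), (∀ a, π (W.fst a) = X * π a) ∧ ∀ a, π (W.snd a) = π a * X := by
  have hnorm := NonUnitalStarAlgHom.norm_map π hπ
  let Ll : A →ₗ[ℂ] A :=
    { toFun := L
      map_add' := fun a b => hπ (by rw [hL, map_add, map_add, hL, hL, mul_add])
      map_smul' := fun r a => hπ (by
        rw [hL, RingHom.id_apply, map_smul, map_smul, hL, mul_smul_comm]) }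
  let Rl : A →ₗ[ℂ] A :=
    { toFun := R
      map_add' := fun a b => hπ (by rw [hR, map_add, map_add, hR, hR, add_mul])
      map_smul' := fun r a => hπ (by
        rw [hR, RingHom.id_apply, map_smul, map_smul, hR, smul_mul_assoc]) }
  let Lc : A →L[ℂ] A := Ll.mkContinuous 1 fun a => by
    rw [← hnorm (Ll a), ← hnorm a, one_mul]
    change ‖π (L a)‖ ≤ _
    rw [hL]
    calc ‖X * π a‖ ≤ ‖X‖ * ‖π a‖ := norm_mul_le _ _
      _ ≤ 1 * ‖π a‖ := mul_le_mul_of_nonneg_right hX (norm_nonneg _)
      _ = ‖π a‖ := one_mul _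
  let Rc : A →L[ℂ] A := Rl.mkContinuous 1 fun a => by
    rw [← hnorm (Rl a), ← hnorm a, one_mul]
    change ‖π (R a)‖ ≤ _
    rw [hR]
    calc ‖π a * X‖ ≤ ‖π a‖ * ‖X‖ := norm_mul_le _ _
      _ ≤ ‖π a‖ * 1 := mul_le_mul_of_nonneg_left hX (norm_nonneg _)
      _ = ‖π a‖ := mul_one _
  refine ⟨⟨(Lc, Rc), fun x y => ?_⟩, hL, hR⟩
  apply hπ
  change π (R x * y) = π (x * L y)
  rw [map_mul, map_mul, hR, hL, mul_assoc]

/-- E1. -/
theorem isInner_of_mul_unitary (hs : IsSimple A) (π : A →⋆ₙₐ[ℂ] (H →L[ℂ] H))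
    (hπ : Function.Injective π) (β : A ≃⋆ₐ[ℂ] A) (V : H →L[ℂ] H) (hV : V ∈ unitary (H →L[ℂ] H))
    (hVπ : ∀ c, V * π c = π (β c) * V) (z w : A) (hz : z ≠ 0) (h : π z * star V = π w) :
    IsInner β := by
  have h1 : star V * V = 1 := (Unitary.mem_iff.1 hV).1
  have h2 : V * star V = 1 := (Unitary.mem_iff.1 hV).2
  have hVπ' : ∀ c, π c * star V = star V * π (β c) := by
    intro c
    calc π c * star V = star V * (V * π c) * star V := by
          rw [← mul_assoc, h1, one_mul]
      _ = star V * π (β c) * (V * star V) := by rw [hVπ]; simp only [mul_assoc]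
      _ = star V * π (β c) := by rw [h2, mul_one]
  have hcl : IsClosed (Set.range π) :=
    (NonUnitalStarAlgHom.isometry π hπ).isClosedEmbedding.isClosed_range
  have hcont : Continuous fun a : A => π a * star V :=
    (NonUnitalStarAlgHom.isometry π hπ).continuous.mul continuous_const
  let I : Submodule ℂ A :=
    { carrier := {a | ∃ w, π w = π a * star V}
      add_mem' := by
        rintro a b ⟨x, hx⟩ ⟨y, hy⟩
        exact ⟨x + y, by rw [map_add, map_add, hx, hy, add_mul]⟩
      zero_mem' := ⟨0, by rw [map_zero, zero_mul]⟩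
      smul_mem' := by
        rintro r a ⟨x, hx⟩
        exact ⟨r • x, by rw [map_smul, map_smul, hx, smul_mul_assoc]⟩ }
  have hI : I = ⊤ := by
    refine (hs.2 I ?_ ?_).resolve_left ?_
    · exact hcl.preimage hcont
    · rintro a b ⟨x, hx⟩
      refine ⟨⟨b * x, ?_⟩, ⟨x * β b, ?_⟩⟩
      · rw [map_mul, map_mul, hx, mul_assoc]
      · rw [map_mul, map_mul, hx, mul_assoc, mul_assoc, hVπ']
    · intro hbot
      have h3 : z ∈ I := ⟨w, h.symm⟩
      rw [hbot, Submodule.mem_bot] at h3
      exact hz h3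
  have hall : ∀ a : A, ∃ w, π w = π a * star V := by
    intro a
    have : a ∈ I := by rw [hI]; trivial
    exact this
  choose R hR using hall
  obtain ⟨W, hW1, hW2⟩ := exists_centralizer π hπ (star V) (by
    rw [norm_star]
    rcases subsingleton_or_nontrivial (H →L[ℂ] H) with h0 | h0
    · rw [Subsingleton.elim V 0, norm_zero]
      exact zero_le_one
    · exact (CStarRing.norm_of_mem_unitary hV).le) (fun a => R (β.symm a)) R (by
    intro a
    have h3 := hVπ' (β.symm a)
    rw [StarAlgEquiv.apply_symm_apply] at h3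
    rw [hR, h3]) hR
  -- the adjoint corresponds to `V`
  have hS1 : ∀ a, π ((star W).fst a) = V * π a := by
    intro a
    rw [DoubleCentralizer.star_fst, map_star, hW2, map_star, star_mul, star_star, star_star]
  have hS2 : ∀ a, π ((star W).snd a) = π a * V := by
    intro a
    rw [DoubleCentralizer.star_snd, map_star, hW1, map_star, star_mul, star_star, star_star]
  refine ⟨star W, ?_, ?_⟩
  · rw [Unitary.mem_iff, star_star]
    constructor
    · ext a
      · apply hπ
        change π (W.fst ((star W).fst a)) = π a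
        rw [hW1, hS1, ← mul_assoc, h1, one_mul]
      · apply hπ
        change π ((star W).snd (W.snd a)) = π a
        rw [hS2, hW2, mul_assoc, h1, mul_one]
    · ext a
      · apply hπ
        change π ((star W).fst (W.fst a)) = π a
        rw [hS1, hW1, ← mul_assoc, h2, one_mul]
      · apply hπ
        change π (W.snd ((star W).snd a)) = π a
        rw [hW2, hS2, mul_assoc, h2, mul_one]
  · intro a
    have hconj : V * π a * star V = π (β a) := by
      rw [hVπ, mul_assoc, h2, mul_one]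
    rw [star_star]
    ext b
    · apply hπ
      change π (β a * b) = π ((star W).fst (a * W.fst b))
      rw [hS1, map_mul, map_mul, hW1, ← hconj]
      simp only [mul_assoc]
    · apply hπ
      change π (b * β a) = π (W.snd ((star W).snd b * a))
      rw [hW2, map_mul, map_mul, hS2, ← hconj]
      simp only [mul_assoc]

end E1

section E2

variable {n : ℕ}

/-- the element of the crossed product with coefficients `a` -/
noncomputable def relS [NeZero n] (π : A →⋆ₙₐ[ℂ] (H →L[ℂ] H)) (U : H →L[ℂ] H) (a : ZMod n → A) :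
    H →L[ℂ] H :=
  ∑ j : ZMod n, π (a j) * U ^ j.val

lemma pow_val_add {M : Type*} [Monoid M] {U : M} [NeZero n] (hU : U ^ n = 1) (i j : ZMod n) :
    U ^ i.val * U ^ j.val = U ^ (i + j).val := by
  conv_lhs => rw [← pow_add, ← Nat.mod_add_div (i.val + j.val) n]
  rw [pow_add, pow_mul, hU, one_pow, mul_one, ZMod.val_add]

lemma pow_mul_rep (π : A →⋆ₙₐ[ℂ] (H →L[ℂ] H)) (α : A ≃⋆ₐ[ℂ] A) (U : H →L[ℂ] H)
    (hUπ : ∀ c, U * π c = π (α c) * U) (k : ℕ) (c : A) :
    U ^ k * π c = π ((α ^ k) c) * U ^ k := by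
  induction k generalizing c with
  | zero => simp
  | succ k ih =>
    rw [pow_succ, mul_assoc, hUπ, ← mul_assoc, ih, mul_assoc, ← pow_succ]
    rfl

lemma relS_mul_left [NeZero n] (π : A →⋆ₙₐ[ℂ] (H →L[ℂ] H)) (U : H →L[ℂ] H) (a : ZMod n → A)
    (c : A) : π c * relS π U a = relS π U (fun j => c * a j) := by
  unfold relS
  rw [Finset.mul_sum]
  refine Finset.sum_congr rfl fun j _ => ?_
  rw [map_mul, mul_assoc]

lemma relS_mul_pow [NeZero n] (π : A →⋆ₙₐ[ℂ] (H →L[ℂ] H)) (U : H →L[ℂ] H) (hUn : U ^ n = 1)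
    (a : ZMod n → A) (k : ZMod n) :
    relS π U a * U ^ k.val = relS π U (fun j => a (j - k)) := by
  unfold relS
  rw [Finset.sum_mul]
  refine Fintype.sum_equiv (Equiv.addRight k) _ _ fun j => ?_
  rw [mul_assoc, pow_val_add hUn, Equiv.coe_addRight]
  change _ = π (a (j + k - k)) * U ^ (j + k).val
  rw [add_sub_cancel_right]

lemma relS_mul_right [NeZero n] (π : A →⋆ₙₐ[ℂ] (H →L[ℂ] H)) (α : A ≃⋆ₐ[ℂ] A) (U : H →L[ℂ] H)
    (hUπ : ∀ c, U * π c = π (α c) * U) (a : ZMod n → A) (c : A) :
    relS π U a * π c = relS π U (fun j => a j * (α ^ j.val) c) := by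
  unfold relS
  rw [Finset.sum_mul]
  refine Finset.sum_congr rfl fun j _ => ?_
  rw [mul_assoc, pow_mul_rep π α U hUπ, map_mul, mul_assoc]

lemma relS_sub [NeZero n] (π : A →⋆ₙₐ[ℂ] (H →L[ℂ] H)) (U : H →L[ℂ] H) (a b : ZMod n → A) :
    relS π U (fun j => a j - b j) = relS π U a - relS π U b := by
  unfold relS
  rw [← Finset.sum_sub_distrib]
  refine Finset.sum_congr rfl fun j _ => ?_
  rw [map_sub, sub_mul]

/-- commutation of rank one operators: an operator `T` intertwining like `π z` is a multiple of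
`π z`. -/
lemma eq_smul_of_intertwine (e : ℕ → A) (π : A →⋆ₙₐ[ℂ] (H →L[ℂ] H)) (ξ : H)
    (hd : DenseRange (fun c : A => π c ξ))
    (hr : ∀ v, Tendsto (fun n => π (e n) v) atTop (𝓝 (inner ℂ ξ v • ξ)))
    (z : A) (hz : π z ≠ 0) (T : H →L[ℂ] H) (hT : ∀ c, π z * π c * T = T * π c * π z) :
    ∃ ν : ℂ, T = ν • π z := by
  have key : ∀ (c₁ c₂ : A) (v : H), inner ℂ ξ (π (star c₂) (T v)) • π z (π c₁ ξ) =
      inner ℂ ξ (π (star c₂) (π z v)) • T (π c₁ ξ) := by
    intro c₁ c₂ v
    have l1 : Tendsto (fun m => π z (π c₁ (π (e m) (π (star c₂) (T v))))) atTop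
        (𝓝 (π z (π c₁ (inner ℂ ξ (π (star c₂) (T v)) • ξ)))) :=
      (((π z).continuous.comp (π c₁).continuous).tendsto _).comp (hr _)
    have l2 : Tendsto (fun m => T (π c₁ (π (e m) (π (star c₂) (π z v))))) atTop
        (𝓝 (T (π c₁ (inner ℂ ξ (π (star c₂) (π z v)) • ξ)))) :=
      ((T.continuous.comp (π c₁).continuous).tendsto _).comp (hr _)
    have heq : (fun m => π z (π c₁ (π (e m) (π (star c₂) (T v))))) =
        fun m => T (π c₁ (π (e m) (π (star c₂) (π z v)))) := by
      funext m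
      have h := DFunLike.congr_fun (hT (c₁ * e m * star c₂)) v
      rw [map_mul, map_mul] at h
      exact h
    rw [heq] at l1
    have h := tendsto_nhds_unique l1 l2
    rw [map_smul, map_smul, map_smul, map_smul] at h
    exact h
  have key2 : ∀ (c₂ : A) (v : H), inner ℂ ξ (π (star c₂) (T v)) • π z =
      inner ℂ ξ (π (star c₂) (π z v)) • T := by
    intro c₂ v
    ext w
    have h := hd.equalizer
      (g := fun w => (inner ℂ ξ (π (star c₂) (T v)) • π z) w)
      (h := fun w => (inner ℂ ξ (π (star c₂) (π z v)) • T) w)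
      (ContinuousLinearMap.continuous _) (ContinuousLinearMap.continuous _)
      (funext fun c₁ => key c₁ c₂ v)
    exact congrFun h w
  obtain ⟨v, hv⟩ : ∃ v, π z v ≠ 0 := by
    by_contra h0
    push Not at h0
    exact hz (ContinuousLinearMap.ext h0)
  obtain ⟨c₂, hc₂⟩ : ∃ c₂ : A, inner ℂ ξ (π (star c₂) (π z v)) ≠ 0 := by
    by_contra h0
    push Not at h0
    have h1 : ∀ x : H, inner ℂ x (π z v) = 0 := by
      have := hd.equalizer (g := fun x : H => inner ℂ x (π z v)) (h := fun _ => (0 : ℂ))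
        (continuous_id.inner continuous_const) continuous_const (by
          funext c
          have h2 := h0 c
          rw [map_star, ContinuousLinearMap.star_eq_adjoint,
            ContinuousLinearMap.adjoint_inner_right] at h2
          exact h2)
      exact fun x => congrFun this x
    exact hv (inner_self_eq_zero.1 (h1 _))
  refine ⟨(inner ℂ ξ (π (star c₂) (π z v)))⁻¹ * inner ℂ ξ (π (star c₂) (T v)), ?_⟩
  rw [mul_smul, key2 c₂ v, smul_smul, inv_mul_cancel₀ hc₂, one_smul]

/-- support of a family of coefficients -/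
noncomputable def supp [NeZero n] (a : ZMod n → A) : Finset (ZMod n) :=
  (Set.toFinite {j | a j ≠ 0}).toFinset

lemma mem_supp [NeZero n] (a : ZMod n → A) (j : ZMod n) : j ∈ supp a ↔ a j ≠ 0 := by
  unfold supp
  rw [Set.Finite.mem_toFinset]
  rfl

theorem relS_eq_zero [NeZero n] (hs : IsSimple A) (e : ℕ → A) (π : A →⋆ₙₐ[ℂ] (H →L[ℂ] H))
    (hπ : Function.Injective π) (ξ : H) (hd : DenseRange (fun c : A => π c ξ))
    (hr : ∀ v, Tendsto (fun n => π (e n) v) atTop (𝓝 (inner ℂ ξ v • ξ)))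
    (α : A ≃⋆ₐ[ℂ] A) (hout : ∀ j, 0 < j → j < n → ¬ IsInner (α ^ j))
    (U : H →L[ℂ] H) (hU : U ∈ unitary (H →L[ℂ] H)) (hUn : U ^ n = 1)
    (hUπ : ∀ c, U * π c = π (α c) * U) (m : ℕ) :
    ∀ a : ZMod n → A, (supp a).card ≤ m → relS π U a = 0 → a = 0 := by
  induction m with
  | zero =>
    intro a ha _
    funext j
    by_contra hj
    have h1 : j ∈ supp a := (mem_supp a j).2 hj
    rw [Finset.card_eq_zero.1 (Nat.le_zero.1 ha)] at h1
    exact absurd h1 (Finset.notMem_empty _)
  | succ m ih =>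
    intro a ha hrel
    by_contra hne
    obtain ⟨j₀, hj₀⟩ : ∃ j₀, a j₀ ≠ 0 := by
      by_contra h0
      push Not at h0
      exact hne (funext h0)
    set b : ZMod n → A := fun j => star (a j₀) * a (j + j₀) with hb
    have hbrel : relS π U b = 0 := by
      have h1 : relS π U a * U ^ (-j₀).val = 0 := by rw [hrel, zero_mul]
      rw [relS_mul_pow π U hUn] at h1
      have h2 : π (star (a j₀)) * relS π U (fun j => a (j - -j₀)) = 0 := by rw [h1, mul_zero]
      rw [relS_mul_left] at h2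
      simpa only [sub_neg_eq_add] using h2
    have hb0 : b 0 ≠ 0 := by
      rw [hb]
      change star (a j₀) * a (0 + j₀) ≠ 0
      rw [zero_add]
      intro h
      exact hj₀ (CStarRing.star_mul_self_eq_zero_iff _ |>.1 h)
    have hbcard : (supp b).card ≤ m + 1 := by
      refine le_trans ?_ ha
      refine Finset.card_le_card_of_injOn (fun j => j + j₀) ?_ (fun x _ y _ hxy => by
        exact add_right_cancel hxy)
      intro j hj
      have h1 : b j ≠ 0 := (mem_supp b j).1 hj
      refine (mem_supp a _).2 fun h => h1 ?_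
      rw [hb]
      change star (a j₀) * a (j + j₀) = 0
      rw [h, mul_zero]
    have hr0 : ∀ c : A, ∀ j, b 0 * c * b j = b j * (α ^ j.val) (c * b 0) := by
      intro c
      have h1 : relS π U (fun j => b 0 * c * b j - b j * (α ^ j.val) (c * b 0)) = 0 := by
        rw [relS_sub, ← relS_mul_left π U b (b 0 * c), ← relS_mul_right π α U hUπ, hbrel, mul_zero,
          zero_mul, sub_zero]
      have h2 : (supp fun j => b 0 * c * b j - b j * (α ^ j.val) (c * b 0)).card ≤ m := by
        refine Nat.le_of_lt_succ (lt_of_lt_of_le (Finset.card_lt_card ?_) hbcard)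
        rw [Finset.ssubset_iff_of_subset]
        · refine ⟨0, (mem_supp b 0).2 hb0, fun h => ?_⟩
          refine (mem_supp _ _).1 h ?_
          rw [ZMod.val_zero, pow_zero]
          change b 0 * c * b 0 - b 0 * (c * b 0) = 0
          rw [mul_assoc, sub_self]
        · intro j hj
          refine (mem_supp b j).2 fun h => (mem_supp _ _).1 hj ?_
          rw [h, mul_zero, zero_mul, sub_zero]
      intro j
      exact sub_eq_zero.1 (congrFun (ih _ h2 h1) j)
    obtain ⟨j, hj, hbj⟩ : ∃ j, j ≠ 0 ∧ b j ≠ 0 := by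
      by_contra h0
      push Not at h0
      refine hb0 (hπ ?_)
      rw [map_zero, ← hbrel]
      unfold relS
      rw [Finset.sum_eq_single 0, ZMod.val_zero, pow_zero, mul_one]
      · intro j _ hj
        rw [h0 j hj, map_zero, zero_mul]
      · intro h
        exact absurd (Finset.mem_univ _) h
    have hUj : U ^ j.val ∈ unitary (H →L[ℂ] H) := pow_mem hU _
    have hUj2 : U ^ j.val * star (U ^ j.val) = 1 := (Unitary.mem_iff.1 hUj).2
    have hπz : π (b 0) ≠ 0 := fun h => hb0 (hπ (h.trans (map_zero π).symm))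
    obtain ⟨ν, hν⟩ := eq_smul_of_intertwine e π ξ hd hr (b 0) hπz (π (b j) * U ^ j.val) (by
      intro c
      have h1 := congrArg (fun x => π x * U ^ j.val) (hr0 c j)
      simp only [map_mul] at h1
      rw [← mul_assoc, h1]
      have h2 : U ^ j.val * (π c * π (b 0)) =
          π ((α ^ j.val) c) * π ((α ^ j.val) (b 0)) * U ^ j.val := by
        rw [← map_mul, pow_mul_rep π α U hUπ j.val (c * b 0), map_mul, map_mul]
      calc π (b j) * (π ((α ^ j.val) c) * π ((α ^ j.val) (b 0))) * U ^ j.val =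
          π (b j) * (π ((α ^ j.val) c) * π ((α ^ j.val) (b 0)) * U ^ j.val) := mul_assoc _ _ _
        _ = π (b j) * (U ^ j.val * (π c * π (b 0))) := by rw [h2]
        _ = π (b j) * U ^ j.val * π c * π (b 0) := by simp only [mul_assoc])
    have hν0 : ν ≠ 0 := by
      rintro rfl
      rw [zero_smul] at hν
      refine hbj (hπ ?_)
      rw [map_zero]
      calc π (b j) = π (b j) * U ^ j.val * star (U ^ j.val) := by rw [mul_assoc, hUj2, mul_one]
        _ = 0 := by rw [hν, zero_mul]
    have hjpos : 0 < j.val := Nat.pos_of_ne_zero fun h => hj ((ZMod.val_eq_zero j).1 h)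
    refine hout j.val hjpos (ZMod.val_lt j) ?_
    refine isInner_of_mul_unitary hs π hπ (α ^ j.val) (U ^ j.val) hUj
      (pow_mul_rep π α U hUπ j.val) (b 0) (ν⁻¹ • b j) hb0 ?_
    have h3 : ν • (π (b 0) * star (U ^ j.val)) = π (b j) := by
      rw [← smul_mul_assoc, ← hν, mul_assoc, hUj2, mul_one]
    rw [map_smul, ← h3, smul_smul, inv_mul_cancel₀ hν0, one_smul]

lemma relS_val [NeZero n] (π : A →⋆ₙₐ[ℂ] (H →L[ℂ] H)) (U : H →L[ℂ] H) (t : ℕ → A) :
    relS π U (fun j : ZMod n => t j.val) = ∑ j ∈ Finset.range n, π (t j) * U ^ j := by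
  unfold relS
  obtain ⟨k, rfl⟩ : ∃ k, n = k + 1 := ⟨n - 1, by have := NeZero.pos n; omega⟩
  exact Fin.sum_univ_eq_sum_range (fun j => π (t j) * U ^ j) (k + 1)

/-- E2. -/
theorem coeff_eq_zero (hs : IsSimple A) (e : ℕ → A) (π : A →⋆ₙₐ[ℂ] (H →L[ℂ] H))
    (hπ : Function.Injective π) (ξ : H) (hξ : ‖ξ‖ = 1) (hd : DenseRange (fun c : A => π c ξ))
    (hr : ∀ v, Tendsto (fun n => π (e n) v) atTop (𝓝 (inner ℂ ξ v • ξ)))
    (α : A ≃⋆ₐ[ℂ] A) (n : ℕ) (hn : 0 < n) (hα : α ^ n = 1)
    (hout : ∀ j, 0 < j → j < n → ¬ IsInner (α ^ j))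
    (U : H →L[ℂ] H) (hU : U ∈ unitary (H →L[ℂ] H)) (hUn : U ^ n = 1)
    (hUπ : ∀ c, U * π c = π (α c) * U) (t : ℕ → A)
    (ht : ∑ j ∈ Finset.range n, π (t j) * U ^ j = 0) : ∀ j < n, t j = 0 := by
  intro j hj
  have : NeZero n := ⟨hn.ne'⟩
  have h1 := relS_eq_zero hs e π hπ ξ hd hr α hout U hU hUn hUπ _
    (fun j : ZMod n => t j.val) le_rfl ((relS_val π U t).trans ht)
  have h2 := congrFun h1 (j : ZMod n)
  rwa [ZMod.val_natCast_of_lt hj] at h2

end E2

end Pool.Agent.helper23.RK
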