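import Pool.Agent.helper23.RK.Cross

/-!
# MP_6e2074_an, module E3: positivity of the conditional expectation
-/

open Filter Topology
open scoped CStarAlgebra ComplexOrder MultiplierAlgebra

namespace Pool.Agent.helper23.RK

universe u v

section E3

/-- an injective star homomorphism of C*-algebras reflects positivity -/
lemma nonneg_of_map_nonneg {B : Type*} {C : Type*} [NonUnitalCStarAlgebra B] [PartialOrder B]
    [StarOrderedRing B] [NonUnitalCStarAlgebra C] [PartialOrder C] [StarOrderedRing C]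
    (φ : B →⋆ₙₐ[ℂ] C) (hφ : Function.Injective φ) (b : B) (h : 0 ≤ φ b) : 0 ≤ b := by
  have hsa : IsSelfAdjoint b := by
    refine hφ ?_
    rw [map_star]
    exact h.isSelfAdjoint
  have hmap : ∀ x : B, 0 ≤ x → 0 ≤ φ x := by
    intro x hx
    obtain ⟨y, rfl⟩ := CStarAlgebra.nonneg_iff_eq_star_mul_self.1 hx
    rw [map_mul, map_star]
    exact star_mul_self_nonneg _
  have h1 : φ b = φ b⁺ - φ b⁻ := by
    rw [← map_sub, CFC.posPart_sub_negPart b hsa]
  have h2 : φ b⁺ * φ b⁻ = 0 := by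
    rw [← map_mul, CFC.posPart_mul_negPart, map_zero]
  have h3 := CFC.posPart_negPart_unique h1 h2 (hmap _ (CFC.posPart_nonneg b))
    (hmap _ (CFC.negPart_nonneg b))
  have h4 : φ b⁻ = 0 := by
    rw [← h3.2]
    exact (CFC.negPart_eq_zero_iff (φ b) h.isSelfAdjoint).2 h
  exact (CFC.negPart_eq_zero_iff b hsa).1 (hφ (h4.trans (map_zero φ).symm))

lemma exists_star_mul_self_of_map_nonneg {B : Type*} {C : Type*} [NonUnitalCStarAlgebra B]
    [NonUnitalCStarAlgebra C] [PartialOrder C] [StarOrderedRing C]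
    (φ : B →⋆ₙₐ[ℂ] C) (hφ : Function.Injective φ) (b : B) (h : 0 ≤ φ b) :
    ∃ y : B, b = star y * y := by
  let _ : PartialOrder B := CStarAlgebra.spectralOrder _
  have _ : StarOrderedRing B := CStarAlgebra.spectralOrderedRing _
  exact CStarAlgebra.nonneg_iff_eq_star_mul_self.1 (nonneg_of_map_nonneg φ hφ b h)

variable {A : Type u} [NonUnitalCStarAlgebra A]
variable {H : Type v} [NormedAddCommGroup H] [InnerProductSpace ℂ H] [CompleteSpace H]

/-- the action of the cyclic group -/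
noncomputable def cyc {n : ℕ} (α : A ≃⋆ₐ[ℂ] A) (j : ZMod n) : A ≃⋆ₐ[ℂ] A := α ^ j.val

lemma cyc_zero {n : ℕ} [NeZero n] (α : A ≃⋆ₐ[ℂ] A) (x : A) : cyc α (0 : ZMod n) x = x := by
  unfold cyc
  rw [ZMod.val_zero, pow_zero]
  rfl

lemma cyc_cyc {n : ℕ} [NeZero n] (α : A ≃⋆ₐ[ℂ] A) (hα : α ^ n = 1) (i j : ZMod n) (x : A) :
    cyc α i (cyc α j x) = cyc α (i + j) x := by
  unfold cyc
  rw [← pow_val_add hα]
  rfl

variable [PartialOrder A] [StarOrderedRing A]

/-- the algebra of covariant matrices -/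
noncomputable def covAlg {n : ℕ} [NeZero n] (α : A ≃⋆ₐ[ℂ] A) :
    NonUnitalStarSubalgebra ℂ (CStarMatrix (ZMod n) (ZMod n) A) where
  carrier := {M | ∀ i j k : ZMod n, cyc α j (M i k) = M (i - j) (k - j)}
  add_mem' := by
    intro M N hM hN i j k
    rw [CStarMatrix.add_apply, CStarMatrix.add_apply, map_add, hM, hN]
  zero_mem' := by
    intro i j k
    rw [CStarMatrix.zero_apply, CStarMatrix.zero_apply, map_zero]
  mul_mem' := by
    intro M N hM hN i j k
    rw [CStarMatrix.mul_apply, CStarMatrix.mul_apply, map_sum]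
    refine Fintype.sum_equiv (Equiv.subRight j) _ _ fun l => ?_
    rw [map_mul, hM, hN]
    rfl
  smul_mem' := by
    intro c M hM i j k
    rw [CStarMatrix.smul_apply, CStarMatrix.smul_apply, map_smul, hM]
  star_mem' := by
    intro M hM i j k
    rw [CStarMatrix.star_apply, CStarMatrix.star_apply, map_star, hM]

lemma covAlg_isClosed {n : ℕ} [NeZero n] (α : A ≃⋆ₐ[ℂ] A) :
    IsClosed (covAlg (n := n) α : Set (CStarMatrix (ZMod n) (ZMod n) A)) := by
  have h : (covAlg (n := n) α : Set (CStarMatrix (ZMod n) (ZMod n) A)) =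
      ⋂ i : ZMod n, ⋂ j : ZMod n, ⋂ k : ZMod n, {M | cyc α j (M i k) = M (i - j) (k - j)} := by
    ext M
    simp only [Set.mem_iInter]
    rfl
  rw [h]
  have hent : ∀ i k : ZMod n, Continuous fun M : CStarMatrix (ZMod n) (ZMod n) A => M i k :=
    fun i k => (continuous_apply k).comp (continuous_apply i)
  refine isClosed_iInter fun i => isClosed_iInter fun j => isClosed_iInter fun k =>
    isClosed_eq ?_ (hent _ _)
  exact (StarAlgEquiv.isometry (cyc α j)).continuous.comp (hent i k)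

lemma star_pow_val {n : ℕ} [NeZero n] (U : H →L[ℂ] H) (hU : U ∈ unitary (H →L[ℂ] H))
    (hUn : U ^ n = 1) (j : ZMod n) : star (U ^ j.val) = U ^ (-j).val := by
  have h1 : star (U ^ j.val) * U ^ j.val = 1 :=
    (Unitary.mem_iff.1 (pow_mem hU j.val)).1
  have h2 : U ^ j.val * U ^ (-j).val = 1 := by
    rw [pow_val_add hUn, add_neg_cancel, ZMod.val_zero, pow_zero]
  calc star (U ^ j.val) = star (U ^ j.val) * (U ^ j.val * U ^ (-j).val) := by rw [h2, mul_one]
    _ = U ^ (-j).val := by rw [← mul_assoc, h1, one_mul]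

omit [PartialOrder A] [StarOrderedRing A] in
lemma relS_mul {n : ℕ} [NeZero n] (π : A →⋆ₙₐ[ℂ] (H →L[ℂ] H)) (α : A ≃⋆ₐ[ℂ] A)
    (U : H →L[ℂ] H) (hUn : U ^ n = 1) (hUπ : ∀ c, U * π c = π (α c) * U) (a b : ZMod n → A) :
    relS π U (fun m => ∑ l, a l * cyc α l (b (m - l))) = relS π U a * relS π U b := by
  unfold relS
  rw [Finset.sum_mul]
  simp only [map_sum, Finset.sum_mul, Finset.mul_sum]
  rw [Finset.sum_comm]
  refine Finset.sum_congr rfl fun l _ => ?_
  refine Fintype.sum_equiv (Equiv.subRight l) _ _ fun m => ?_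
  rw [Equiv.subRight_apply]
  calc π (a l * cyc α l (b (m - l))) * U ^ m.val =
      π (a l) * (π ((α ^ l.val) (b (m - l))) * U ^ l.val) * U ^ (m - l).val := by
        rw [map_mul, mul_assoc (π (a l)), mul_assoc, mul_assoc, pow_val_add hUn,
          add_sub_cancel]
        rfl
    _ = π (a l) * U ^ l.val * (π (b (m - l)) * U ^ (m - l).val) := by
        rw [← pow_mul_rep π α U hUπ]
        simp only [mul_assoc]

omit [PartialOrder A] [StarOrderedRing A] in
lemma relS_star {n : ℕ} [NeZero n] (π : A →⋆ₙₐ[ℂ] (H →L[ℂ] H)) (α : A ≃⋆ₐ[ℂ] A)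
    (U : H →L[ℂ] H) (hU : U ∈ unitary (H →L[ℂ] H)) (hUn : U ^ n = 1)
    (hUπ : ∀ c, U * π c = π (α c) * U) (a : ZMod n → A) :
    relS π U (fun m => cyc α m (star (a (-m)))) = star (relS π U a) := by
  unfold relS
  rw [star_sum]
  refine Fintype.sum_equiv (Equiv.neg _) _ _ fun j => ?_
  rw [Equiv.neg_apply, star_mul, star_pow_val U hU hUn, neg_neg, ← map_star,
    pow_mul_rep π α U hUπ]
  rfl

/-- first row of a covariant matrix -/
def row (n : ℕ) (M : CStarMatrix (ZMod n) (ZMod n) A) (j : ZMod n) : A := M 0 (-j)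

lemma row_mul {n : ℕ} [NeZero n] (α : A ≃⋆ₐ[ℂ] A) (M N : CStarMatrix (ZMod n) (ZMod n) A)
    (hN : N ∈ covAlg (n := n) α) (m : ZMod n) :
    row n (M * N) m = ∑ l, row n M l * cyc α l (row n N (m - l)) := by
  unfold row
  rw [CStarMatrix.mul_apply]
  refine Fintype.sum_equiv (Equiv.neg _) _ _ fun l => ?_
  have h := hN 0 (-l) (-(m - -l))
  rw [Equiv.neg_apply, neg_neg, h]
  have h2 : -(m - -l) - -l = -m := by ring
  rw [h2, zero_sub, neg_neg]

lemma row_star {n : ℕ} [NeZero n] (α : A ≃⋆ₐ[ℂ] A) (M : CStarMatrix (ZMod n) (ZMod n) A)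
    (hM : M ∈ covAlg (n := n) α) (m : ZMod n) :
    row n (star M) m = cyc α m (star (row n M (-m))) := by
  unfold row
  rw [CStarMatrix.star_apply, neg_neg, map_star]
  have h := hM 0 m m
  rw [h, zero_sub, sub_self]

/-- the integrated form of a covariant matrix -/
noncomputable def covHom {n : ℕ} [NeZero n] (π : A →⋆ₙₐ[ℂ] (H →L[ℂ] H)) (α : A ≃⋆ₐ[ℂ] A)
    (U : H →L[ℂ] H) (hU : U ∈ unitary (H →L[ℂ] H)) (hUn : U ^ n = 1)
    (hUπ : ∀ c, U * π c = π (α c) * U) : covAlg (n := n) α →⋆ₙₐ[ℂ] (H →L[ℂ] H) where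
  toFun M := relS π U (row n (M : CStarMatrix (ZMod n) (ZMod n) A))
  map_smul' := by
    intro c M
    change relS π U (fun j => c • row n (M : CStarMatrix (ZMod n) (ZMod n) A) j) =
      c • relS π U _
    unfold relS
    rw [Finset.smul_sum]
    refine Finset.sum_congr rfl fun j _ => ?_
    rw [map_smul, smul_mul_assoc]
  map_zero' := by
    change relS π U (fun j : ZMod n => (0 : A)) = 0
    unfold relS
    refine Finset.sum_eq_zero fun j _ => ?_
    rw [map_zero, zero_mul]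
  map_add' := by
    intro M N
    change relS π U (fun j => row n (M : CStarMatrix (ZMod n) (ZMod n) A) j +
      row n (N : CStarMatrix (ZMod n) (ZMod n) A) j) = relS π U _ + relS π U _
    unfold relS
    rw [← Finset.sum_add_distrib]
    refine Finset.sum_congr rfl fun j _ => ?_
    rw [map_add, add_mul]
  map_mul' := by
    intro M N
    change relS π U (fun j => row n ((M : CStarMatrix (ZMod n) (ZMod n) A) *
      (N : CStarMatrix (ZMod n) (ZMod n) A)) j) = relS π U _ * relS π U _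
    rw [← relS_mul π α U hUn hUπ]
    simp only [row_mul α _ _ N.2]
  map_star' := by
    intro M
    change relS π U (fun j => row n (star (M : CStarMatrix (ZMod n) (ZMod n) A)) j) =
      star (relS π U _)
    rw [← relS_star π α U hU hUn hUπ]
    simp only [row_star α _ M.2]

/-- the covariant matrix with given coefficients -/
noncomputable def ofRow {n : ℕ} [NeZero n] (α : A ≃⋆ₐ[ℂ] A) (a : ZMod n → A) :
    CStarMatrix (ZMod n) (ZMod n) A :=
  CStarMatrix.ofMatrix fun i k => cyc α (-i) (a (i - k))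

lemma ofRow_mem {n : ℕ} [NeZero n] (α : A ≃⋆ₐ[ℂ] A) (hα : α ^ n = 1) (a : ZMod n → A) :
    ofRow α a ∈ covAlg (n := n) α := by
  intro i j k
  change cyc α j (cyc α (-i) (a (i - k))) = cyc α (-(i - j)) (a ((i - j) - (k - j)))
  rw [cyc_cyc α hα, sub_sub_sub_cancel_right, neg_sub, ← sub_eq_add_neg]

omit [PartialOrder A] [StarOrderedRing A] in
lemma row_ofRow {n : ℕ} [NeZero n] (α : A ≃⋆ₐ[ℂ] A) (a : ZMod n → A) :
    row n (ofRow α a) = a := by
  funext j
  change cyc α (-0) (a (0 - -j)) = a j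
  rw [neg_zero, cyc_zero, zero_sub, neg_neg]

/-- E3. -/
theorem coeff_zero_nonneg
    (π : A →⋆ₙₐ[ℂ] (H →L[ℂ] H))
    (α : A ≃⋆ₐ[ℂ] A) (n : ℕ) (hn : 0 < n) (hα : α ^ n = 1)
    (U : H →L[ℂ] H) (hU : U ∈ unitary (H →L[ℂ] H)) (hUn : U ^ n = 1)
    (hUπ : ∀ c, U * π c = π (α c) * U)
    (hinj : ∀ t : ℕ → A, ∑ j ∈ Finset.range n, π (t j) * U ^ j = 0 → ∀ j < n, t j = 0)
    (t : ℕ → A) (ht : 0 ≤ ∑ j ∈ Finset.range n, π (t j) * U ^ j) : 0 ≤ t 0 := by
  have : NeZero n := ⟨hn.ne'⟩
  have hcl := covAlg_isClosed (n := n) α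
  let _ : NonUnitalCStarAlgebra (covAlg (n := n) α) :=
    NonUnitalStarSubalgebra.nonUnitalCStarAlgebra _ (h_closed := hcl)
  let Φ := covHom π α U hU hUn hUπ
  have hΦ : ∀ M : covAlg (n := n) α, Φ M = relS π U (row n M) := fun M => rfl
  have hΦinj : Function.Injective Φ := by
    refine (injective_iff_map_eq_zero Φ).2 fun M hM => ?_
    have h1 : ∀ j : ZMod n, row n (M : CStarMatrix (ZMod n) (ZMod n) A) j = 0 := by
      intro j
      have h2 := hinj (fun j => row n M (j : ZMod n)) (by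
        rw [← relS_val]
        simp only [ZMod.natCast_zmod_val]
        exact hM) j.val (ZMod.val_lt j)
      rwa [ZMod.natCast_zmod_val] at h2
    refine Subtype.ext (CStarMatrix.ext fun i k => ?_)
    have h2 := M.2 i i k
    have h3 := h1 (-(k - i))
    unfold row at h3
    rw [neg_neg] at h3
    rw [sub_self, h3] at h2
    exact (map_eq_zero_iff _ (EquivLike.injective _)).1 h2
  let M : covAlg (n := n) α := ⟨ofRow α fun j => t j.val, ofRow_mem α hα _⟩
  have hM : Φ M = ∑ j ∈ Finset.range n, π (t j) * U ^ j := by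
    rw [hΦ, ← relS_val]
    exact congrArg (relS π U) (row_ofRow α fun j : ZMod n => t j.val)
  obtain ⟨Y, hY⟩ := exists_star_mul_self_of_map_nonneg Φ hΦinj M (hM ▸ ht)
  have h1 : t 0 = (M : CStarMatrix (ZMod n) (ZMod n) A) 0 0 := by
    change t 0 = cyc α (-0) (t ((0 : ZMod n) - 0).val)
    rw [neg_zero, cyc_zero, sub_zero, ZMod.val_zero]
  have h2 : (M : CStarMatrix (ZMod n) (ZMod n) A) 0 0 =
      (star (Y : CStarMatrix (ZMod n) (ZMod n) A) * Y) 0 0 := by
    rw [hY]
    rfl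
  rw [h1, h2, CStarMatrix.mul_apply]
  refine Finset.sum_nonneg fun k _ => ?_
  rw [CStarMatrix.star_apply]
  exact star_mul_self_nonneg _

end E3

end Pool.Agent.helper23.RK
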