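import Mathlib

/-!
# Definitions for MP_6e2074_an

Kirchberg algebras, pointwise outer actions of finite groups and Rokhlin dimension with
noncommuting towers.
-/

open Filter Topology
open scoped CStarAlgebra ComplexOrder MultiplierAlgebra

namespace Pool.Agent.helper23.RK

universe u v

section Algebra

variable (A : Type u) [NonUnitalCStarAlgebra A]

/-- `A` is a simple C*-algebra: it is nonzero, and its only closed two-sided ideals are `0`
and `A`. -/
def IsSimple : Prop :=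
  (∃ a : A, a ≠ 0) ∧
    ∀ I : Submodule ℂ A, IsClosed (I : Set A) → (∀ a b : A, a ∈ I → b * a ∈ I ∧ a * b ∈ I) →
      I = ⊥ ∨ I = ⊤

variable [PartialOrder A] [StarOrderedRing A]

/-- `A` is nuclear: the identity map is a point-norm limit of completely positive contractions
factoring through matrix algebras (completely positive approximation property). -/
def IsNuclear : Prop :=
  ∀ (F : Finset A) (ε : ℝ), 0 < ε →
    ∃ (k : ℕ) (γ : A →CP CStarMatrix (Fin k) (Fin k) ℂ)
      (β : CStarMatrix (Fin k) (Fin k) ℂ →CP A),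
      (∀ x, ‖γ x‖ ≤ ‖x‖) ∧ (∀ x, ‖β x‖ ≤ ‖x‖) ∧ ∀ a ∈ F, ‖β (γ a) - a‖ < ε

/-- `a` lies in the closed two-sided ideal of `A` generated by `b`. -/
def InClosedIdeal {A : Type u} [NonUnitalCStarAlgebra A] (a b : A) : Prop :=
  ∀ I : Submodule ℂ A, IsClosed (I : Set A) → (∀ x y : A, x ∈ I → y * x ∈ I ∧ x * y ∈ I) →
    b ∈ I → a ∈ I

/-- `A` is purely infinite (Kirchberg-Rørdam): `A` has no characters, and for all positive
`a`, `b` with `a` in the closed ideal generated by `b`, `a` is a limit of elements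
`r* b r`. -/
def IsPurelyInfinite : Prop :=
  (∀ χ : A →⋆ₙₐ[ℂ] ℂ, χ = 0) ∧
    ∀ a b : A, 0 ≤ a → 0 ≤ b → InClosedIdeal a b →
      ∀ ε : ℝ, 0 < ε → ∃ r : A, ‖star r * b * r - a‖ < ε

/-- `A` is a Kirchberg algebra: simple, separable, nuclear and purely infinite. -/
def IsKirchberg : Prop :=
  IsSimple A ∧ TopologicalSpace.SeparableSpace A ∧ IsNuclear A ∧ IsPurelyInfinite A

end Algebra

section Action

variable {A : Type u} [NonUnitalCStarAlgebra A]

/-- A *-automorphism is inner if it is implemented by a unitary of the multiplier algebra. -/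
def IsInner (β : A ≃⋆ₐ[ℂ] A) : Prop :=
  ∃ u : 𝓜(ℂ, A), u ∈ unitary 𝓜(ℂ, A) ∧ ∀ a : A, ((β a : A) : 𝓜(ℂ, A)) = u * (a : 𝓜(ℂ, A)) * star u

variable {G : Type v} [Group G]

/-- The action `α` is pointwise outer. -/
def PointwiseOuter (α : G →* (A ≃⋆ₐ[ℂ] A)) : Prop :=
  ∀ g : G, g ≠ 1 → ¬ IsInner (α g)

/-- Two sequences in `A` have the same class in `A_∞ / Ann(A)`, hence (for central sequences)
in Kirchberg's central sequence algebra `F_∞(A)`. -/
def EqF (x y : ℕ → A) : Prop :=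
  ∀ a : A, Tendsto (fun n => (x n - y n) * a) atTop (𝓝 0)

/-- A central sequence of positive contractions in `A`; these represent the positive
contractions of `F_∞(A)`. -/
def CentralPosContraction [PartialOrder A] (x : ℕ → A) : Prop :=
  (∀ n, 0 ≤ x n ∧ ‖x n‖ ≤ 1) ∧ ∀ a : A, Tendsto (fun n => x n * a - a * x n) atTop (𝓝 0)

variable [PartialOrder A] [Fintype G]

/-- `dim_Rok(α) ≤ d` with noncommuting towers, in the sense of `F_∞(A)`: there are positive
contractions `f l g` in `F_∞(A)` with `α_g (f l h) = f l (g h)`, `f l g * f l h = 0` for `g ≠ h`,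
and `∑ f l g = 1`. -/
def RokDimLE (α : G →* (A ≃⋆ₐ[ℂ] A)) (d : ℕ) : Prop :=
  ∃ f : Fin (d + 1) → G → ℕ → A,
    (∀ l g, CentralPosContraction (f l g)) ∧
    (∀ l g h, EqF (fun n => α g (f l h n)) (f l (g * h))) ∧
    (∀ l g h, g ≠ h → EqF (fun n => f l g n * f l h n) 0) ∧
    ∀ a : A, Tendsto (fun n => (∑ l, ∑ g, f l g n) * a) atTop (𝓝 a)

end Action

section Unital

variable {A : Type u} [CStarAlgebra A] [PartialOrder A] {G : Type v} [Group G] [Fintype G]

/-- `dim_Rok(α) ≤ d` with noncommuting towers for unital `A`: the local definition. -/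
def UnitalRokDimLE (α : G →* (A ≃⋆ₐ[ℂ] A)) (d : ℕ) : Prop :=
  ∀ (F : Finset A) (ε : ℝ), 0 < ε →
    ∃ f : Fin (d + 1) → G → A,
      (∀ l g, 0 ≤ f l g ∧ ‖f l g‖ ≤ 1) ∧
      (∀ l g h, ‖α g (f l h) - f l (g * h)‖ < ε) ∧
      (∀ l g h, g ≠ h → ‖f l g * f l h‖ < ε) ∧
      ‖(∑ l, ∑ g, f l g) - 1‖ < ε ∧
      ∀ l g, ∀ a ∈ F, ‖f l g * a - a * f l g‖ < ε

end Unital

end Pool.Agent.helper23.RK
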