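import Pool.Agent.helper23.RK.Base

/-!
# Module C: GNS representation of an excised state
-/

open Filter Topology
open scoped CStarAlgebra ComplexOrder MultiplierAlgebra

namespace Pool.Agent.helper23.RK

universe u v

section C_GNS

variable {A : Type u} [NonUnitalCStarAlgebra A] [PartialOrder A] [StarOrderedRing A]

namespace ExcSeq

variable {e : ℕ → A} {φ : A → ℂ}

theorem star_eq (hE : ExcSeq e φ) (n : ℕ) : star (e n) = e n :=
  (IsSelfAdjoint.of_nonneg (hE.nonneg n)).star_eq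

theorem norm_sq_one (hE : ExcSeq e φ) (n : ℕ) : ‖e n * e n‖ = 1 := by
  have h := CStarRing.norm_star_mul_self (x := e n)
  rw [hE.star_eq] at h
  rw [h, hE.norm_one, mul_one]

/-- numbers are detected by the sequence -/
theorem eq_zero_of_tendsto (hE : ExcSeq e φ) {z : ℂ}
    (h : Tendsto (fun n => ‖z • (e n * e n)‖) atTop (𝓝 0)) : z = 0 := by
  have h1 : (fun n => ‖z • (e n * e n)‖) = fun _ => ‖z‖ := by
    funext n
    rw [norm_smul, hE.norm_sq_one, mul_one]
  rw [h1] at h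
  exact norm_eq_zero.1 (tendsto_nhds_unique tendsto_const_nhds h)

theorem phi_add (hE : ExcSeq e φ) (c d : A) : φ (c + d) = φ c + φ d := by
  have key : φ c + φ d - φ (c + d) = 0 := by
    apply hE.eq_zero_of_tendsto
    have h := ((hE.exc (c + d)).add (hE.exc c)).add (hE.exc d)
    simp only [add_zero] at h
    refine squeeze_zero (fun n => norm_nonneg _) (fun n => ?_) h
    have : (φ c + φ d - φ (c + d)) • (e n * e n) =
        (e n * (c + d) * e n - φ (c + d) • (e n * e n)) - (e n * c * e n - φ c • (e n * e n)) -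
          (e n * d * e n - φ d • (e n * e n)) := by
      rw [sub_smul, add_smul]
      noncomm_ring
    rw [this]
    refine (norm_sub_le _ _).trans (add_le_add_left ((norm_sub_le _ _)) _)
  linear_combination -key

theorem phi_smul (hE : ExcSeq e φ) (r : ℂ) (c : A) : φ (r • c) = r * φ c := by
  have key : r * φ c - φ (r • c) = 0 := by
    apply hE.eq_zero_of_tendsto
    have h := (hE.exc (r • c)).add ((hE.exc c).const_mul ‖r‖)
    simp only [add_zero, mul_zero] at h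
    refine squeeze_zero (fun n => norm_nonneg _) (fun n => ?_) h
    have : (r * φ c - φ (r • c)) • (e n * e n) =
        (e n * (r • c) * e n - φ (r • c) • (e n * e n)) -
          r • (e n * c * e n - φ c • (e n * e n)) := by
      rw [sub_smul, smul_sub, smul_smul, mul_smul_comm, smul_mul_assoc]
      abel
    rw [this]
    refine (norm_sub_le _ _).trans (add_le_add_right ?_ _)
    rw [norm_smul]
  linear_combination -key

theorem tendsto_norm_conj (hE : ExcSeq e φ) (c : A) :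
    Tendsto (fun n => ‖e n * c * e n‖) atTop (𝓝 ‖φ c‖) := by
  have h1 : ∀ n, ‖φ c • (e n * e n)‖ = ‖φ c‖ := by
    intro n
    rw [norm_smul, hE.norm_sq_one, mul_one]
  have h2 : Tendsto (fun n => ‖e n * c * e n‖ - ‖φ c • (e n * e n)‖) atTop (𝓝 0) := by
    refine squeeze_zero_norm (fun n => ?_) (hE.exc c)
    rw [Real.norm_eq_abs]
    exact abs_norm_sub_norm_le _ _
  simp only [h1] at h2
  have h3 := h2.add_const ‖φ c‖
  simpa using h3

theorem norm_le (hE : ExcSeq e φ) (c : A) : ‖φ c‖ ≤ ‖c‖ := by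
  refine le_of_tendsto (hE.tendsto_norm_conj c) (Eventually.of_forall fun n => ?_)
  calc ‖e n * c * e n‖ ≤ ‖e n‖ * ‖c‖ * ‖e n‖ := norm_mul₃_le
    _ = ‖c‖ := by rw [hE.norm_one]; ring

theorem phi_nonneg (hE : ExcSeq e φ) (c : A) (hc : 0 ≤ c) : 0 ≤ φ c := by
  -- the value is real
  have hsa : star c = c := (IsSelfAdjoint.of_nonneg hc).star_eq
  have hreal : (starRingEnd ℂ) (φ c) - φ c = 0 := by
    apply hE.eq_zero_of_tendsto
    have h := (hE.exc c).add (hE.exc c)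
    simp only [add_zero] at h
    refine squeeze_zero (fun n => norm_nonneg _) (fun n => ?_) h
    have h1 : star (e n * c * e n - φ c • (e n * e n)) =
        e n * c * e n - (starRingEnd ℂ) (φ c) • (e n * e n) := by
      rw [star_sub, star_smul, star_mul, star_mul, star_mul, hE.star_eq, hsa, mul_assoc]
      rfl
    have h2 : ((starRingEnd ℂ) (φ c) - φ c) • (e n * e n) =
        (e n * c * e n - φ c • (e n * e n)) - star (e n * c * e n - φ c • (e n * e n)) := by
      rw [h1, sub_smul]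
      abel
    rw [h2]
    refine (norm_sub_le _ _).trans ?_
    rw [norm_star]
  have him : (φ c).im = 0 := Complex.conj_eq_iff_im.1 (sub_eq_zero.1 hreal)
  have hz : φ c = ((φ c).re : ℂ) := Complex.ext rfl (by simp [him])
  have hre : 0 ≤ (φ c).re := by
    by_contra hneg
    push Not at hneg
    have hφ0 : φ c = 0 := by
      apply hE.eq_zero_of_tendsto
      refine squeeze_zero (fun n => norm_nonneg _) (fun n => ?_) (hE.exc c)
      have hee : 0 ≤ e n * e n := by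
        have := star_mul_self_nonneg (e n)
        rwa [hE.star_eq] at this
      have hp : 0 ≤ e n * c * e n := by
        have := star_left_conjugate_nonneg hc (e n)
        rwa [hE.star_eq] at this
      have h3 : 0 ≤ (-φ c) • (e n * e n) := by
        refine smul_nonneg ?_ hee
        rw [hz, ← Complex.ofReal_neg]
        exact_mod_cast (by linarith : (0 : ℝ) ≤ -(φ c).re)
      have h4 : (-φ c) • (e n * e n) ≤ e n * c * e n - φ c • (e n * e n) := by
        have : e n * c * e n - φ c • (e n * e n) = e n * c * e n + (-φ c) • (e n * e n) := by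
          rw [neg_smul]; abel
        rw [this]
        exact le_add_of_nonneg_left hp
      have h5 := CStarAlgebra.norm_le_norm_of_nonneg_of_le h3 h4
      rwa [neg_smul, norm_neg] at h5
    rw [hφ0] at hneg
    simp at hneg
  rw [hz]
  exact_mod_cast hre

/-- `φ (e n) → 1` with a rate. -/
theorem norm_sub_one_le (hE : ExcSeq e φ) (n : ℕ) : ‖φ (e n) - 1‖ ≤ (1 / 2 : ℝ) ^ n := by
  have h := (hE.exc (e n)).add_const ((1 / 2 : ℝ) ^ n)
  rw [zero_add] at h
  refine ge_of_tendsto h ?_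
  filter_upwards [eventually_gt_atTop n] with m hm
  have h1 : (φ (e n) - 1) • (e m * e m) =
      e m * (e n * e m - e m) - (e m * e n * e m - φ (e n) • (e m * e m)) := by
    rw [sub_smul, one_smul]
    noncomm_ring
  have h2 : ‖(φ (e n) - 1) • (e m * e m)‖ = ‖φ (e n) - 1‖ := by
    rw [norm_smul, hE.norm_sq_one, mul_one]
  rw [← h2, h1]
  refine (norm_sub_le _ _).trans ?_
  rw [add_comm]
  refine add_le_add_right ?_ _
  calc ‖e m * (e n * e m - e m)‖ ≤ ‖e m‖ * ‖e n * e m - e m‖ := norm_mul_le _ _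
    _ ≤ 1 * (1 / 2 : ℝ) ^ n := by
      rw [hE.norm_one]
      exact mul_le_mul_of_nonneg_left (hE.desc n m hm) zero_le_one
    _ = (1 / 2 : ℝ) ^ n := one_mul _

theorem norm_desc' (hE : ExcSeq e φ) {n m : ℕ} (h : n < m) :
    ‖e m * e n - e m‖ ≤ (1 / 2 : ℝ) ^ n := by
  have h1 : star (e n * e m - e m) = e m * e n - e m := by
    rw [star_sub, star_mul, hE.star_eq, hE.star_eq]
  rw [← h1, norm_star]
  exact hE.desc n m h

theorem norm_sub_mul_le (hE : ExcSeq e φ) (n : ℕ) (c : A) :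
    ‖φ (e n * c) - φ c‖ ≤ (1 / 2 : ℝ) ^ n * ‖c‖ := by
  have h := (hE.exc (e n * c)).add (hE.exc c)
  have h' := h.add_const ((1 / 2 : ℝ) ^ n * ‖c‖)
  simp only [add_zero, zero_add] at h'
  refine ge_of_tendsto h' ?_
  filter_upwards [eventually_gt_atTop n] with m hm
  have h2 : ‖(φ (e n * c) - φ c) • (e m * e m)‖ = ‖φ (e n * c) - φ c‖ := by
    rw [norm_smul, hE.norm_sq_one, mul_one]
  have h1 : (φ (e n * c) - φ c) • (e m * e m) =
      (e m * e n - e m) * c * e m - (e m * (e n * c) * e m - φ (e n * c) • (e m * e m)) +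
        (e m * c * e m - φ c • (e m * e m)) := by
    rw [sub_smul]
    noncomm_ring
  rw [← h2, h1]
  refine (norm_add_le _ _).trans ?_
  have h3 : ‖(e m * e n - e m) * c * e m‖ ≤ (1 / 2 : ℝ) ^ n * ‖c‖ := by
    calc ‖(e m * e n - e m) * c * e m‖ ≤ ‖e m * e n - e m‖ * ‖c‖ * ‖e m‖ := norm_mul₃_le
      _ ≤ (1 / 2 : ℝ) ^ n * ‖c‖ * 1 := by
        rw [hE.norm_one]
        gcongr
        exact hE.norm_desc' hm
      _ = _ := mul_one _
  have h4 := norm_sub_le ((e m * e n - e m) * c * e m)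
    (e m * (e n * c) * e m - φ (e n * c) • (e m * e m))
  linarith

theorem tendsto_one (hE : ExcSeq e φ) : Tendsto (fun n => φ (e n)) atTop (𝓝 1) := by
  rw [tendsto_iff_norm_sub_tendsto_zero]
  refine squeeze_zero (fun n => norm_nonneg _) (fun n => hE.norm_sub_one_le n) ?_
  exact tendsto_pow_atTop_nhds_zero_of_lt_one (by norm_num) (by norm_num)

end ExcSeq

theorem ExcSeq.exists_posLin {e : ℕ → A} {φ : A → ℂ} (hE : ExcSeq e φ) :
    ∃ Φ : A →ₚ[ℂ] ℂ, (∀ c, Φ c = φ c) ∧ Φ ≠ 0 := by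
  let L : A →ₗ[ℂ] ℂ :=
    { toFun := φ
      map_add' := hE.phi_add
      map_smul' := fun r c => hE.phi_smul r c }
  refine ⟨PositiveLinearMap.mk₀ L hE.phi_nonneg, fun c => rfl, fun h => ?_⟩
  have h1 : φ (e 1) = 0 := by
    have := congrArg (fun Ψ : A →ₚ[ℂ] ℂ => Ψ (e 1)) h
    exact this
  have h2 := hE.norm_sub_one_le 1
  rw [h1] at h2
  norm_num at h2

theorem ExcSeq.exists_cyclic {e : ℕ → A} {φ : A → ℂ} (hE : ExcSeq e φ) :
    ∃ (H : Type u) (_ : NormedAddCommGroup H) (_ : InnerProductSpace ℂ H) (_ : CompleteSpace H)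
      (π : A →⋆ₙₐ[ℂ] (H →L[ℂ] H)) (ξ : H), ‖ξ‖ = 1 ∧ DenseRange (fun c : A => π c ξ) ∧
        ∀ c, inner ℂ ξ (π c ξ) = φ c := by
  obtain ⟨Φ, hΦ, -⟩ := hE.exists_posLin
  -- classes
  let cl : A → Φ.GNS := fun c => ((Φ.toPreGNS c : Φ.PreGNS) : Φ.GNS)
  have hcl_inner : ∀ c d, inner ℂ (cl c) (cl d) = φ (star c * d) := by
    intro c d
    show inner ℂ ((Φ.toPreGNS c : Φ.PreGNS) : Φ.GNS) ((Φ.toPreGNS d : Φ.PreGNS) : Φ.GNS) = _
    rw [UniformSpace.Completion.inner_coe, PositiveLinearMap.preGNS_inner_def, ← hΦ]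
    rfl
  have hcl_dense : DenseRange cl := by
    have h1 : DenseRange ((↑) : Φ.PreGNS → Φ.GNS) := UniformSpace.Completion.denseRange_coe
    exact h1
  have hπ : ∀ a c, Φ.gnsNonUnitalStarAlgHom a (cl c) = cl (a * c) := by
    intro a c
    show Φ.gnsNonUnitalStarAlgHom a ((Φ.toPreGNS c : Φ.PreGNS) : Φ.GNS) = _
    rw [PositiveLinearMap.gnsNonUnitalStarAlgHom_apply_coe]
    rfl
  have hnorm : ∀ n, ‖cl (e n)‖ ≤ 1 := by
    intro n
    have h1 : ‖cl (e n)‖ ^ 2 = (φ (star (e n) * e n)).re := by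
      rw [← hcl_inner]
      exact (inner_self_eq_norm_sq (𝕜 := ℂ) (cl (e n))).symm
    have h2 : (φ (star (e n) * e n)).re ≤ 1 := by
      refine (Complex.re_le_norm _).trans ((hE.norm_le _).trans ?_)
      rw [hE.star_eq, hE.norm_sq_one]
    nlinarith [norm_nonneg (cl (e n))]
  -- the functional is bounded by one for the norm of the classes
  have hbound : ∀ c, ‖φ c‖ ≤ ‖cl c‖ := by
    intro c
    have h1 : ∀ n, ‖φ (e n * c)‖ ≤ ‖cl c‖ := by
      intro n
      have h2 : φ (e n * c) = inner ℂ (cl (e n)) (cl c) := by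
        rw [hcl_inner, hE.star_eq]
      rw [h2]
      refine (norm_inner_le_norm _ _).trans ?_
      exact mul_le_of_le_one_left (norm_nonneg _) (hnorm n)
    have h3 : Tendsto (fun n => φ (e n * c)) atTop (𝓝 (φ c)) := by
      rw [tendsto_iff_norm_sub_tendsto_zero]
      refine squeeze_zero (fun n => norm_nonneg _) (fun n => hE.norm_sub_mul_le n c) ?_
      rw [← zero_mul ‖c‖]
      exact (tendsto_pow_atTop_nhds_zero_of_lt_one (by norm_num) (by norm_num)).mul_const _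
    exact le_of_tendsto h3.norm (Eventually.of_forall h1)
  -- Riesz
  let E : A →ₗ[ℂ] Φ.GNS :=
    (UniformSpace.Completion.toComplL (𝕜 := ℂ) (E := Φ.PreGNS)).toLinearMap ∘ₗ
      Φ.toPreGNS.toLinearMap
  have hEcl : ∀ c, E c = cl c := fun c => rfl
  let L : A →ₗ[ℂ] ℂ :=
    { toFun := φ
      map_add' := hE.phi_add
      map_smul' := fun r c => hE.phi_smul r c }
  have hL : ∀ c, ‖L c‖ ≤ 1 * ‖E c‖ := by
    intro c
    rw [one_mul]
    exact hbound c
  have hEd : DenseRange E := hcl_dense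
  let F : Φ.GNS →L[ℂ] ℂ := L.extendOfNorm E
  have hF : ∀ c, F (cl c) = φ c := fun c => LinearMap.extendOfNorm_eq hEd ⟨1, hL⟩ c
  let ξ : Φ.GNS := (InnerProductSpace.toDual ℂ Φ.GNS).symm F
  have hξ : ∀ v, inner ℂ ξ v = F v := fun v => InnerProductSpace.toDual_symm_apply
  have hξcl : ∀ c, inner ℂ ξ (cl c) = φ c := fun c => by rw [hξ, hF]
  have hπξ : ∀ c, Φ.gnsNonUnitalStarAlgHom c ξ = cl c := by
    intro c
    refine hcl_dense.eq_of_inner_right (𝕜 := ℂ) fun d => ?_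
    rw [← ContinuousLinearMap.adjoint_inner_left, ← ContinuousLinearMap.star_eq_adjoint,
      ← map_star, hπ, ← inner_conj_symm, hξcl, hcl_inner]
    have h1 := hcl_inner d c
    have h2 : (starRingEnd ℂ) (φ (star c * d)) = φ (star d * c) := by
      rw [← hcl_inner, ← hcl_inner, inner_conj_symm]
    exact h2
  refine ⟨Φ.GNS, inferInstance, inferInstance, inferInstance, Φ.gnsNonUnitalStarAlgHom, ξ,
    ?_, ?_, ?_⟩
  · apply le_antisymm
    · have h1 : ‖ξ‖ = ‖F‖ := LinearIsometryEquiv.norm_map _ _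
      rw [h1]
      exact LinearMap.opNorm_extendOfNorm_le hEd zero_le_one hL
    · have h1 : ∀ n, ‖φ (e n)‖ ≤ ‖ξ‖ := by
        intro n
        rw [← hξcl]
        refine (norm_inner_le_norm _ _).trans ?_
        exact mul_le_of_le_one_right (norm_nonneg _) (hnorm n)
      have h2 : Tendsto (fun n => ‖φ (e n)‖) atTop (𝓝 ‖(1 : ℂ)‖) := hE.tendsto_one.norm
      have h3 : ‖(1 : ℂ)‖ ≤ ‖ξ‖ := le_of_tendsto h2 (Eventually.of_forall h1)
      simpa using h3
  · have h1 : (fun c : A => Φ.gnsNonUnitalStarAlgHom c ξ) = cl := funext hπξ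
    rw [h1]
    exact hcl_dense
  · intro c
    rw [hπξ, hξcl]

variable {H : Type v} [NormedAddCommGroup H] [InnerProductSpace ℂ H] [CompleteSpace H]

theorem norm_apply_sq_le_re_inner (p : H →L[ℂ] H) (hp : 0 ≤ p) (hp1 : ‖p‖ ≤ 1) (v : H) :
    ‖p v‖ ^ 2 ≤ (inner ℂ v (p v)).re := by
  obtain ⟨y, hy⟩ := CStarAlgebra.nonneg_iff_eq_star_mul_self.1 hp
  have h1 : ‖y‖ * ‖y‖ ≤ 1 := by
    rw [← CStarRing.norm_star_mul_self, ← hy]
    exact hp1
  have h2 : p v = star y (y v) := by rw [hy]; rfl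
  have h3 : (inner ℂ v (p v)).re = ‖y v‖ ^ 2 := by
    rw [h2, ContinuousLinearMap.star_eq_adjoint, ContinuousLinearMap.adjoint_inner_right]
    exact inner_self_eq_norm_sq (𝕜 := ℂ) (y v)
  have h4 : ‖p v‖ ≤ ‖y‖ * ‖y v‖ := by
    rw [h2]
    refine (ContinuousLinearMap.le_opNorm _ _).trans ?_
    rw [norm_star]
  rw [h3]
  calc ‖p v‖ ^ 2 ≤ (‖y‖ * ‖y v‖) ^ 2 := by gcongr
    _ = (‖y‖ * ‖y‖) * ‖y v‖ ^ 2 := by ring
    _ ≤ 1 * ‖y v‖ ^ 2 := by gcongr
    _ = ‖y v‖ ^ 2 := one_mul _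

theorem tendsto_of_almost_decreasing (p : ℕ → (H →L[ℂ] H)) (hp : ∀ n, 0 ≤ p n)
    (hp1 : ∀ n, ‖p n‖ ≤ 1) (δ : ℕ → ℝ) (hδ : Tendsto δ atTop (𝓝 0))
    (hd : ∀ n m, n < m → ‖p n * p m - p m‖ ≤ δ n) (v : H) :
    ∃ w : H, Tendsto (fun n => p n v) atTop (𝓝 w) ∧ ∀ n, ‖p n w - w‖ ≤ δ n * ‖v‖ := by
  have hδ0 : ∀ n, 0 ≤ δ n := fun n => (norm_nonneg _).trans (hd n (n + 1) (Nat.lt_succ_self n))
  let a : ℕ → ℝ := fun n => (inner ℂ v (p n v)).re
  have ha0 : ∀ n, 0 ≤ a n := fun n =>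
    (sq_nonneg _).trans (norm_apply_sq_le_re_inner (p n) (hp n) (hp1 n) v)
  have hmain : ∀ n m, n < m → ‖p n v - p m v‖ ^ 2 ≤ a n - a m + 2 * (δ n * ‖v‖ ^ 2) := by
    intro n m hnm
    have h1 := norm_apply_sq_le_re_inner (p n) (hp n) (hp1 n) v
    have h2 := norm_apply_sq_le_re_inner (p m) (hp m) (hp1 m) v
    have h3 : ‖p n v - p m v‖ ^ 2 =
        ‖p n v‖ ^ 2 - 2 * (inner ℂ (p n v) (p m v)).re + ‖p m v‖ ^ 2 :=
      norm_sub_sq (𝕜 := ℂ) (p n v) (p m v)
    have hsa : star (p n) = p n := (IsSelfAdjoint.of_nonneg (hp n)).star_eq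
    have h4 : inner ℂ (p n v) (p m v) = inner ℂ v (p n (p m v)) := by
      have h5 : inner ℂ (star (p n) v) (p m v) = inner ℂ v (p n (p m v)) := by
        rw [ContinuousLinearMap.star_eq_adjoint, ContinuousLinearMap.adjoint_inner_left]
      rwa [hsa] at h5
    have h6 : |(inner ℂ v (p n (p m v))).re - a m| ≤ δ n * ‖v‖ ^ 2 := by
      have h7 : (inner ℂ v (p n (p m v))).re - a m = (inner ℂ v ((p n * p m - p m) v)).re := by
        show _ = (inner ℂ v (p n (p m v) - p m v)).re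
        rw [inner_sub_right, Complex.sub_re]
      rw [h7]
      refine (Complex.abs_re_le_norm _).trans ((norm_inner_le_norm _ _).trans ?_)
      calc ‖v‖ * ‖(p n * p m - p m) v‖ ≤ ‖v‖ * (‖p n * p m - p m‖ * ‖v‖) := by
            gcongr
            exact ContinuousLinearMap.le_opNorm _ _
        _ ≤ ‖v‖ * (δ n * ‖v‖) := by
            gcongr
            exact hd n m hnm
        _ = δ n * ‖v‖ ^ 2 := by ring
    have h8 := (abs_le.1 h6).1
    rw [h4] at h3
    have h9 : a n = (inner ℂ v (p n v)).re := rfl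
    have h10 : a m = (inner ℂ v (p m v)).re := rfl
    linarith
  -- convergence of `a`
  let b : ℕ → ℝ := fun n => a n + 2 * (δ n * ‖v‖ ^ 2)
  have hab : ∀ n m, n < m → a m ≤ b n := by
    intro n m hnm
    have := hmain n m hnm
    have h1 := sq_nonneg ‖p n v - p m v‖
    show a m ≤ a n + 2 * (δ n * ‖v‖ ^ 2)
    linarith
  have hb0 : BddBelow (Set.range b) := by
    refine ⟨0, ?_⟩
    rintro _ ⟨n, rfl⟩
    have := hδ0 n
    have := ha0 n
    positivity
  set L : ℝ := ⨅ n, b n with hL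
  have hLb : ∀ n, L ≤ b n := fun n => ciInf_le hb0 n
  have hε : Tendsto (fun n => 2 * (δ n * ‖v‖ ^ 2)) atTop (𝓝 0) := by
    have := (hδ.mul_const (‖v‖ ^ 2)).const_mul 2
    simpa using this
  have hcauchy : CauchySeq fun n => p n v := by
    rw [Metric.cauchySeq_iff]
    intro η hη
    have hη2 : 0 < η ^ 2 / 4 := by positivity
    obtain ⟨n₀, hn₀⟩ : ∃ n, b n < L + η ^ 2 / 4 := by
      have : (⨅ n, b n) < L + η ^ 2 / 4 := by rw [← hL]; linarith
      exact exists_lt_of_ciInf_lt this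
    obtain ⟨n₁, hn₁⟩ := (hε.eventually (gt_mem_nhds hη2)).exists_forall_of_atTop
    have key : ∀ n m, max (n₀ + 1) n₁ ≤ n → n < m → ‖p n v - p m v‖ < η := by
      intro n m hn hnm
      have hn1 : n₀ < n := lt_of_lt_of_le (Nat.lt_succ_self _) ((le_max_left _ _).trans hn)
      have hn2 : n₁ ≤ n := (le_max_right _ _).trans hn
      have h1 := hmain n m hnm
      have h2 := hab n₀ n hn1
      have h3 := hn₁ n hn2
      have h4 := hn₁ m (hn2.trans hnm.le)
      have h5 : L ≤ a m + 2 * (δ m * ‖v‖ ^ 2) := hLb m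
      have h6 : ‖p n v - p m v‖ ^ 2 < η ^ 2 := by nlinarith
      exact lt_of_pow_lt_pow_left₀ 2 hη.le h6
    refine ⟨max (n₀ + 1) n₁, fun m hm n hn => ?_⟩
    rcases lt_trichotomy m n with h | h | h
    · rw [dist_eq_norm]; exact key m n hm h
    · rw [h, dist_self]; exact hη
    · rw [dist_comm, dist_eq_norm]; exact key n m hn h
  obtain ⟨w, hw⟩ := cauchySeq_tendsto_of_complete hcauchy
  refine ⟨w, hw, fun n => ?_⟩
  have h1 : Tendsto (fun m => ‖p n (p m v) - p m v‖) atTop (𝓝 ‖p n w - w‖) :=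
    ((((p n).continuous.tendsto w).comp hw).sub hw).norm
  refine le_of_tendsto h1 ?_
  filter_upwards [eventually_gt_atTop n] with m hm
  calc ‖p n (p m v) - p m v‖ = ‖(p n * p m - p m) v‖ := rfl
    _ ≤ ‖p n * p m - p m‖ * ‖v‖ := ContinuousLinearMap.le_opNorm _ _
    _ ≤ δ n * ‖v‖ := by
      gcongr
      exact hd n m hm

theorem norm_rep_le (π : A →⋆ₙₐ[ℂ] (H →L[ℂ] H)) (a : A) : ‖π a‖ ≤ ‖a‖ :=
  NonUnitalStarAlgHom.norm_apply_le π a

theorem rep_nonneg (π : A →⋆ₙₐ[ℂ] (H →L[ℂ] H)) {a : A} (ha : 0 ≤ a) : 0 ≤ π a := by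
  obtain ⟨y, hy⟩ := CStarAlgebra.nonneg_iff_eq_star_mul_self.1 ha
  rw [hy, map_mul, map_star]
  exact star_mul_self_nonneg _

theorem ExcSeq.tendsto_xi {e : ℕ → A} {φ : A → ℂ} (hE : ExcSeq e φ)
    (π : A →⋆ₙₐ[ℂ] (H →L[ℂ] H)) (ξ : H) (hξ : ‖ξ‖ = 1)
    (hφ : ∀ c, inner ℂ ξ (π c ξ) = φ c) : Tendsto (fun n => π (e n) ξ) atTop (𝓝 ξ) := by
  rw [tendsto_iff_norm_sub_tendsto_zero]
  have h0 : Tendsto (fun n => 2 - 2 * (φ (e n)).re) atTop (𝓝 0) := by
    have h1 : Tendsto (fun n => (φ (e n)).re) atTop (𝓝 1) :=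
      (Complex.continuous_re.tendsto _).comp hE.tendsto_one
    have h2 := (h1.const_mul 2).const_sub 2
    simpa using h2
  have h3 : Tendsto (fun n => ‖π (e n) ξ - ξ‖ ^ 2) atTop (𝓝 0) := by
    refine squeeze_zero (fun n => sq_nonneg _) (fun n => ?_) h0
    have h4 : ‖π (e n) ξ - ξ‖ ^ 2 =
        ‖π (e n) ξ‖ ^ 2 - 2 * (inner ℂ (π (e n) ξ) ξ).re + ‖ξ‖ ^ 2 :=
      norm_sub_sq (𝕜 := ℂ) (π (e n) ξ) ξ
    have h5 : (inner ℂ (π (e n) ξ) ξ).re = (φ (e n)).re := by
      rw [← hφ]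
      exact inner_re_symm (𝕜 := ℂ) _ _
    have h6 : ‖π (e n) ξ‖ ≤ 1 := by
      refine (ContinuousLinearMap.le_opNorm _ _).trans ?_
      rw [hξ, mul_one]
      exact (norm_rep_le π (e n)).trans (hE.norm_one n).le
    rw [h4, h5, hξ]
    nlinarith [norm_nonneg (π (e n) ξ)]
  have h7 := h3.sqrt
  rw [Real.sqrt_zero] at h7
  refine h7.congr fun n => ?_
  exact Real.sqrt_sq (norm_nonneg _)

theorem rep_inner_left (π : A →⋆ₙₐ[ℂ] (H →L[ℂ] H)) (a : A) (x y : H) :
    inner ℂ (π a x) y = inner ℂ x (π (star a) y) := by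
  rw [map_star, ContinuousLinearMap.star_eq_adjoint, ContinuousLinearMap.adjoint_inner_right]

theorem ExcSeq.tendsto_rank_one {e : ℕ → A} {φ : A → ℂ} (hE : ExcSeq e φ)
    (π : A →⋆ₙₐ[ℂ] (H →L[ℂ] H)) (ξ : H) (hξ : ‖ξ‖ = 1) (hd : DenseRange (fun c : A => π c ξ))
    (hφ : ∀ c, inner ℂ ξ (π c ξ) = φ c) (v : H) :
    Tendsto (fun n => π (e n) v) atTop (𝓝 (inner ℂ ξ v • ξ)) := by
  have hδ : Tendsto (fun n : ℕ => (1 / 2 : ℝ) ^ n) atTop (𝓝 0) :=
    tendsto_pow_atTop_nhds_zero_of_lt_one (by norm_num) (by norm_num)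
  obtain ⟨w, hw, hw'⟩ := tendsto_of_almost_decreasing (fun n => π (e n))
    (fun n => rep_nonneg π (hE.nonneg n))
    (fun n => (norm_rep_le π (e n)).trans (hE.norm_one n).le) (fun n => (1 / 2 : ℝ) ^ n) hδ
    (fun n m hnm => by
      rw [← map_mul, ← map_sub]
      exact (norm_rep_le π _).trans (hE.desc n m hnm)) v
  have hxi := hE.tendsto_xi π ξ hξ hφ
  -- `π (e n) w → w`
  have hww : Tendsto (fun n => π (e n) w) atTop (𝓝 w) := by
    rw [tendsto_iff_norm_sub_tendsto_zero]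
    refine squeeze_zero (fun n => norm_nonneg _) hw' ?_
    rw [← zero_mul ‖v‖]
    exact hδ.mul_const _
  -- `π (e n) (π (e n) w) → w`
  have hwww : Tendsto (fun n => π (e n * e n) w) atTop (𝓝 w) := by
    rw [tendsto_iff_norm_sub_tendsto_zero]
    have h1 := (tendsto_iff_norm_sub_tendsto_zero.1 hww).add
      (tendsto_iff_norm_sub_tendsto_zero.1 hww)
    rw [add_zero] at h1
    refine squeeze_zero (fun n => norm_nonneg _) (fun n => ?_) h1
    have h2 : π (e n * e n) w - w = π (e n) (π (e n) w - w) + (π (e n) w - w) := by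
      rw [map_mul, map_sub]
      show π (e n) (π (e n) w) - w = _
      abel
    rw [h2]
    refine (norm_add_le _ _).trans (add_le_add_left ?_ _)
    refine (ContinuousLinearMap.le_opNorm _ _).trans ?_
    exact mul_le_of_le_one_left (norm_nonneg _) ((norm_rep_le π (e n)).trans (hE.norm_one n).le)
  have hkey : ∀ c, inner ℂ ξ (π c w) = φ c * inner ℂ ξ w := by
    intro c
    have h1 : Tendsto (fun n => inner ℂ (π (e n) ξ) (π c (π (e n) w))) atTop
        (𝓝 (inner ℂ ξ (π c w))) :=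
      hxi.inner (((π c).continuous.tendsto w).comp hww)
    have h2 : ∀ n, inner ℂ (π (e n) ξ) (π c (π (e n) w)) = inner ℂ ξ (π (e n * c * e n) w) := by
      intro n
      rw [rep_inner_left, hE.star_eq, map_mul, map_mul]
      rfl
    simp only [h2] at h1
    have h3 : Tendsto (fun n => φ c * inner ℂ ξ (π (e n * e n) w)) atTop
        (𝓝 (φ c * inner ℂ ξ w)) := (tendsto_const_nhds.inner hwww).const_mul _
    refine sub_eq_zero.1 (tendsto_nhds_unique (h1.sub h3) ?_)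
    have h4 := (hE.exc c).mul_const ‖w‖
    rw [zero_mul] at h4
    refine squeeze_zero_norm (fun n => ?_) h4
    have h5 : inner ℂ ξ (π (e n * c * e n) w) - φ c * inner ℂ ξ (π (e n * e n) w) =
        inner ℂ ξ (π (e n * c * e n - φ c • (e n * e n)) w) := by
      rw [map_sub, map_smul, sub_apply, smul_apply, inner_sub_right, inner_smul_right]
    rw [h5]
    refine (norm_inner_le_norm _ _).trans ?_
    rw [hξ, one_mul]
    refine (ContinuousLinearMap.le_opNorm _ _).trans ?_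
    gcongr
    exact norm_rep_le π _
  have hw2 : w = inner ℂ ξ w • ξ := by
    refine hd.eq_of_inner_right (𝕜 := ℂ) fun c => ?_
    rw [rep_inner_left, hkey, inner_smul_right, rep_inner_left, hφ, mul_comm]
  have hw3 : inner ℂ ξ w = inner ℂ ξ v := by
    have h1 : Tendsto (fun n => inner ℂ ξ (π (e n) v)) atTop (𝓝 (inner ℂ ξ w)) :=
      tendsto_const_nhds.inner hw
    have h2 : Tendsto (fun n => inner ℂ (π (e n) ξ) v) atTop (𝓝 (inner ℂ ξ v)) :=
      hxi.inner tendsto_const_nhds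
    refine tendsto_nhds_unique h1 (h2.congr fun n => ?_)
    rw [rep_inner_left, hE.star_eq]
  rw [← hw3, ← hw2]
  exact hw

theorem schur (e : ℕ → A) (π : A →⋆ₙₐ[ℂ] (H →L[ℂ] H)) (ξ : H) (hξ : ‖ξ‖ = 1)
    (hd : DenseRange (fun c : A => π c ξ))
    (hr : ∀ v, Tendsto (fun n => π (e n) v) atTop (𝓝 (inner ℂ ξ v • ξ)))
    (T : H →L[ℂ] H) (hT : ∀ c, T * π c = π c * T) : ∃ z : ℂ, T = z • (1 : H →L[ℂ] H) := by
  have hT' : ∀ c x, T (π c x) = π c (T x) := fun c x => by
    have := congrArg (fun S : H →L[ℂ] H => S x) (hT c)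
    exact this
  have h1 : Tendsto (fun n => π (e n) (T ξ)) atTop (𝓝 (T ξ)) := by
    have h2 := (T.continuous.tendsto _).comp (hr ξ)
    have h3 : inner ℂ ξ ξ • ξ = ξ := by
      rw [inner_self_eq_norm_sq_to_K, hξ]
      simp
    rw [h3] at h2
    exact h2.congr fun n => hT' _ _
  have h4 : T ξ = inner ℂ ξ (T ξ) • ξ := tendsto_nhds_unique h1 (hr (T ξ))
  refine ⟨inner ℂ ξ (T ξ), ?_⟩
  ext x
  have h5 : T x = inner ℂ ξ (T ξ) • x := by
    refine hd.induction_on (p := fun x => T x = inner ℂ ξ (T ξ) • x) x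
      (isClosed_eq T.continuous (continuous_const_smul _)) fun c => ?_
    rw [hT', ← map_smul, ← h4]
  exact h5

/-- the basic limit -/
theorem ExcSeq.tendsto_norm_mul {e : ℕ → A} {φ : A → ℂ} (hE : ExcSeq e φ)
    (π : A →⋆ₙₐ[ℂ] (H →L[ℂ] H)) (ξ : H)
    (hφ : ∀ c, inner ℂ ξ (π c ξ) = φ c) (y : A) :
    Tendsto (fun m => ‖e m * y‖) atTop (𝓝 ‖π (star y) ξ‖) := by
  have h1 := hE.tendsto_norm_conj (y * star y)
  have h2 : ∀ m, ‖e m * (y * star y) * e m‖ = ‖e m * y‖ ^ 2 := by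
    intro m
    have h3 : e m * (y * star y) * e m = (e m * y) * star (e m * y) := by
      rw [star_mul, hE.star_eq]
      noncomm_ring
    rw [h3, CStarRing.norm_self_mul_star, sq]
  have h4 : ‖φ (y * star y)‖ = ‖π (star y) ξ‖ ^ 2 := by
    have h5 : φ (y * star y) = inner ℂ (π (star y) ξ) (π (star y) ξ) := by
      rw [rep_inner_left, star_star, ← hφ, map_mul]
      rfl
    rw [h5, inner_self_eq_norm_sq_to_K, norm_pow]
    simp
  simp only [h2, h4] at h1
  have h6 := h1.sqrt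
  rw [Real.sqrt_sq (norm_nonneg _)] at h6
  refine h6.congr fun m => ?_
  exact Real.sqrt_sq (norm_nonneg _)

theorem norm_aut (α : A ≃⋆ₐ[ℂ] A) (x : A) : ‖α x‖ = ‖x‖ := by
  apply le_antisymm
  · exact NonUnitalStarAlgHom.norm_apply_le (α : A →⋆ₙₐ[ℂ] A) x
  · have h1 := NonUnitalStarAlgHom.norm_apply_le (α.symm : A →⋆ₙₐ[ℂ] A) (α x)
    have h2 : (α.symm : A →⋆ₙₐ[ℂ] A) (α x) = x := α.symm_apply_apply x
    rwa [h2] at h1

theorem ExcSeq.norm_alpha_le {e : ℕ → A} {φ : A → ℂ} (hE : ExcSeq e φ)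
    (α : A ≃⋆ₐ[ℂ] A) (b : A) {n m : ℕ} (h : n < m) :
    ‖e m * b * α (e m)‖ ≤ ‖e m * (b * α (e n))‖ + (1 / 2 : ℝ) ^ n * ‖b‖ := by
  have h1 : e m * b * α (e m) = e m * (b * α (e n)) * α (e m) - e m * b * α (e n * e m - e m) := by
    rw [map_sub, map_mul]
    noncomm_ring
  rw [h1]
  refine (norm_sub_le _ _).trans (add_le_add ?_ ?_)
  · refine (norm_mul_le _ _).trans ?_
    rw [norm_aut, hE.norm_one, mul_one]
  · refine norm_mul₃_le.trans ?_
    rw [norm_aut, hE.norm_one, one_mul, mul_comm]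
    gcongr
    exact hE.desc n m h

theorem ExcSeq.exists_implementing {e : ℕ → A} {φ : A → ℂ} (hE : ExcSeq e φ)
    (π : A →⋆ₙₐ[ℂ] (H →L[ℂ] H)) (ξ : H) (hξ : ‖ξ‖ = 1) (hd : DenseRange (fun c : A => π c ξ))
    (hφ : ∀ c, inner ℂ ξ (π c ξ) = φ c) (α : A ≃⋆ₐ[ℂ] A) (n : ℕ) (hn : 0 < n) (hα : α ^ n = 1)
    (b : A) (hb : ¬ Tendsto (fun k => ‖e k * b * α (e k)‖) atTop (𝓝 0)) :
    ∃ U : H →L[ℂ] H, U ∈ unitary (H →L[ℂ] H) ∧ (∀ c, U * π c = π (α c) * U) ∧ U ^ n = 1 := by
  have hδ : Tendsto (fun n : ℕ => (1 / 2 : ℝ) ^ n) atTop (𝓝 0) :=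
    tendsto_pow_atTop_nhds_zero_of_lt_one (by norm_num) (by norm_num)
  have hr := hE.tendsto_rank_one π ξ hξ hd hφ
  set v : H := π (star b) ξ with hv
  have hαpos : ∀ k, 0 ≤ α (e k) := fun k => by
    obtain ⟨y, hy⟩ := CStarAlgebra.nonneg_iff_eq_star_mul_self.1 (hE.nonneg k)
    rw [hy, map_mul, map_star]
    exact star_mul_self_nonneg _
  have hαstar : ∀ k, star (α (e k)) = α (e k) := fun k => by
    rw [← map_star, hE.star_eq]
  obtain ⟨η, hη, hη'⟩ := tendsto_of_almost_decreasing (fun k => π (α (e k)))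
    (fun k => rep_nonneg π (hαpos k))
    (fun k => (norm_rep_le π _).trans (by rw [norm_aut]; exact (hE.norm_one k).le))
    (fun n => (1 / 2 : ℝ) ^ n) hδ
    (fun k m hkm => by
      rw [← map_mul, ← map_mul, ← map_sub, ← map_sub]
      refine (norm_rep_le π _).trans ?_
      rw [norm_aut]
      exact hE.desc k m hkm) v
  -- `η` is nonzero
  have hη0 : η ≠ 0 := by
    intro hzero
    apply hb
    rw [hzero] at hη
    rw [Metric.tendsto_atTop]
    intro ε hε
    have h1 : Tendsto (fun k => ‖π (α (e k)) v‖ + (1 / 2 : ℝ) ^ k * ‖b‖) atTop (𝓝 0) := by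
      have h2 := hη.norm.add (hδ.mul_const ‖b‖)
      simpa using h2
    obtain ⟨k, hk⟩ := (h1.eventually (gt_mem_nhds hε)).exists
    have h3 := hE.tendsto_norm_mul π ξ hφ (b * α (e k))
    have h4 : π (star (b * α (e k))) ξ = π (α (e k)) v := by
      rw [star_mul, hαstar, map_mul]
      rfl
    rw [h4] at h3
    have h5 : ∀ᶠ m in atTop, ‖e m * (b * α (e k))‖ + (1 / 2 : ℝ) ^ k * ‖b‖ < ε :=
      (h3.add_const _).eventually (gt_mem_nhds hk)
    obtain ⟨N, hN⟩ := (h5.and (eventually_gt_atTop k)).exists_forall_of_atTop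
    refine ⟨N, fun m hm => ?_⟩
    rw [dist_zero_right, norm_norm]
    exact (hE.norm_alpha_le α b (hN m hm).2).trans_lt (hN m hm).1
  -- the state at `η`
  have hppη : Tendsto (fun k => π (α (e k)) η) atTop (𝓝 η) := by
    rw [tendsto_iff_norm_sub_tendsto_zero]
    refine squeeze_zero (fun n => norm_nonneg _) hη' ?_
    rw [← zero_mul ‖v‖]
    exact hδ.mul_const _
  have hstate : ∀ c, inner ℂ η (π (α c) η) = φ c * inner ℂ η η := by
    intro c
    have h1 : Tendsto (fun k => inner ℂ (π (α (e k)) η) (π (α c) (π (α (e k)) η))) atTop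
        (𝓝 (inner ℂ η (π (α c) η))) :=
      hppη.inner (((π (α c)).continuous.tendsto η).comp hppη)
    have h2 : Tendsto (fun k => φ c * inner ℂ (π (α (e k)) η) (π (α (e k)) η)) atTop
        (𝓝 (φ c * inner ℂ η η)) := (hppη.inner hppη).const_mul _
    refine sub_eq_zero.1 (tendsto_nhds_unique (h1.sub h2) ?_)
    have h4 := (hE.exc c).mul_const (‖η‖ * ‖η‖)
    rw [zero_mul] at h4
    refine squeeze_zero_norm (fun k => ?_) h4
    have h5 : inner ℂ (π (α (e k)) η) (π (α c) (π (α (e k)) η)) -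
        φ c * inner ℂ (π (α (e k)) η) (π (α (e k)) η) =
        inner ℂ η (π (α (e k * c * e k - φ c • (e k * e k))) η) := by
      rw [rep_inner_left, rep_inner_left, hαstar, map_sub, map_smul, map_sub, map_smul,
        map_mul, map_mul, map_mul, map_mul, map_mul, map_mul, sub_apply, smul_apply,
        inner_sub_right, inner_smul_right]
      rfl
    rw [h5]
    refine (norm_inner_le_norm _ _).trans ?_
    have h6 : ‖π (α (e k * c * e k - φ c • (e k * e k))) η‖ ≤
        ‖e k * c * e k - φ c • (e k * e k)‖ * ‖η‖ := by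
      refine (ContinuousLinearMap.le_opNorm _ _).trans ?_
      gcongr
      refine (norm_rep_le π _).trans ?_
      rw [norm_aut]
    calc ‖η‖ * ‖π (α (e k * c * e k - φ c • (e k * e k))) η‖
        ≤ ‖η‖ * (‖e k * c * e k - φ c • (e k * e k)‖ * ‖η‖) := by gcongr
      _ = _ := by ring
  -- normalise
  have hηn : ‖η‖ ≠ 0 := norm_ne_zero_iff.2 hη0
  set η₁ : H := ((‖η‖⁻¹ : ℝ) : ℂ) • η with hη₁
  have hη₁n : ‖η₁‖ = 1 := by
    rw [hη₁, norm_smul, Complex.norm_real, Real.norm_eq_abs, abs_of_nonneg (by positivity),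
      inv_mul_cancel₀ hηn]
  have hstate₁ : ∀ c, inner ℂ η₁ (π (α c) η₁) = φ c := by
    intro c
    have hin : inner ℂ η η = ((‖η‖ : ℝ) : ℂ) ^ 2 := inner_self_eq_norm_sq_to_K η
    rw [hη₁, map_smul, inner_smul_left, inner_smul_right, hstate, hin, Complex.conj_ofReal]
    have h1 : ((‖η‖ : ℝ) : ℂ) ≠ 0 := by exact_mod_cast hηn
    push_cast
    field_simp
  let E : A →ₗ[ℂ] H :=
    { toFun := fun c => π c ξ
      map_add' := fun c d => by rw [map_add]; rfl
      map_smul' := fun r c => by rw [map_smul]; rfl }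
  let F : A →ₗ[ℂ] H :=
    { toFun := fun c => π (α c) η₁
      map_add' := fun c d => by rw [map_add, map_add]; rfl
      map_smul' := fun r c => by
        have h : π (α (r • c)) = r • π (α c) := by rw [map_smul, map_smul]
        show π (α (r • c)) η₁ = r • π (α c) η₁
        rw [h]
        rfl }
  have hEF : ∀ c, ‖F c‖ = ‖E c‖ := by
    intro c
    have h1 : ‖F c‖ ^ 2 = ‖E c‖ ^ 2 := by
      have h2 : ((‖F c‖ : ℝ) : ℂ) ^ 2 = ((‖E c‖ : ℝ) : ℂ) ^ 2 := by
        have h3 : inner ℂ (F c) (F c) = ((‖F c‖ : ℝ) : ℂ) ^ 2 := inner_self_eq_norm_sq_to_K _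
        have h4 : inner ℂ (E c) (E c) = ((‖E c‖ : ℝ) : ℂ) ^ 2 := inner_self_eq_norm_sq_to_K _
        rw [← h3, ← h4]
        show inner ℂ (π (α c) η₁) (π (α c) η₁) = inner ℂ (π c ξ) (π c ξ)
        rw [rep_inner_left, rep_inner_left, ← map_star]
        have h5 : π (α (star c)) (π (α c) η₁) = π (α (star c * c)) η₁ := by
          rw [map_mul, map_mul]; rfl
        have h6 : π (star c) (π c ξ) = π (star c * c) ξ := by
          rw [map_mul]; rfl
        rw [h5, h6, hstate₁, hφ]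
      exact_mod_cast h2
    exact (sq_eq_sq₀ (norm_nonneg _) (norm_nonneg _)).1 h1
  have hEd : DenseRange E := hd
  have hle : ∀ c, ‖F c‖ ≤ 1 * ‖E c‖ := fun c => by rw [one_mul, hEF]
  let V : H →L[ℂ] H := F.extendOfNorm E
  have hV : ∀ c, V (π c ξ) = π (α c) η₁ := fun c => LinearMap.extendOfNorm_eq hEd ⟨1, hle⟩ c
  have hVnorm : ∀ x, ‖V x‖ = ‖x‖ := by
    intro x
    refine hd.induction_on (p := fun x => ‖V x‖ = ‖x‖) x
      (isClosed_eq V.continuous.norm continuous_norm) fun c => ?_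
    show ‖V (π c ξ)‖ = ‖π c ξ‖
    rw [hV]
    exact hEF c
  have hVπ : ∀ c, V * π c = π (α c) * V := by
    intro c
    ext x
    show V (π c x) = π (α c) (V x)
    refine hd.induction_on (p := fun x => V (π c x) = π (α c) (V x)) x
      (isClosed_eq (V.continuous.comp (π c).continuous) ((π (α c)).continuous.comp V.continuous))
      fun d => ?_
    show V (π c (π d ξ)) = π (α c) (V (π d ξ))
    have h1 : π c (π d ξ) = π (c * d) ξ := by rw [map_mul]; rfl
    rw [h1, hV, hV, map_mul, map_mul]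
    rfl
  have hVV : star V * V = 1 := by
    ext x
    refine ext_inner_left ℂ fun y => ?_
    show inner ℂ y (star V (V x)) = inner ℂ y x
    rw [ContinuousLinearMap.star_eq_adjoint, ContinuousLinearMap.adjoint_inner_right]
    let V' : H →ₗᵢ[ℂ] H := ⟨V.toLinearMap, hVnorm⟩
    exact V'.inner_map_map y x
  have hVπ' : ∀ c, π c * star V = star V * π (α c) := by
    intro c
    have h1 := congrArg star (hVπ (star c))
    rw [star_mul, star_mul, ← map_star, ← map_star, ← map_star, star_star] at h1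
    exact h1
  have hcomm : ∀ c, (V * star V) * π c = π c * (V * star V) := by
    intro c
    obtain ⟨c', rfl⟩ : ∃ c', α c' = c := ⟨α.symm c, α.apply_symm_apply c⟩
    rw [mul_assoc, ← hVπ', ← mul_assoc, hVπ, mul_assoc]
  obtain ⟨z, hz⟩ := schur e π ξ hξ hd hr (V * star V) hcomm
  have hH : (1 : H →L[ℂ] H) ≠ 0 := by
    intro h
    have h1 : ξ = 0 := by
      have := congrArg (fun S : H →L[ℂ] H => S ξ) h
      simpa using this
    rw [h1, norm_zero] at hξ
    exact zero_ne_one hξ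
  have hz1 : z = 1 := by
    have h1 : star V * (V * star V) * V = 1 := by
      rw [← mul_assoc, hVV, one_mul, hVV]
    rw [hz, mul_smul_comm, mul_one, smul_mul_assoc, hVV] at h1
    have h2 : (z - 1) • (1 : H →L[ℂ] H) = 0 := by rw [sub_smul, h1, one_smul, sub_self]
    rcases smul_eq_zero.1 h2 with h3 | h3
    · exact sub_eq_zero.1 h3
    · exact absurd h3 hH
  have hVV' : V * star V = 1 := by rw [hz, hz1, one_smul]
  have hVu : V ∈ unitary (H →L[ℂ] H) := Unitary.mem_iff.2 ⟨hVV, hVV'⟩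
  -- powers
  have hpow : ∀ (k : ℕ) c, V ^ k * π c = π ((α ^ k) c) * V ^ k := by
    intro k
    induction k with
    | zero => intro c; simp
    | succ k ih =>
      intro c
      rw [pow_succ, mul_assoc, hVπ, ← mul_assoc, ih, mul_assoc, ← pow_succ]
      have h1 : (α ^ k) (α c) = (α ^ (k + 1)) c := by
        rw [pow_succ]; rfl
      rw [h1]
  obtain ⟨μ, hμ⟩ := schur e π ξ hξ hd hr (V ^ n) (fun c => by
    rw [hpow, hα]; rfl)
  have hμn : ‖μ‖ = 1 := by
    have h1 : ‖(V ^ n) ξ‖ = ‖ξ‖ := by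
      have h2 : ∀ k : ℕ, ‖(V ^ k) ξ‖ = ‖ξ‖ := by
        intro k
        induction k with
        | zero => simp
        | succ k ih =>
          rw [pow_succ']
          show ‖V ((V ^ k) ξ)‖ = ‖ξ‖
          rw [hVnorm, ih]
      exact h2 n
    rw [hμ] at h1
    have h3 : (μ • (1 : H →L[ℂ] H)) ξ = μ • ξ := rfl
    rw [h3, norm_smul, hξ, mul_one] at h1
    exact h1
  obtain ⟨ν, hν⟩ := IsAlgClosed.exists_pow_nat_eq (μ⁻¹) hn
  have hνn : ‖ν‖ = 1 := by
    have h1 : ‖ν‖ ^ n = 1 := by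
      rw [← norm_pow, hν, norm_inv, hμn, inv_one]
    exact (pow_eq_one_iff_of_nonneg (norm_nonneg _) hn.ne').1 h1
  have hνν : star ν * ν = 1 := by
    have h1 : star ν * ν = ((‖ν‖ : ℝ) : ℂ) ^ 2 := by
      rw [mul_comm]
      exact Complex.mul_conj' ν
    rw [h1, hνn]
    simp
  have hμ0 : μ ≠ 0 := by
    intro h
    rw [h, norm_zero] at hμn
    exact zero_ne_one hμn
  refine ⟨ν • V, ?_, ?_, ?_⟩
  · rw [Unitary.mem_iff]
    constructor
    · rw [star_smul, smul_mul_smul_comm, hνν, hVV, one_smul]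
    · rw [star_smul, smul_mul_smul_comm, mul_comm, hνν, hVV', one_smul]
  · intro c
    rw [smul_mul_assoc, mul_smul_comm, hVπ]
  · rw [smul_pow, hμ, hν, smul_smul, inv_mul_cancel₀ hμ0, one_smul]

theorem ExcSeq.tendsto_norm {e : ℕ → A} {φ : A → ℂ} (hE : ExcSeq e φ)
    (π : A →⋆ₙₐ[ℂ] (H →L[ℂ] H)) (hπ : Function.Injective π) (ξ : H) (hξ : ‖ξ‖ = 1)
    (hd : DenseRange (fun c : A => π c ξ)) (hφ : ∀ c, inner ℂ ξ (π c ξ) = φ c)
    (α : A ≃⋆ₐ[ℂ] A) (U : H →L[ℂ] H) (hU : U ∈ unitary (H →L[ℂ] H))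
    (hUπ : ∀ c, U * π c = π (α c) * U) (b : A) (r : ℝ) (hr : ‖inner ℂ ξ (π b (U ξ))‖ < r) :
    ∀ᶠ n in atTop, ‖e n * b * α (e n)‖ < r := by
  have hδ : Tendsto (fun n : ℕ => (1 / 2 : ℝ) ^ n) atTop (𝓝 0) :=
    tendsto_pow_atTop_nhds_zero_of_lt_one (by norm_num) (by norm_num)
  have hrk := hE.tendsto_rank_one π ξ hξ hd hφ
  have hUU : star U * U = 1 := (Unitary.mem_iff.1 hU).1
  have hUU' : U * star U = 1 := (Unitary.mem_iff.1 hU).2
  have hUnorm : ∀ x, ‖U x‖ = ‖x‖ := by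
    intro x
    have h1 : inner ℂ (U x) (U x) = inner ℂ x x := by
      rw [← ContinuousLinearMap.adjoint_inner_right, ← ContinuousLinearMap.star_eq_adjoint]
      have h2 : star U (U x) = x := by
        have := congrArg (fun S : H →L[ℂ] H => S x) hUU
        exact this
      rw [h2]
    rw [inner_self_eq_norm_sq_to_K, inner_self_eq_norm_sq_to_K] at h1
    have h3 : ‖U x‖ ^ 2 = ‖x‖ ^ 2 := by exact_mod_cast h1
    exact (sq_eq_sq₀ (norm_nonneg _) (norm_nonneg _)).1 h3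
  set v : H := π (star b) ξ with hv
  set w : H := star U v with hw
  have hUw : U w = v := by
    have := congrArg (fun S : H →L[ℂ] H => S v) hUU'
    exact this
  have hαstar : ∀ k, star (α (e k)) = α (e k) := fun k => by
    rw [← map_star, hE.star_eq]
  -- the limit value
  have hlim : Tendsto (fun k => ‖π (α (e k)) v‖) atTop (𝓝 ‖inner ℂ ξ (π b (U ξ))‖) := by
    have h1 := (hrk w).norm
    have h2 : ‖inner ℂ ξ w • ξ‖ = ‖inner ℂ ξ (π b (U ξ))‖ := by
      rw [norm_smul, hξ, mul_one]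
      have h3 : inner ℂ ξ w = inner ℂ (U ξ) v := by
        rw [hw, ContinuousLinearMap.star_eq_adjoint, ContinuousLinearMap.adjoint_inner_right]
      rw [h3, hv, ← rep_inner_left, norm_inner_symm]
    rw [h2] at h1
    refine h1.congr fun k => ?_
    have h4 : π (α (e k)) v = U (π (e k) w) := by
      have := congrArg (fun S : H →L[ℂ] H => S w) (hUπ (e k))
      have h5 : U (π (e k) w) = π (α (e k)) (U w) := this
      rw [h5, hUw]
    rw [h4, hUnorm]
  have h1 : Tendsto (fun k => ‖π (α (e k)) v‖ + (1 / 2 : ℝ) ^ k * ‖b‖) atTop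
      (𝓝 ‖inner ℂ ξ (π b (U ξ))‖) := by
    have h2 := hlim.add (hδ.mul_const ‖b‖)
    simpa using h2
  obtain ⟨k, hk⟩ := (h1.eventually (gt_mem_nhds hr)).exists
  have h3 := hE.tendsto_norm_mul π ξ hφ (b * α (e k))
  have h4 : π (star (b * α (e k))) ξ = π (α (e k)) v := by
    rw [star_mul, hαstar, map_mul]
    rfl
  rw [h4] at h3
  have h5 : ∀ᶠ m in atTop, ‖e m * (b * α (e k))‖ + (1 / 2 : ℝ) ^ k * ‖b‖ < r :=
    (h3.add_const _).eventually (gt_mem_nhds hk)
  filter_upwards [h5, eventually_gt_atTop k] with m hm hkm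
  exact (hE.norm_alpha_le α b hkm).trans_lt hm

end C_GNS

end Pool.Agent.helper23.RK
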