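import Pool.Agent.helper23.RK.BumpX

/-! # Module H of MP_6e2074_an: purely infinite simple algebras (helper75) -/

open Filter Topology
open scoped CStarAlgebra ComplexOrder MultiplierAlgebra

namespace Pool.Agent.helper23.RK

universe u v w

variable {A : Type u} [NonUnitalCStarAlgebra A] [PartialOrder A] [StarOrderedRing A]

omit [PartialOrder A] [StarOrderedRing A] in
theorem pinf_inClosedIdeal_of_ne_zero (hs : IsSimple A) (a b : A) (hb : b ≠ 0) :
    InClosedIdeal a b := by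
  intro I hI hId hbI
  rcases hs.2 I hI hId with h | h
  · exact absurd (by simpa [h] using hbI) hb
  · rw [h]; trivial

omit [StarOrderedRing A] in
theorem pinf_compare (hs : IsSimple A) (hp : IsPurelyInfinite A) (a b : A) (ha : 0 ≤ a) (hb : 0 ≤ b)
    (hb0 : b ≠ 0) (ε : ℝ) (hε : 0 < ε) : ∃ r : A, ‖star r * b * r - a‖ < ε :=
  hp.2 a b ha hb (pinf_inClosedIdeal_of_ne_zero hs a b hb0) ε hε

theorem exists_compare (hs : IsSimple A) (hp : IsPurelyInfinite A) (x : A) (hx : 0 ≤ x)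
    (hn : ‖x‖ = 1) (u : A) (hu : 0 ≤ u) (hu1 : ‖u‖ ≤ 1) (δ : ℝ) (hδ : 0 < δ) :
    ∃ v : A, ‖v‖ ≤ 2 ∧ ‖star v * (x * x) * v - u‖ < δ := by
  set δ' : ℝ := min 1 (δ / 10) with hδ'
  have hδ'0 : 0 < δ' := lt_min one_pos (by positivity)
  have hδ'1 : δ' ≤ 1 := min_le_left _ _
  have hδ'2 : δ' ≤ δ / 10 := min_le_right _ _
  obtain ⟨e₁, e₂, he₁, hn₁, he₂, hn₂, h21, h12, hl, hr⟩ := exists_bump x hx hn δ' hδ'0
  have hsa : star e₁ = e₁ := he₁.isSelfAdjoint
  have hxsa : star x = x := hx.isSelfAdjoint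
  have hb : 0 ≤ e₁ * e₁ := by
    have := star_mul_self_nonneg e₁
    rwa [hsa] at this
  have hb0 : e₁ * e₁ ≠ 0 := by
    intro h0
    have : ‖star e₁ * e₁‖ = 0 := by rw [hsa, h0, norm_zero]
    rw [CStarRing.norm_star_mul_self, hn₁] at this
    norm_num at this
  obtain ⟨r, hr⟩ := pinf_compare hs hp u (e₁ * e₁) hu hb hb0 δ' hδ'0
  set v : A := e₁ * r with hv
  have hvv : star v * v = star r * (e₁ * e₁) * r := by
    rw [hv, star_mul, hsa]; simp only [mul_assoc]
  have h1 : ‖star v * v - u‖ < δ' := by rw [hvv]; exact hr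
  have h2 : ‖v‖ * ‖v‖ ≤ 2 := by
    rw [← CStarRing.norm_star_mul_self]
    have : ‖star v * v‖ ≤ ‖star v * v - u‖ + ‖u‖ := by
      have := norm_add_le (star v * v - u) u
      rwa [sub_add_cancel] at this
    linarith
  have h3 : ‖v‖ ≤ 2 := by nlinarith [norm_nonneg v]
  refine ⟨v, h3, ?_⟩
  have h4 : e₂ * v = v := by rw [hv, ← mul_assoc, h21]
  have h5 : ‖x * v - v‖ ≤ δ' * 2 := (hl v h4).trans (by gcongr)
  have h6 : ‖x * v‖ ≤ 2 := by
    calc ‖x * v‖ ≤ ‖x‖ * ‖v‖ := norm_mul_le _ _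
      _ ≤ 2 := by rw [hn, one_mul]; exact h3
  have h7 : star v * (x * x) * v - u =
      star (x * v - v) * (x * v) + star v * (x * v - v) + (star v * v - u) := by
    have e0 : star (x * v - v) = star v * x - star v := by rw [star_sub, star_mul x v, hxsa]
    rw [e0]
    simp only [mul_sub, sub_mul, mul_assoc]
    abel
  have h8 : ‖star (x * v - v) * (x * v)‖ ≤ (δ' * 2) * 2 := by
    calc _ ≤ ‖star (x * v - v)‖ * ‖x * v‖ := norm_mul_le _ _
      _ ≤ _ := by rw [norm_star]; gcongr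
  have h9 : ‖star v * (x * v - v)‖ ≤ 2 * (δ' * 2) := by
    calc _ ≤ ‖star v‖ * ‖x * v - v‖ := norm_mul_le _ _
      _ ≤ _ := by rw [norm_star]; gcongr
  calc ‖star v * (x * x) * v - u‖ ≤ ‖star (x * v - v) * (x * v)‖ + ‖star v * (x * v - v)‖
        + ‖star v * v - u‖ := by rw [h7]; exact norm_add₃_le
    _ < δ' * 2 * 2 + 2 * (δ' * 2) + δ' := by linarith
    _ ≤ δ := by linarith

/-- In a C*-algebra without two nonzero orthogonal positive elements, positive elements are
comparable up to a scalar. -/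
theorem pinf_exists_smul_eq_of_no_orth
    (h : ∀ a b : A, 0 ≤ a → 0 ≤ b → a * b = 0 → a = 0 ∨ b = 0) (a b : A) (ha : 0 ≤ a)
    (ha0 : a ≠ 0) (hb : 0 ≤ b) : ∃ t : ℝ, b = t • a := by
  -- total order on selfadjoints
  have htot : ∀ x : A, IsSelfAdjoint x → 0 ≤ x ∨ x ≤ 0 := by
    intro x hx
    rcases h (x⁺) (x⁻) (CFC.posPart_nonneg x) (CFC.negPart_nonneg x)
      (CFC.posPart_mul_negPart x) with h1 | h1
    · right
      have := CFC.posPart_sub_negPart x hx
      rw [h1, zero_sub] at this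
      rw [← this]
      exact neg_nonpos.mpr (CFC.negPart_nonneg x)
    · left
      have := CFC.posPart_sub_negPart x hx
      rw [h1, sub_zero] at this
      rw [← this]
      exact CFC.posPart_nonneg x
  have hcomp : ∀ t : ℝ, t • a ≤ b ∨ b ≤ t • a := by
    intro t
    have hsa : IsSelfAdjoint (b - t • a) := by
      refine hb.isSelfAdjoint.sub ?_
      exact IsSelfAdjoint.smul (IsSelfAdjoint.all t) ha.isSelfAdjoint
    rcases htot _ hsa with h1 | h1
    · left; exact sub_nonneg.mp h1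
    · right; exact sub_nonpos.mp h1
  -- sup of the t with t a ≤ b
  set S : Set ℝ := {t | t • a ≤ b} with hS
  have h0S : (0 : ℝ) ∈ S := by simp [hS, hb]
  have hna : 0 < ‖a‖ := norm_pos_iff.mpr ha0
  have hbdd : BddAbove S := by
    refine ⟨‖b‖ / ‖a‖, ?_⟩
    intro t ht
    rcases le_or_gt t 0 with ht0 | ht0
    · exact ht0.trans (by positivity)
    have h1 : 0 ≤ t • a := smul_nonneg ht0.le ha
    have h2 : ‖t • a‖ ≤ ‖b‖ := CStarAlgebra.norm_le_norm_of_nonneg_of_le h1 ht
    rw [norm_smul, Real.norm_eq_abs, abs_of_pos ht0] at h2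
    rw [le_div_iff₀ hna]
    exact h2
  set s := sSup S with hs
  have hcont : Continuous fun t : ℝ => b - t • a := by fun_prop
  have hclosed : IsClosed {x : A | 0 ≤ x} := CStarAlgebra.isClosed_nonneg
  have h1 : s • a ≤ b := by
    have : IsClosed S := by
      have : S = (fun t : ℝ => b - t • a) ⁻¹' {x : A | 0 ≤ x} := by
        ext t; simp [hS, sub_nonneg]
      rw [this]
      exact hclosed.preimage hcont
    exact this.csSup_mem ⟨0, h0S⟩ hbdd
  have h2 : b ≤ s • a := by
    have hcl : IsClosed {t : ℝ | b ≤ t • a} := by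
      have : {t : ℝ | b ≤ t • a} = (fun t : ℝ => t • a - b) ⁻¹' {x : A | 0 ≤ x} := by
        ext t; simp [sub_nonneg]
      rw [this]
      exact hclosed.preimage (by fun_prop)
    have hseq : Tendsto (fun n : ℕ => s + 1 / ((n : ℝ) + 1)) atTop (𝓝 s) := by
      have := tendsto_one_div_add_atTop_nhds_zero_nat (𝕜 := ℝ)
      simpa using this.const_add s
    refine hcl.mem_of_tendsto hseq (Eventually.of_forall fun n => ?_)
    rcases hcomp (s + 1 / ((n : ℝ) + 1)) with h3 | h3
    · exfalso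
      have h4 := le_csSup hbdd h3
      have : (0 : ℝ) < 1 / ((n : ℝ) + 1) := by positivity
      linarith
    · exact h3
  exact ⟨s, le_antisymm h2 h1⟩

theorem pinf_exists_orth_pair (hs : IsSimple A) (hp : IsPurelyInfinite A) :
    ∃ a b : A, 0 ≤ a ∧ 0 ≤ b ∧ ‖a‖ = 1 ∧ ‖b‖ = 1 ∧ a * b = 0 := by
  by_cases h : ∀ a b : A, 0 ≤ a → 0 ≤ b → a * b = 0 → a = 0 ∨ b = 0
  · exfalso
    obtain ⟨x, hx⟩ := hs.1
    set a : A := star x * x with ha
    have ha0 : a ≠ 0 := fun h0 => hx ((CStarRing.star_mul_self_eq_zero_iff x).mp h0)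
    have hapos : 0 ≤ a := star_mul_self_nonneg x
    have haa : 0 ≤ a * a := by
      have := star_mul_self_nonneg a
      rwa [hapos.isSelfAdjoint.star_eq] at this
    obtain ⟨μ, hμ⟩ := pinf_exists_smul_eq_of_no_orth h a (a * a) hapos ha0 haa
    have hμ0 : μ ≠ 0 := by
      intro h0
      rw [h0, zero_smul] at hμ
      apply ha0
      have : star a * a = 0 := by rw [hapos.isSelfAdjoint.star_eq, hμ]
      exact (CStarRing.star_mul_self_eq_zero_iff a).mp this
    -- every element is a complex multiple of `a`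
    have hall : ∀ y : A, ∃ z : ℂ, y = z • a := by
      intro y
      have hy : y ∈ Submodule.span ℂ {a : A | 0 ≤ a} := by
        rw [CStarAlgebra.span_nonneg]; trivial
      have hle : Submodule.span ℂ {a : A | 0 ≤ a} ≤ Submodule.span ℂ {a} := by
        rw [Submodule.span_le]
        intro b hb
        obtain ⟨t, ht⟩ := pinf_exists_smul_eq_of_no_orth h a b hapos ha0 hb
        rw [ht]
        have : t • a = (t : ℂ) • a := (Complex.coe_smul t a).symm
        rw [this]
        exact Submodule.smul_mem _ _ (Submodule.mem_span_singleton_self a)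
      obtain ⟨z, hz⟩ := Submodule.mem_span_singleton.mp (hle hy)
      exact ⟨z, hz.symm⟩
    set p : A := (μ⁻¹ : ℂ) • a with hpdef
    have hμc : (μ : ℂ) ≠ 0 := by exact_mod_cast hμ0
    have haac : a * a = (μ : ℂ) • a := by rw [hμ, Complex.coe_smul]
    have hp0 : p ≠ 0 := by
      rw [hpdef]
      exact smul_ne_zero (inv_ne_zero hμc) ha0
    have hpp : p * p = p := by
      rw [hpdef, smul_mul_smul_comm, haac, smul_smul]
      congr 1
      field_simp
    have hpsa : star p = p := by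
      rw [hpdef, star_smul, hapos.isSelfAdjoint.star_eq]
      congr 1
      rw [← Complex.ofReal_inv]
      simp
    have hall' : ∀ y : A, ∃ z : ℂ, y = z • p := by
      intro y
      obtain ⟨z, hz⟩ := hall y
      refine ⟨z * μ, ?_⟩
      rw [hz, hpdef, smul_smul]
      congr 1
      field_simp
    choose c hc using hall'
    have huniq : ∀ z w : ℂ, z • p = w • p → z = w := fun z w hzw =>
      smul_left_injective ℂ hp0 hzw
    let χ : A →⋆ₙₐ[ℂ] ℂ :=
      { toFun := c
        map_smul' := fun z y => huniq _ _ (by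
          rw [← hc, MonoidHom.id_apply, smul_eq_mul, mul_smul, ← hc])
        map_zero' := huniq _ _ (by rw [← hc, zero_smul])
        map_add' := fun y z => huniq _ _ (by rw [← hc, add_smul, ← hc, ← hc])
        map_mul' := fun y z => huniq _ _ (by
          rw [← hc]
          conv_lhs => rw [hc y, hc z]
          rw [smul_mul_smul_comm, hpp])
        map_star' := fun y => huniq _ _ (by
          rw [← hc]
          conv_lhs => rw [hc y]
          rw [star_smul, hpsa]) }
    have h0 := hp.1 χ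
    have h1 : χ p = 0 := by rw [h0]; rfl
    have h2 : c p = 0 := h1
    have h3 := hc p
    rw [h2, zero_smul] at h3
    exact hp0 h3
  · push Not at h
    obtain ⟨a, b, ha, hb, hab, ha0, hb0⟩ := h
    have hna : ‖a‖ ≠ 0 := norm_ne_zero_iff.mpr ha0
    have hnb : ‖b‖ ≠ 0 := norm_ne_zero_iff.mpr hb0
    refine ⟨‖a‖⁻¹ • a, ‖b‖⁻¹ • b, smul_nonneg (by positivity) ha, smul_nonneg (by positivity) hb,
      ?_, ?_, ?_⟩
    · rw [norm_smul, norm_inv, norm_norm, inv_mul_cancel₀ hna]
    · rw [norm_smul, norm_inv, norm_norm, inv_mul_cancel₀ hnb]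
    · rw [smul_mul_smul_comm, hab, smul_zero]

omit [PartialOrder A] [StarOrderedRing A] in
theorem pinf_cube_ne_zero {a : A} (ha : IsSelfAdjoint a) (ha0 : a ≠ 0) : a * a * a ≠ 0 := by
  intro h
  have h1 : star (a * a) * (a * a) = 0 := by
    rw [star_mul, ha.star_eq]
    have : a * a * (a * a) = (a * a * a) * a := by simp only [mul_assoc]
    rw [this, h, zero_mul]
  have h2 : a * a = 0 := (CStarRing.star_mul_self_eq_zero_iff _).mp h1
  have h3 : star a * a = 0 := by rw [ha.star_eq]; exact h2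
  exact ha0 ((CStarRing.star_mul_self_eq_zero_iff _).mp h3)

/-- If `x ≥ y ≥ 0` then `‖y‖ ^ 2 ≤ ‖x * y‖`. -/
theorem pinf_sq_norm_le_of_le {x y : A} (hy : 0 ≤ y) (hxy : y ≤ x) : ‖y‖ * ‖y‖ ≤ ‖x * y‖ := by
  rcases eq_or_ne y 0 with rfl | hy0
  · simp
  have hysa := hy.isSelfAdjoint.star_eq
  have hny : 0 < ‖y‖ := norm_pos_iff.mpr hy0
  have h1 : y * y * y ≤ y * x * y := by
    have := star_left_conjugate_le_conjugate hxy y
    rwa [hysa] at this
  have h2 : 0 ≤ y * y * y := by
    have := star_left_conjugate_nonneg hy y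
    rwa [hysa] at this
  have h3 : ‖y * y * y‖ ≤ ‖y * x * y‖ := CStarAlgebra.norm_le_norm_of_nonneg_of_le h2 h1
  have h4 : ‖y * x * y‖ ≤ ‖y‖ * ‖x * y‖ := by
    rw [mul_assoc]; exact norm_mul_le _ _
  -- ‖y^3‖ ≥ ‖y‖^3 : ‖y‖^4 = ‖y^4‖ ≤ ‖y^3‖ ‖y‖
  have h5 : ‖y * y‖ = ‖y‖ * ‖y‖ := by
    have := CStarRing.norm_star_mul_self (x := y)
    rwa [hysa] at this
  have h6 : ‖y * y * (y * y)‖ = ‖y * y‖ * ‖y * y‖ := by
    have := CStarRing.norm_star_mul_self (x := y * y)
    rwa [star_mul, hysa] at this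
  have h7 : ‖y * y * (y * y)‖ ≤ ‖y * y * y‖ * ‖y‖ := by
    have : y * y * (y * y) = (y * y * y) * y := by simp only [mul_assoc]
    rw [this]; exact norm_mul_le _ _
  rw [h6, h5] at h7
  have h8 : ‖y‖ * ‖y‖ * ‖y‖ ≤ ‖y * y * y‖ := by
    have : ‖y‖ * ‖y‖ * ‖y‖ * ‖y‖ ≤ ‖y * y * y‖ * ‖y‖ := by
      calc _ = ‖y‖ * ‖y‖ * (‖y‖ * ‖y‖) := by ring
        _ ≤ _ := h7
    exact le_of_mul_le_mul_right this hny
  have h9 : ‖y‖ * ‖y‖ * ‖y‖ ≤ ‖x * y‖ * ‖y‖ := by
    calc _ ≤ ‖y * y * y‖ := h8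
      _ ≤ ‖y * x * y‖ := h3
      _ ≤ ‖y‖ * ‖x * y‖ := h4
      _ = _ := mul_comm _ _
  exact le_of_mul_le_mul_right h9 hny

omit [PartialOrder A] [StarOrderedRing A] in
theorem pinf_conj_aux {p q : A} (hpq : p * q = 0) (hqp : q * p = 0) :
    (p - q) * p * (p - q) = p * p * p ∧ (p - q) * q * (p - q) = q * q * q := by
  constructor
  · rw [sub_mul, hqp, sub_zero, mul_sub, mul_assoc p p q, hpq, mul_zero, sub_zero]
  · rw [sub_mul, hpq, zero_sub, neg_mul, mul_sub, mul_assoc q q p, hqp, mul_zero, zero_sub, neg_neg]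

theorem pinf_split (hs : IsSimple A) (hp : IsPurelyInfinite A) (h : A) (hh : 0 ≤ h) (h0 : h ≠ 0) :
    ∃ c₁ c₂ : A, 0 ≤ h * c₁ * h ∧ h * c₁ * h ≠ 0 ∧ 0 ≤ h * c₂ * h ∧ h * c₂ * h ≠ 0 ∧
      (h * c₁ * h) * (h * c₂ * h) = 0 := by
  obtain ⟨a, b, ha, hb, hna, hnb, hab⟩ := pinf_exists_orth_pair hs hp
  have hasa := ha.isSelfAdjoint.star_eq
  have hbsa := hb.isSelfAdjoint.star_eq
  have hba : b * a = 0 := by
    have := congrArg star hab
    rwa [star_mul, hasa, hbsa, star_zero] at this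
  have hhsa := hh.isSelfAdjoint.star_eq
  have hhh : 0 ≤ h * h := by
    have := star_mul_self_nonneg h
    rwa [hhsa] at this
  have hhh0 : h * h ≠ 0 := by
    intro h1
    have : star h * h = 0 := by rw [hhsa]; exact h1
    exact h0 ((CStarRing.star_mul_self_eq_zero_iff _).mp this)
  obtain ⟨r, hr⟩ := pinf_compare hs hp (a + b) (h * h) (add_nonneg ha hb) hhh hhh0 (1 / 100)
    (by norm_num)
  set v : A := h * r with hv
  have hvv : star v * v = star r * (h * h) * r := by
    rw [hv, star_mul, hhsa]; simp only [mul_assoc]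
  set k : A := star v * v - (a + b) with hk
  have hk1 : ‖k‖ ≤ 1 / 100 := by rw [hk, hvv]; exact hr.le
  have hvk : star v * v = (a + b) + k := by rw [hk]; abel
  have hv3 : ‖v‖ * ‖v‖ ≤ 3 := by
    rw [← CStarRing.norm_star_mul_self, hvk]
    calc ‖a + b + k‖ ≤ ‖a‖ + ‖b‖ + ‖k‖ := norm_add₃_le
      _ ≤ 3 := by rw [hna, hnb]; linarith
  set x : A := v * a * star v with hx
  set y : A := v * b * star v with hy
  have hx0 : 0 ≤ x := by
    have := star_right_conjugate_nonneg ha v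
    exact this
  have hy0 : 0 ≤ y := star_right_conjugate_nonneg hb v
  -- norms
  have key : ∀ q q' : A, 0 ≤ q → ‖q‖ = 1 → q + q' = a + b → q * q' = 0 → q' * q = 0 →
      1 / 4 ≤ ‖v * q * star v‖ := by
    intro q q' hq hnq hqq h1 h2
    have hqsa := hq.isSelfAdjoint.star_eq
    have hq2 : ‖q * q‖ = 1 := by
      have := CStarRing.norm_star_mul_self (x := q)
      rw [hqsa, hnq] at this
      linarith
    have hq4 : ‖q * q * (q * q)‖ = 1 := by
      have := CStarRing.norm_star_mul_self (x := q * q)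
      rw [star_mul, hqsa, hq2] at this
      linarith
    have hq3 : 1 ≤ ‖q * q * q‖ := by
      have : ‖q * q * (q * q)‖ ≤ ‖q * q * q‖ * ‖q‖ := by
        have : q * q * (q * q) = (q * q * q) * q := by simp only [mul_assoc]
        rw [this]; exact norm_mul_le _ _
      rw [hq4, hnq, mul_one] at this
      exact this
    have hcomp : star v * (v * q * star v) * v
        = q * q * q + (k * (q * q) + q * q * k + k * q * k) := by
      have : star v * (v * q * star v) * v = (star v * v) * q * (star v * v) := by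
        simp only [mul_assoc]
      rw [this, hvk, ← hqq]
      have e1 : (q + q' + k) * q = q * q + k * q := by
        rw [add_mul, add_mul, h2]; abel
      rw [e1]
      have e2 : (q * q + k * q) * (q + q' + k) = q * q * q + q * q * q' + q * q * k
          + (k * q * q + k * q * q' + k * q * k) := by
        simp only [add_mul, mul_add]
        abel
      rw [e2]
      have e3 : q * q * q' = 0 := by rw [mul_assoc, h1, mul_zero]
      have e4 : k * q * q' = 0 := by rw [mul_assoc, h1, mul_zero]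
      rw [e3, e4, ← mul_assoc]
      abel
    have hle : ‖star v * (v * q * star v) * v‖ ≤ 3 * ‖v * q * star v‖ := by
      calc _ ≤ ‖star v * (v * q * star v)‖ * ‖v‖ := norm_mul_le _ _
        _ ≤ ‖star v‖ * ‖v * q * star v‖ * ‖v‖ := by gcongr; exact norm_mul_le _ _
        _ = ‖v‖ * ‖v‖ * ‖v * q * star v‖ := by rw [norm_star]; ring
        _ ≤ _ := by gcongr
    have herr : ‖k * (q * q) + q * q * k + k * q * k‖ ≤ 3 / 100 := by
      have e1 : ‖k * (q * q)‖ ≤ 1 / 100 := by
        calc _ ≤ ‖k‖ * ‖q * q‖ := norm_mul_le _ _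
          _ ≤ _ := by rw [hq2, mul_one]; exact hk1
      have e2 : ‖q * q * k‖ ≤ 1 / 100 := by
        calc _ ≤ ‖q * q‖ * ‖k‖ := norm_mul_le _ _
          _ ≤ _ := by rw [hq2, one_mul]; exact hk1
      have e3 : ‖k * q * k‖ ≤ 1 / 100 := by
        calc _ ≤ ‖k * q‖ * ‖k‖ := norm_mul_le _ _
          _ ≤ ‖k‖ * ‖q‖ * ‖k‖ := by gcongr; exact norm_mul_le _ _
          _ ≤ 1 / 100 * 1 * 1 := by
            rw [hnq]
            gcongr
            linarith
          _ = _ := by norm_num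
      calc _ ≤ ‖k * (q * q)‖ + ‖q * q * k‖ + ‖k * q * k‖ := norm_add₃_le
        _ ≤ _ := by linarith
    have : ‖q * q * q‖ ≤ ‖star v * (v * q * star v) * v‖
        + ‖k * (q * q) + q * q * k + k * q * k‖ := by
      have e : q * q * q = star v * (v * q * star v) * v
          - (k * (q * q) + q * q * k + k * q * k) := by rw [hcomp]; abel
      conv_lhs => rw [e]
      exact norm_sub_le _ _
    linarith
  have hnx : 1 / 4 ≤ ‖x‖ := key a b ha hna rfl hab hba
  have hny : 1 / 4 ≤ ‖y‖ := key b a hb hnb (add_comm b a) hba hab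
  have hxy : ‖x * y‖ ≤ 3 / 100 := by
    have e : x * y = v * (a * k * b) * star v := by
      rw [hx, hy]
      have : v * a * star v * (v * b * star v) = v * (a * (star v * v) * b) * star v := by
        simp only [mul_assoc]
      rw [this, hvk]
      congr 2
      have : a * (a + b + k) * b = a * (a * b) + (a * b) * b + a * k * b := by
        simp only [mul_add, add_mul, mul_assoc]
      rw [this, hab, mul_zero, zero_mul, zero_add, zero_add]
    rw [e]
    calc ‖v * (a * k * b) * star v‖ ≤ ‖v * (a * k * b)‖ * ‖star v‖ := norm_mul_le _ _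
      _ ≤ ‖v‖ * ‖a * k * b‖ * ‖star v‖ := by gcongr; exact norm_mul_le _ _
      _ = ‖v‖ * ‖v‖ * ‖a * k * b‖ := by rw [norm_star]; ring
      _ ≤ 3 * (1 / 100) := by
        gcongr
        calc ‖a * k * b‖ ≤ ‖a * k‖ * ‖b‖ := norm_mul_le _ _
          _ ≤ ‖a‖ * ‖k‖ * ‖b‖ := by gcongr; exact norm_mul_le _ _
          _ ≤ 1 / 100 := by rw [hna, hnb]; linarith
      _ = _ := by norm_num
  have hyx : ‖y * x‖ ≤ 3 / 100 := by
    have : ‖y * x‖ = ‖x * y‖ := by
      rw [← norm_star (x * y), star_mul, hx0.isSelfAdjoint.star_eq, hy0.isSelfAdjoint.star_eq]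
    rw [this]; exact hxy
  set d : A := x - y with hd
  have hdsa : IsSelfAdjoint d := hx0.isSelfAdjoint.sub hy0.isSelfAdjoint
  have hdp : d⁺ ≠ 0 := by
    intro h1
    have h2 : d ≤ 0 := (CFC.posPart_eq_zero_iff d hdsa).mp h1
    have h3 : x ≤ y := sub_nonpos.mp h2
    have := pinf_sq_norm_le_of_le hx0 h3
    nlinarith
  have hdm : d⁻ ≠ 0 := by
    intro h1
    have h2 : 0 ≤ d := (CFC.negPart_eq_zero_iff d hdsa).mp h1
    have h3 : y ≤ x := sub_nonneg.mp h2
    have := pinf_sq_norm_le_of_le hy0 h3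
    nlinarith
  have hpm := CFC.posPart_mul_negPart d
  have hmp := CFC.negPart_mul_posPart d
  have hdd := CFC.posPart_sub_negPart d hdsa
  have hpos := CFC.posPart_nonneg d
  have hneg := CFC.negPart_nonneg d
  -- d = h c h
  set c : A := r * a * star r - r * b * star r with hc
  have hdc : d = h * c * h := by
    rw [hd, hx, hy, hc, hv, star_mul, hhsa]
    simp only [mul_sub, sub_mul, mul_assoc]
  have e1 : d * d⁺ * d = d⁺ * d⁺ * d⁺ := by
    have := (pinf_conj_aux hpm hmp).1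
    rwa [hdd] at this
  have e2 : d * d⁻ * d = d⁻ * d⁻ * d⁻ := by
    have := (pinf_conj_aux hpm hmp).2
    rwa [hdd] at this
  have e3 : h * (c * h * d⁺ * h * c) * h = d * d⁺ * d := by
    rw [hdc]
    simp only [mul_assoc]
  have e4 : h * (c * h * d⁻ * h * c) * h = d * d⁻ * d := by
    rw [hdc]
    simp only [mul_assoc]
  refine ⟨c * h * d⁺ * h * c, c * h * d⁻ * h * c, ?_, ?_, ?_, ?_, ?_⟩
  · rw [e3]
    have := star_left_conjugate_nonneg hpos d
    rwa [hdsa.star_eq] at this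
  · rw [e3, e1]; exact pinf_cube_ne_zero hpos.isSelfAdjoint hdp
  · rw [e4]
    have := star_left_conjugate_nonneg hneg d
    rwa [hdsa.star_eq] at this
  · rw [e4, e2]; exact pinf_cube_ne_zero hneg.isSelfAdjoint hdm
  · rw [e3, e4, e1, e2]
    have : d⁺ * d⁺ * d⁺ * (d⁻ * d⁻ * d⁻) = d⁺ * d⁺ * (d⁺ * d⁻) * d⁻ * d⁻ := by
      simp only [mul_assoc]
    rw [this, hpm]
    simp

theorem pinf_split_many (hs : IsSimple A) (hp : IsPurelyInfinite A) (M : ℕ) :
    ∀ h : A, 0 ≤ h → h ≠ 0 → ∃ c : Fin M → A, (∀ i, 0 ≤ h * c i * h ∧ h * c i * h ≠ 0) ∧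
      ∀ i j, i ≠ j → (h * c i * h) * (h * c j * h) = 0 := by
  induction M with
  | zero => intro h _ _; exact ⟨fun i => i.elim0, fun i => i.elim0, fun i => i.elim0⟩
  | succ M ih =>
    intro h hh h0
    obtain ⟨c₁, c₂, hp1, hn1, hp2, hn2, hort⟩ := pinf_split hs hp h hh h0
    set y₁ : A := h * c₁ * h with hy₁
    set y₂ : A := h * c₂ * h with hy₂
    obtain ⟨c, hc, hco⟩ := ih y₂ hp2 hn2
    have hort' : y₂ * y₁ = 0 := by
      have := congrArg star hort
      rwa [star_mul, hp1.isSelfAdjoint.star_eq, hp2.isSelfAdjoint.star_eq, star_zero] at this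
    have e : ∀ i, h * (c₂ * h * c i * h * c₂) * h = y₂ * c i * y₂ := by
      intro i
      rw [hy₂]; simp only [mul_assoc]
    refine ⟨Fin.cons c₁ (fun i => c₂ * h * c i * h * c₂), ?_, ?_⟩
    · intro i
      refine Fin.cases ?_ (fun i => ?_) i
      · rw [Fin.cons_zero]; exact ⟨hp1, hn1⟩
      · rw [Fin.cons_succ, e]; exact hc i
    · intro i j
      refine Fin.cases ?_ (fun i => ?_) i
      · refine Fin.cases ?_ (fun j => ?_) j
        · intro h; exact absurd rfl h
        · intro _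
          rw [Fin.cons_zero, Fin.cons_succ, e, ← hy₁]
          have : y₁ * (y₂ * c j * y₂) = (y₁ * y₂) * c j * y₂ := by simp only [mul_assoc]
          rw [this, hort, zero_mul, zero_mul]
      · refine Fin.cases ?_ (fun j => ?_) j
        · intro _
          rw [Fin.cons_zero, Fin.cons_succ, e, ← hy₁]
          rw [mul_assoc, hort', mul_zero]
        · intro hij
          rw [Fin.cons_succ, Fin.cons_succ, e, e]
          exact hco i j (fun h => hij (by rw [h]))

theorem exists_orthogonal (hs : IsSimple A) (hp : IsPurelyInfinite A) (e : A) (he : 0 ≤ e)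
    (hn : ‖e‖ = 1) (δ : ℝ) (hδ : 0 < δ) (M : ℕ) :
    ∃ x : Fin M → A, (∀ i, 0 ≤ x i ∧ ‖x i‖ = 1 ∧ ‖e * x i - x i‖ < δ) ∧
      ∀ i j, i ≠ j → x i * x j = 0 := by
  obtain ⟨e₁, e₂, he₁, hn₁, he₂, hn₂, h21, h12, hl, hr⟩ :=
    exists_bump e he hn (δ / 2) (by positivity)
  have he0 : e₁ ≠ 0 := by
    intro h; rw [h, norm_zero] at hn₁; norm_num at hn₁
  obtain ⟨c, hc, hco⟩ := pinf_split_many hs hp M e₁ he₁ he0
  refine ⟨fun i => ‖e₁ * c i * e₁‖⁻¹ • (e₁ * c i * e₁), ?_, ?_⟩
  · intro i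
    have hne : ‖e₁ * c i * e₁‖ ≠ 0 := norm_ne_zero_iff.mpr (hc i).2
    have hn1 : ‖‖e₁ * c i * e₁‖⁻¹ • (e₁ * c i * e₁)‖ = 1 := by
      rw [norm_smul, norm_inv, norm_norm, inv_mul_cancel₀ hne]
    refine ⟨smul_nonneg (by positivity) (hc i).1, hn1, ?_⟩
    have h1 := hl (‖e₁ * c i * e₁‖⁻¹ • (e₁ * c i * e₁)) (by
      rw [mul_smul_comm, ← mul_assoc, ← mul_assoc, h21])
    rw [hn1, mul_one] at h1
    linarith
  · intro i j hij
    simp only
    rw [smul_mul_smul_comm, hco i j hij, smul_zero]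

end Pool.Agent.helper23.RK
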