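import Pool.Agent.helper23.RK.Nuc
import Pool.Agent.helper23.RK.Gns
import Pool.Agent.helper23.RK.Pinf

/-!
# Existence of the element `s` (module I of MP_6e2074_an)
-/

open Filter Topology
open scoped CStarAlgebra ComplexOrder MultiplierAlgebra

namespace Pool.Agent.helper23.RK

universe u v w


section I_S

variable {A : Type u} [NonUnitalCStarAlgebra A] [PartialOrder A] [StarOrderedRing A]

omit [PartialOrder A] [StarOrderedRing A] in
lemma starAut_norm (β : A ≃⋆ₐ[ℂ] A) (a : A) : ‖β a‖ = ‖a‖ :=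
  NonUnitalStarAlgHom.norm_map β (EquivLike.injective β) a

omit [PartialOrder A] [StarOrderedRing A] in
lemma sandwich_err (x x' f f' X : A) (η : ℝ) (hx : ‖x‖ ≤ 1) (hx' : ‖x'‖ ≤ 1) (hf : ‖f‖ ≤ 1)
    (h1 : ‖x * f - x‖ ≤ η) (h2 : ‖f' * x' - x'‖ ≤ η) :
    ‖x * X * x' - x * (f * X * f') * x'‖ ≤ 2 * η * ‖X‖ := by
  have hη : 0 ≤ η := (norm_nonneg _).trans h1
  have e : x * X * x' - x * (f * X * f') * x'
      = -((x * f - x) * X * x') - x * f * X * (f' * x' - x') := by
    noncomm_ring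
  rw [e]
  have b1 : ‖(x * f - x) * X * x'‖ ≤ η * ‖X‖ := by
    calc ‖(x * f - x) * X * x'‖ ≤ ‖(x * f - x) * X‖ * ‖x'‖ := norm_mul_le _ _
      _ ≤ (‖x * f - x‖ * ‖X‖) * 1 := by gcongr; exact norm_mul_le _ _
      _ ≤ η * ‖X‖ := by rw [mul_one]; gcongr
  have b2 : ‖x * f * X * (f' * x' - x')‖ ≤ η * ‖X‖ := by
    calc ‖x * f * X * (f' * x' - x')‖ ≤ ‖x * f * X‖ * ‖f' * x' - x'‖ := norm_mul_le _ _
      _ ≤ (‖x * f‖ * ‖X‖) * η := by gcongr; exact norm_mul_le _ _
      _ ≤ ((‖x‖ * ‖f‖) * ‖X‖) * η := by gcongr; exact norm_mul_le _ _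
      _ ≤ ((1 * 1) * ‖X‖) * η := by gcongr
      _ = η * ‖X‖ := by ring
  calc _ ≤ ‖-((x * f - x) * X * x')‖ + ‖x * f * X * (f' * x' - x')‖ := norm_sub_le _ _
    _ ≤ η * ‖X‖ + η * ‖X‖ := by rw [norm_neg]; exact add_le_add b1 b2
    _ = _ := by ring

omit [PartialOrder A] [StarOrderedRing A] in
lemma sandwich_err2 (x x' f X : A) (z : ℂ) (η : ℝ) (hx : ‖x‖ ≤ 1) (hx' : ‖x'‖ ≤ 1)
    (hf : ‖f‖ ≤ 1) (h1 : ‖x * f - x‖ ≤ η) (h2 : ‖f * x' - x'‖ ≤ η) :
    ‖x * X * x' - z • (x * x')‖ ≤ 2 * η * ‖X‖ + ‖f * X * f - z • (f * f)‖ + 2 * η * ‖z‖ := by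
  have hη : 0 ≤ η := (norm_nonneg _).trans h1
  have e : x * X * x' - z • (x * x') = (x * X * x' - x * (f * X * f) * x')
      + x * (f * X * f - z • (f * f)) * x'
      + z • (x * f * (f * x' - x') + (x * f - x) * x') := by
    simp only [mul_sub, sub_mul, mul_smul_comm, smul_mul_assoc, smul_add, smul_sub, mul_assoc]
    abel
  have b1 := sandwich_err x x' f f X η hx hx' hf h1 h2
  have b2 : ‖x * (f * X * f - z • (f * f)) * x'‖ ≤ ‖f * X * f - z • (f * f)‖ := by
    calc _ ≤ ‖x * (f * X * f - z • (f * f))‖ * ‖x'‖ := norm_mul_le _ _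
      _ ≤ (‖x‖ * ‖f * X * f - z • (f * f)‖) * 1 := by gcongr; exact norm_mul_le _ _
      _ ≤ (1 * ‖f * X * f - z • (f * f)‖) * 1 := by gcongr
      _ = _ := by ring
  have b3 : ‖z • (x * f * (f * x' - x') + (x * f - x) * x')‖ ≤ 2 * η * ‖z‖ := by
    rw [norm_smul]
    have c1 : ‖x * f * (f * x' - x')‖ ≤ η := by
      calc _ ≤ ‖x * f‖ * ‖f * x' - x'‖ := norm_mul_le _ _
        _ ≤ (‖x‖ * ‖f‖) * η := by gcongr; exact norm_mul_le _ _
        _ ≤ (1 * 1) * η := by gcongr
        _ = η := by ring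
    have c2 : ‖(x * f - x) * x'‖ ≤ η := by
      calc _ ≤ ‖x * f - x‖ * ‖x'‖ := norm_mul_le _ _
        _ ≤ η * 1 := by gcongr
        _ = η := by ring
    calc _ ≤ ‖z‖ * (η + η) := by
          gcongr
          exact (norm_add_le _ _).trans (add_le_add c1 c2)
      _ = _ := by ring
  rw [e]
  exact (norm_add₃_le).trans (add_le_add_three b1 b2 b3)

/-- The sequences `w` used to build `s`. -/
lemma exists_w (hs : IsSimple A) (hp : IsPurelyInfinite A) {G : Type v} [Group G]
    (α : G →* (A ≃⋆ₐ[ℂ] A)) (f : ℕ → A) (φ : A → ℂ) (hE : ExcSeq f φ)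
    (hout : ∀ g, g ≠ 1 → ∀ b, Tendsto (fun n => ‖f n * b * α g (f n)‖) atTop (𝓝 0))
    (u : A) (hu : 0 ≤ u) (hu1 : ‖u‖ ≤ 1) (ι : Type w) [Fintype ι] [DecidableEq ι] :
    ∃ y : ℕ → ι → A,
      (∀ X m m', Tendsto (fun N => star (y N m) * X * y N m') atTop
        (𝓝 (if m = m' then φ X • u else 0))) ∧
      ∀ g, g ≠ 1 → ∀ X m m', Tendsto (fun N => star (y N m) * X * α g (y N m')) atTop (𝓝 0) := by
  have hη : ∀ N : ℕ, (0 : ℝ) < 1 / ((N : ℝ) + 1) := fun N => by positivity
  choose x0 hx0 hx0o using fun N : ℕ => exists_orthogonal hs hp (f N) (hE.nonneg N)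
    (hE.norm_one N) (1 / ((N : ℝ) + 1)) (hη N) (Fintype.card ι)
  let x : ℕ → ι → A := fun N m => x0 N (Fintype.equivFin ι m)
  have hx : ∀ N m, 0 ≤ x N m ∧ ‖x N m‖ = 1 ∧ ‖f N * x N m - x N m‖ < 1 / ((N : ℝ) + 1) :=
    fun N m => hx0 N _
  have hxo : ∀ N m m', m ≠ m' → x N m * x N m' = 0 := fun N m m' h =>
    hx0o N _ _ (fun h' => h ((Fintype.equivFin ι).injective h'))
  choose v hv2 hvu using fun (N : ℕ) (m : ι) => exists_compare hs hp (x N m) (hx N m).1
    (hx N m).2.1 u hu hu1 (1 / ((N : ℝ) + 1)) (hη N)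
  have hxs : ∀ N m, star (x N m) = x N m := fun N m => (hx N m).1.star_eq
  have hfs : ∀ N, star (f N) = f N := fun N => (hE.nonneg N).star_eq
  have hxf : ∀ N m, ‖x N m * f N - x N m‖ ≤ 1 / ((N : ℝ) + 1) := by
    intro N m
    have h1 : star (f N * x N m - x N m) = x N m * f N - x N m := by
      rw [star_sub, star_mul, hxs, hfs]
    rw [← h1, norm_star]
    exact (hx N m).2.2.le
  have hlim : Tendsto (fun N : ℕ => 1 / ((N : ℝ) + 1)) atTop (𝓝 0) :=
    tendsto_one_div_add_atTop_nhds_zero_nat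
  -- first estimate
  have hA : ∀ X m m', Tendsto (fun N => x N m * X * x N m' - φ X • (x N m * x N m')) atTop
      (𝓝 0) := by
    intro X m m'
    refine squeeze_zero_norm (fun N => sandwich_err2 (x N m) (x N m') (f N) X (φ X) _
      (hx N m).2.1.le (hx N m').2.1.le (hE.norm_one N).le (hxf N m) (hx N m').2.2.le) ?_
    have h1 := ((hlim.const_mul 2).mul_const ‖X‖).add (hE.exc X)
    have h2 := h1.add ((hlim.const_mul 2).mul_const ‖φ X‖)
    simpa using h2
  have hB : ∀ g, g ≠ 1 → ∀ X m m', Tendsto (fun N => x N m * X * α g (x N m')) atTop (𝓝 0) := by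
    intro g hg X m m'
    have h0 : ∀ N, ‖x N m * X * α g (x N m')‖
        ≤ 2 * (1 / ((N : ℝ) + 1)) * ‖X‖ + ‖f N * X * α g (f N)‖ := by
      intro N
      have h1 := sandwich_err (x N m) (α g (x N m')) (f N) (α g (f N)) X _ (hx N m).2.1.le
        ((starAut_norm (α g) _).le.trans (hx N m').2.1.le) (hE.norm_one N).le (hxf N m)
        (by rw [← map_mul, ← map_sub, starAut_norm]; exact (hx N m').2.2.le)
      have h2 : ‖x N m * (f N * X * α g (f N)) * α g (x N m')‖ ≤ ‖f N * X * α g (f N)‖ := by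
        calc _ ≤ ‖x N m * (f N * X * α g (f N))‖ * ‖α g (x N m')‖ := norm_mul_le _ _
          _ ≤ (‖x N m‖ * ‖f N * X * α g (f N)‖) * ‖α g (x N m')‖ := by
              gcongr; exact norm_mul_le _ _
          _ = _ := by rw [starAut_norm, (hx N m).2.1, (hx N m').2.1, one_mul, mul_one]
      calc ‖x N m * X * α g (x N m')‖
          = ‖(x N m * X * α g (x N m') - x N m * (f N * X * α g (f N)) * α g (x N m'))
            + x N m * (f N * X * α g (f N)) * α g (x N m')‖ := by rw [sub_add_cancel]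
        _ ≤ _ := (norm_add_le _ _).trans (add_le_add h1 h2)
    refine squeeze_zero_norm h0 ?_
    have h1 := ((hlim.const_mul 2).mul_const ‖X‖).add (hout g hg X)
    simpa using h1
  -- bounded times null
  have hbd : ∀ (a c : ℕ → A) (b : ℕ → A), (∀ N, ‖a N‖ ≤ 2) → (∀ N, ‖c N‖ ≤ 2) →
      Tendsto b atTop (𝓝 0) → Tendsto (fun N => a N * b N * c N) atTop (𝓝 0) := by
    intro a c b ha hc hb
    refine squeeze_zero_norm (a := fun N => 2 * ‖b N‖ * 2) (fun N => ?_) ?_
    · calc ‖a N * b N * c N‖ ≤ ‖a N * b N‖ * ‖c N‖ := norm_mul_le _ _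
        _ ≤ (‖a N‖ * ‖b N‖) * ‖c N‖ := by gcongr; exact norm_mul_le _ _
        _ ≤ (2 * ‖b N‖) * 2 := by
            gcongr
            · exact ha N
            · exact hc N
    · have := ((tendsto_zero_iff_norm_tendsto_zero.mp hb).const_mul 2).mul_const 2
      simpa using this
  refine ⟨fun N m => x N m * v N m, ?_, ?_⟩
  · intro X m m'
    have h1 := hbd (fun N => star (v N m)) (fun N => v N m') _
      (fun N => by rw [norm_star]; exact hv2 N m) (fun N => hv2 N m') (hA X m m')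
    by_cases h : m = m'
    · subst h
      rw [if_pos rfl]
      have h2 : Tendsto (fun N => star (v N m) * (x N m * x N m) * v N m) atTop (𝓝 u) := by
        rw [tendsto_iff_norm_sub_tendsto_zero]
        refine squeeze_zero (fun _ => norm_nonneg _) (fun N => (hvu N m).le) hlim
      have h3 := h1.add (h2.const_smul (φ X))
      rw [zero_add] at h3
      refine h3.congr fun N => ?_
      simp only [star_mul, hxs, mul_sub, sub_mul, mul_smul_comm, smul_mul_assoc, mul_assoc,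
        sub_add_cancel]
    · rw [if_neg h]
      refine h1.congr fun N => ?_
      simp only [star_mul, hxs, hxo N m m' h, smul_zero, sub_zero, mul_assoc]
  · intro g hg X m m'
    have h1 := hbd (fun N => star (v N m)) (fun N => α g (v N m')) _
      (fun N => by rw [norm_star]; exact hv2 N m)
      (fun N => by rw [starAut_norm]; exact hv2 N m') (hB g hg X m m')
    refine h1.congr fun N => ?_
    simp only [star_mul, hxs, map_mul, mul_assoc]

theorem exists_s (hs : IsSimple A) (hn : IsNuclear A)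
    (hp : IsPurelyInfinite A) {G : Type v} [Group G] [Finite G] (α : G →* (A ≃⋆ₐ[ℂ] A))
    (f : ℕ → A) (φ : A → ℂ) (hE : ExcSeq f φ)
    (hout : ∀ g, g ≠ 1 → ∀ b, Tendsto (fun n => ‖f n * b * α g (f n)‖) atTop (𝓝 0))
    (F : Finset A) (ε : ℝ) (hε : 0 < ε) :
    ∃ s : A, ‖s‖ ≤ 1 ∧ (∀ a ∈ F, ‖star s * a * s - a‖ < ε) ∧
      ∀ a ∈ F, ∀ g, g ≠ 1 → ‖star s * a * α g s‖ < ε := by
  classical
  obtain ⟨Φ, hΦ, hΦ0⟩ := hE.exists_posLin
  let K : ℝ := ∑ a ∈ F, ‖a‖
  have hK : ∀ a ∈ F, ‖a‖ ≤ K := fun a ha =>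
    Finset.single_le_sum (f := fun a => ‖a‖) (fun _ _ => norm_nonneg _) ha
  have hK0 : 0 ≤ K := Finset.sum_nonneg fun _ _ => norm_nonneg _
  let ε₁ : ℝ := ε / (4 * (K + 1))
  have hε₁ : 0 < ε₁ := by positivity
  have hε₁K : ε₁ * (K + 1) = ε / 4 := by
    simp only [ε₁]
    field_simp
  have hau := CStarAlgebra.increasingApproximateUnit A
  -- the approximate unit element `h`
  obtain ⟨h, hh0, hh1, hha⟩ : ∃ h : A, 0 ≤ h ∧ ‖h‖ ≤ 1 ∧ ∀ a ∈ F, ‖h * a * h - a‖ < ε / 2 := by
    have h1 : ∀ a ∈ F, ∀ᶠ h in CStarAlgebra.approximateUnit A, ‖h * a * h - a‖ < ε / 2 := by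
      intro a _
      have hl : ∀ᶠ h in CStarAlgebra.approximateUnit A, ‖a * h - a‖ < ε / 4 := by
        have h1 := hau.tendsto_mul_left a
        rw [tendsto_iff_norm_sub_tendsto_zero] at h1
        exact h1.eventually_lt_const (by positivity)
      have hr : ∀ᶠ h in CStarAlgebra.approximateUnit A, ‖h * a - a‖ < ε / 4 := by
        have h1 := hau.tendsto_mul_right a
        rw [tendsto_iff_norm_sub_tendsto_zero] at h1
        exact h1.eventually_lt_const (by positivity)
      filter_upwards [hl, hr, hau.eventually_norm] with h h1 h2 h3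
      calc ‖h * a * h - a‖ = ‖(h * a - a) * h + (a * h - a)‖ := by
            congr 1
            noncomm_ring
        _ ≤ ‖(h * a - a) * h‖ + ‖a * h - a‖ := norm_add_le _ _
        _ ≤ ‖h * a - a‖ * ‖h‖ + ‖a * h - a‖ := by gcongr; exact norm_mul_le _ _
        _ ≤ ‖h * a - a‖ * 1 + ‖a * h - a‖ := by gcongr
        _ < ε / 2 := by linarith
    have h2 := (Filter.eventually_all_finset F).mpr h1
    obtain ⟨h, h3, h4, h5⟩ := (h2.and (hau.eventually_nonneg.and hau.eventually_norm)).exists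
    exact ⟨h, h4, h5, h3⟩
  have hhs : star h = h := hh0.star_eq
  let F' : Finset A := insert (h * h) (F.image fun a => h * a * h)
  obtain ⟨k, P, L, c, b, hcb⟩ := nuclear_approx hs hn Φ hΦ0 F' ε₁ hε₁
  let Lim : A → A → A := fun u X => ∑ l, ∑ i, ∑ j,
    (∑ p, φ (star (c p i) * X * c p j)) • (star (b l i) * (u * b l j))
  obtain ⟨u, hu0, hu1, huL⟩ : ∃ u : A, 0 ≤ u ∧ ‖u‖ ≤ 1 ∧ ∀ a ∈ F', ‖Lim u a - a‖ < ε₁ := by
    have h1 : ∀ a ∈ F', ∀ᶠ u in CStarAlgebra.approximateUnit A, ‖Lim u a - a‖ < ε₁ := by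
      intro a ha
      have h2 : Tendsto (fun u => Lim u a) (CStarAlgebra.approximateUnit A)
          (𝓝 (∑ l, ∑ i, ∑ j, (∑ p, Φ (star (c p i) * a * c p j)) • (star (b l i) * b l j))) := by
        refine tendsto_finsetSum _ fun l _ => tendsto_finsetSum _ fun i _ =>
          tendsto_finsetSum _ fun j _ => ?_
        simp only [hΦ]
        exact ((hau.tendsto_mul_right (b l j)).const_mul (star (b l i))).const_smul _
      exact (h2.sub_const a).norm.eventually_lt_const (hcb a ha)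
    have h2 := (Filter.eventually_all_finset F').mpr h1
    obtain ⟨u, h3, h4, h5⟩ := (h2.and (hau.eventually_nonneg.and hau.eventually_norm)).exists
    exact ⟨u, h4, h5, h3⟩
  obtain ⟨y, hy1, hy2⟩ := exists_w hs hp α f φ hE hout u hu0 hu1 (Fin P × Fin L)
  let s₀ : ℕ → A := fun N => ∑ t : (Fin P × Fin L) × Fin k,
    c t.1.1 t.2 * y N t.1 * b t.1.2 t.2
  have hS1 : ∀ X, Tendsto (fun N => star (s₀ N) * X * s₀ N) atTop (𝓝 (Lim u X)) := by
    intro X
    have h1 : Tendsto (fun N => ∑ t : (Fin P × Fin L) × Fin k, ∑ t' : (Fin P × Fin L) × Fin k,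
        star (b t.1.2 t.2) * (star (y N t.1) * (star (c t.1.1 t.2) * X * c t'.1.1 t'.2)
          * y N t'.1) * b t'.1.2 t'.2) atTop
        (𝓝 (∑ t : (Fin P × Fin L) × Fin k, ∑ t' : (Fin P × Fin L) × Fin k,
        star (b t.1.2 t.2) * (if t.1 = t'.1 then φ (star (c t.1.1 t.2) * X * c t'.1.1 t'.2) • u
          else 0) * b t'.1.2 t'.2)) := by
      refine tendsto_finsetSum _ fun t _ => tendsto_finsetSum _ fun t' _ => ?_
      exact ((hy1 _ t.1 t'.1).const_mul _).mul_const _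
    have h2 : (∑ t : (Fin P × Fin L) × Fin k, ∑ t' : (Fin P × Fin L) × Fin k,
        star (b t.1.2 t.2) * (if t.1 = t'.1 then φ (star (c t.1.1 t.2) * X * c t'.1.1 t'.2) • u
          else 0) * b t'.1.2 t'.2) = Lim u X := by
      have h3 : ∀ (m : Fin P × Fin L) (i : Fin k), (∑ t' : (Fin P × Fin L) × Fin k,
          star (b m.2 i) * (if m = t'.1 then φ (star (c m.1 i) * X * c t'.1.1 t'.2) • u
          else 0) * b t'.1.2 t'.2)
          = ∑ j, φ (star (c m.1 i) * X * c m.1 j) • (star (b m.2 i) * (u * b m.2 j)) := by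
        intro m i
        rw [Fintype.sum_prod_type, Finset.sum_eq_single m]
        · refine Finset.sum_congr rfl fun j _ => ?_
          rw [if_pos rfl, mul_smul_comm, smul_mul_assoc, mul_assoc (star (b m.2 i)) u _]
        · intro m' _ hne
          refine Finset.sum_eq_zero fun j _ => ?_
          rw [if_neg (Ne.symm hne), mul_zero, zero_mul]
        · intro hnot
          exact absurd (Finset.mem_univ _) hnot
      rw [Fintype.sum_prod_type]
      simp only [h3]
      rw [Fintype.sum_prod_type, Finset.sum_comm]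
      refine Finset.sum_congr rfl fun l _ => ?_
      rw [Finset.sum_comm]
      refine Finset.sum_congr rfl fun i _ => ?_
      rw [Finset.sum_comm]
      refine Finset.sum_congr rfl fun j _ => ?_
      rw [Finset.sum_smul]
    rw [h2] at h1
    refine h1.congr fun N => ?_
    simp only [s₀, star_sum]
    rw [Finset.sum_mul, Finset.sum_mul]
    refine Finset.sum_congr rfl fun t _ => ?_
    rw [Finset.mul_sum]
    refine Finset.sum_congr rfl fun t' _ => ?_
    simp only [star_mul, mul_assoc]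
  have hS2 : ∀ g, g ≠ 1 → ∀ X, Tendsto (fun N => star (s₀ N) * X * α g (s₀ N)) atTop (𝓝 0) := by
    intro g hg X
    have h1 : Tendsto (fun N => ∑ t : (Fin P × Fin L) × Fin k, ∑ t' : (Fin P × Fin L) × Fin k,
        star (b t.1.2 t.2) * (star (y N t.1) * (star (c t.1.1 t.2) * X * α g (c t'.1.1 t'.2))
          * α g (y N t'.1)) * α g (b t'.1.2 t'.2)) atTop
        (𝓝 (∑ t : (Fin P × Fin L) × Fin k, ∑ t' : (Fin P × Fin L) × Fin k,
        star (b t.1.2 t.2) * 0 * α g (b t'.1.2 t'.2))) := by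
      refine tendsto_finsetSum _ fun t _ => tendsto_finsetSum _ fun t' _ => ?_
      exact ((hy2 g hg _ t.1 t'.1).const_mul _).mul_const _
    simp only [mul_zero, zero_mul, Finset.sum_const_zero] at h1
    refine h1.congr fun N => ?_
    simp only [s₀, star_sum, map_sum]
    rw [Finset.sum_mul, Finset.sum_mul]
    refine Finset.sum_congr rfl fun t _ => ?_
    rw [Finset.mul_sum]
    refine Finset.sum_congr rfl fun t' _ => ?_
    simp only [star_mul, map_mul, mul_assoc]
  have hev1 : ∀ᶠ N in atTop, ∀ a ∈ F', ‖star (s₀ N) * a * s₀ N - a‖ < ε₁ :=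
    (Filter.eventually_all_finset F').mpr fun a ha =>
      ((hS1 a).sub_const a).norm.eventually_lt_const (huL a ha)
  have hev2 : ∀ᶠ N in atTop, ∀ a ∈ F, ∀ g, g ≠ 1 →
      ‖star (s₀ N) * (h * a * α g h) * α g (s₀ N)‖ < ε₁ := by
    refine (Filter.eventually_all_finset F).mpr fun a ha => Filter.eventually_all.mpr fun g => ?_
    by_cases hg : g = 1
    · exact Filter.Eventually.of_forall fun N hg' => absurd hg hg'
    · have h1 := (hS2 g hg (h * a * α g h)).norm
      rw [norm_zero] at h1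
      exact (h1.eventually_lt_const hε₁).mono fun N hN _ => hN
  obtain ⟨N, hN1, hN2⟩ := (hev1.and hev2).exists
  let s₁ : A := h * s₀ N
  have e1 : ∀ a, star s₁ * a * s₁ = star (s₀ N) * (h * a * h) * s₀ N := by
    intro a
    simp only [s₁, star_mul, hhs, mul_assoc]
  have e2 : ∀ a g, star s₁ * a * α g s₁ = star (s₀ N) * (h * a * α g h) * α g (s₀ N) := by
    intro a g
    simp only [s₁, star_mul, hhs, map_mul, mul_assoc]
  have hs1 : ‖s₁‖ ^ 2 ≤ 1 + ε₁ := by
    have h1 : ‖star s₁ * s₁‖ = ‖s₁‖ ^ 2 := by rw [CStarRing.norm_star_mul_self, sq]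
    have h2 : star s₁ * s₁ = (star (s₀ N) * (h * h) * s₀ N - h * h) + h * h := by
      simp only [s₁, star_mul, hhs, mul_assoc, sub_add_cancel]
    rw [← h1, h2]
    refine (norm_add_le _ _).trans ?_
    have h3 := (hN1 (h * h) (Finset.mem_insert_self _ _)).le
    have h4 : ‖h * h‖ ≤ 1 := by
      refine (norm_mul_le _ _).trans ?_
      nlinarith [norm_nonneg h]
    linarith
  let r : ℝ := (1 + ε₁)⁻¹
  have hr0 : 0 ≤ r := by positivity
  have hr1 : r ≤ 1 := by
    simp only [r]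
    exact inv_le_one_of_one_le₀ (by linarith)
  have hr2 : 1 - r ≤ ε₁ := by
    have : 1 - r = ε₁ * r := by
      simp only [r]
      field_simp
      ring
    rw [this]
    nlinarith
  have hrr : ((Real.sqrt r : ℝ) : ℂ) * ((Real.sqrt r : ℝ) : ℂ) = (r : ℂ) := by
    rw [← Complex.ofReal_mul, Real.mul_self_sqrt hr0]
  refine ⟨((Real.sqrt r : ℝ) : ℂ) • s₁, ?_, ?_, ?_⟩
  · have h1 : ‖((Real.sqrt r : ℝ) : ℂ) • s₁‖ ^ 2 ≤ 1 := by
      rw [norm_smul, mul_pow, Complex.norm_real, Real.norm_eq_abs, sq_abs, Real.sq_sqrt hr0]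
      calc r * ‖s₁‖ ^ 2 ≤ r * (1 + ε₁) := by gcongr
        _ = 1 := inv_mul_cancel₀ (by positivity)
    exact (sq_le_one_iff₀ (norm_nonneg _)).mp h1
  · intro a ha
    have h1 : star (((Real.sqrt r : ℝ) : ℂ) • s₁) * a * (((Real.sqrt r : ℝ) : ℂ) • s₁)
        = (r : ℂ) • (star s₁ * a * s₁) := by
      simp only [star_smul, Complex.star_def, Complex.conj_ofReal, smul_mul_assoc,
        mul_smul_comm, smul_smul, hrr]
    have h2 : (r : ℂ) • (star s₁ * a * s₁) - a
        = (r : ℂ) • ((star (s₀ N) * (h * a * h) * s₀ N - h * a * h) + (h * a * h - a))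
          - ((1 - r : ℝ) : ℂ) • a := by
      rw [e1]
      simp only [smul_add, smul_sub, Complex.ofReal_sub, Complex.ofReal_one, sub_smul, one_smul]
      abel
    rw [h1, h2]
    have hm : h * a * h ∈ F' :=
      Finset.mem_insert_of_mem (Finset.mem_image_of_mem (fun a => h * a * h) ha)
    have h3 := hN1 _ hm
    have h4 := hha a ha
    have h5 := hK a ha
    calc _ ≤ ‖(r : ℂ) • ((star (s₀ N) * (h * a * h) * s₀ N - h * a * h) + (h * a * h - a))‖
          + ‖((1 - r : ℝ) : ℂ) • a‖ := norm_sub_le _ _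
      _ ≤ 1 * (ε₁ + ε / 2) + ε₁ * K := by
          rw [norm_smul, norm_smul, Complex.norm_real, Complex.norm_real, Real.norm_eq_abs,
            Real.norm_eq_abs, abs_of_nonneg hr0, abs_of_nonneg (by linarith)]
          gcongr
          exact (norm_add_le _ _).trans (add_le_add h3.le h4.le)
      _ = ε₁ * (K + 1) + ε / 2 := by ring
      _ < ε := by rw [hε₁K]; linarith
  · intro a ha g hg
    have h1 : star (((Real.sqrt r : ℝ) : ℂ) • s₁) * a * α g (((Real.sqrt r : ℝ) : ℂ) • s₁)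
        = (r : ℂ) • (star s₁ * a * α g s₁) := by
      simp only [map_smul, star_smul, Complex.star_def, Complex.conj_ofReal, smul_mul_assoc,
        mul_smul_comm, smul_smul, hrr]
    rw [h1, e2, norm_smul, Complex.norm_real, Real.norm_eq_abs, abs_of_nonneg hr0]
    have h3 := hN2 a ha g hg
    have h4 : ε₁ ≤ ε / 4 := by rw [← hε₁K]; nlinarith
    calc _ ≤ 1 * ‖star (s₀ N) * (h * a * α g h) * α g (s₀ N)‖ := by gcongr
      _ < ε := by rw [one_mul]; linarith

end I_S

end Pool.Agent.helper23.RK
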