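import Mathlib

/-!
# Towers in a unital star algebra with a finite group action (MODULE J)
-/

open Finset

namespace Pool.Agent.helper23.RK

universe u v

section Sums

variable {Q : Type u} [Ring Q]

theorem ta_sum_mul_sum (S : Finset ℕ) (x : ℕ → Q)
    (h : ∀ i ∈ S, ∀ j ∈ S, x i * x j = if i = j then x i else 0) :
    (∑ i ∈ S, x i) * (∑ i ∈ S, x i) = ∑ i ∈ S, x i := by
  rw [Finset.sum_mul_sum]
  refine Finset.sum_congr rfl fun i hi => ?_
  rw [Finset.sum_congr rfl (fun j hj => h i hi j hj), Finset.sum_ite_eq, if_pos hi]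

theorem ta_sum_mul_sum_zero (S T : Finset ℕ) (x y : ℕ → Q)
    (h : ∀ i ∈ S, ∀ j ∈ T, x i * y j = 0) :
    (∑ i ∈ S, x i) * (∑ i ∈ T, y i) = 0 := by
  rw [Finset.sum_mul_sum]
  exact Finset.sum_eq_zero fun i hi => Finset.sum_eq_zero fun j hj => h i hi j hj

theorem ta_count1 (N : ℕ) (x : ℕ → Q) :
    ∑ j : Fin N, ∑ i ∈ (range N).filter (fun i => (j : ℕ) ≤ i), x i =
      ∑ i ∈ range N, (i + 1) • x i := by
  rw [← Finset.sum_range (fun j => ∑ i ∈ (range N).filter (fun i => j ≤ i), x i)]
  simp_rw [Finset.sum_filter]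
  rw [Finset.sum_comm]
  refine Finset.sum_congr rfl fun i hi => ?_
  rw [← Finset.sum_filter, Finset.sum_const]
  congr 1
  rw [Finset.mem_range] at hi
  have : (range N).filter (fun j => j ≤ i) = range (i + 1) := by
    ext j
    simp only [Finset.mem_filter, Finset.mem_range]
    omega
  rw [this, Finset.card_range]

theorem ta_count2 (N : ℕ) (x : ℕ → Q) :
    ∑ j : Fin N, ∑ i ∈ (range N).filter (fun i => i + (j : ℕ) < N), x i =
      ∑ i ∈ range N, (N - i) • x i := by
  rw [← Finset.sum_range (fun j => ∑ i ∈ (range N).filter (fun i => i + j < N), x i)]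
  simp_rw [Finset.sum_filter]
  rw [Finset.sum_comm]
  refine Finset.sum_congr rfl fun i hi => ?_
  rw [← Finset.sum_filter, Finset.sum_const]
  congr 1
  rw [Finset.mem_range] at hi
  have : (range N).filter (fun j => i + j < N) = range (N - i) := by
    ext j
    simp only [Finset.mem_filter, Finset.mem_range]
    omega
  rw [this, Finset.card_range]

theorem ta_total (N : ℕ) (F B : ℕ → Q)
    (h1 : B 0 + ∑ i ∈ range N, (F i + B (i + 1)) = 1) :
    ∑ i ∈ range N, (i + 1) • (F i + B (i + 1)) + ∑ i ∈ range N, (N - i) • (B i + F i) =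
      (N : Q) + ∑ i ∈ range N, F i := by
  have e1 : ∑ i ∈ range N, (i + 1) • B (i + 1) = ∑ i ∈ range (N + 1), i • B i := by
    rw [Finset.sum_range_succ']
    simp
  have e2 : ∑ i ∈ range N, (N - i) • B i = ∑ i ∈ range (N + 1), (N - i) • B i := by
    rw [Finset.sum_range_succ]
    simp
  have e3 : ∑ i ∈ range (N + 1), i • B i + ∑ i ∈ range (N + 1), (N - i) • B i =
      N • ∑ i ∈ range (N + 1), B i := by
    rw [← Finset.sum_add_distrib, Finset.smul_sum]
    refine Finset.sum_congr rfl fun i hi => ?_
    rw [← add_smul]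
    congr 1
    rw [Finset.mem_range] at hi
    omega
  have e4 : ∑ i ∈ range N, (i + 1) • F i + ∑ i ∈ range N, (N - i) • F i =
      (N + 1) • ∑ i ∈ range N, F i := by
    rw [← Finset.sum_add_distrib, Finset.smul_sum]
    refine Finset.sum_congr rfl fun i hi => ?_
    rw [← add_smul]
    congr 1
    rw [Finset.mem_range] at hi
    omega
  have e5 : ∑ i ∈ range (N + 1), B i + ∑ i ∈ range N, F i = 1 := by
    rw [Finset.sum_range_succ', ← h1, Finset.sum_add_distrib]
    abel
  have e6 : (N : Q) = N • ∑ i ∈ range (N + 1), B i + N • ∑ i ∈ range N, F i := by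
    rw [← smul_add, e5]; simp
  simp only [smul_add, Finset.sum_add_distrib]
  rw [e6, e1, e2, ← e3]
  have e7 : (N + 1) • ∑ i ∈ range N, F i = N • ∑ i ∈ range N, F i + ∑ i ∈ range N, F i := by
    rw [add_smul, one_smul]
  rw [e7] at e4
  calc _ = (∑ i ∈ range N, (i + 1) • F i + ∑ i ∈ range N, (N - i) • F i) +
        (∑ i ∈ range (N + 1), i • B i + ∑ i ∈ range (N + 1), (N - i) • B i) := by abel
    _ = _ := by rw [e4]; abel

end Sums

/-- second half of the construction: from projections `p g i` and isometries `b i` to towers -/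
theorem ta_towers {Q : Type u} [Ring Q] [StarRing Q] [Algebra ℂ Q] {G : Type v} [Group G] [Fintype G]
    [DecidableEq G]
    (ρ : G → (Q →⋆ₐ[ℂ] Q)) (N : ℕ) (p : G → ℕ → Q) (b : ℕ → Q)
    (hps : ∀ g i, i < N → star (p g i) = p g i)
    (hpp : ∀ g h i j, i < N → j < N → p g i * p h j = if g = h ∧ i = j then p g i else 0)
    (hρp : ∀ h g i, i < N → ρ h (p g i) = p (h * g) i)
    (hρb : ∀ h i, i ≤ N → ρ h (b i) = b i)
    (hbb : ∀ i j, i ≤ N → j ≤ N → star (b i) * b j = if i = j then 1 else 0)
    (hEb : ∀ j i, j < N → i ≤ N → (∑ g, p g j) * b i = if j + 1 = i then b i else 0)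
    (h1 : b 0 * star (b 0) + ∑ i ∈ range N, ∑ g, p g i = 1) :
    ∃ (q : Fin 2 → G → Fin N → Q) (R : Q),
      (∀ l g j, star (q l g j) = q l g j ∧ q l g j * q l g j = q l g j) ∧
      (∀ l g h j, ρ h (q l g j) = q l (h * g) j) ∧
      (∀ l g h i j, g ≠ h → q l g i * q l h j = 0) ∧
      star R = R ∧ R * R = R ∧ ∑ l, ∑ g, ∑ j, q l g j = (N : Q) + R := by
  set E : ℕ → Q := fun i => ∑ g, p g i with hE
  set F : ℕ → Q := fun i => E i - b (i + 1) * star (b (i + 1)) with hF
  set w : ℕ → Q := fun i => b (i + 1) * star (b i) + F i with hw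
  set p1 : G → ℕ → Q := fun g i => star (w i) * p g i * w i with hp1
  have hEs : ∀ i, i < N → star (E i) = E i := by
    intro i hi
    simp only [hE, star_sum]
    exact Finset.sum_congr rfl fun g _ => hps g i hi
  have hFs : ∀ i, i < N → star (F i) = F i := by
    intro i hi
    simp [hF, hEs i hi, star_mul]
  have hEE : ∀ i j, i < N → j < N → E i * E j = if i = j then E i else 0 := by
    intro i j hi hj
    simp only [hE]
    rw [Finset.sum_mul_sum]
    by_cases hij : i = j
    · subst hij
      rw [if_pos rfl]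
      refine Finset.sum_congr rfl fun g _ => ?_
      rw [Finset.sum_congr rfl (fun h _ => hpp g h i i hi hi)]
      simp
    · rw [if_neg hij]
      refine Finset.sum_eq_zero fun g _ => Finset.sum_eq_zero fun h _ => ?_
      rw [hpp g h i j hi hj, if_neg]
      exact fun h => hij h.2
  have hFb : ∀ i j, i < N → j ≤ N → F i * b j = 0 := by
    intro i j hi hj
    have := hEb i j hi hj
    change E i * b j = _ at this
    simp only [hF]
    rw [sub_mul, this, mul_assoc, hbb (i + 1) j (by omega) hj]
    by_cases h : i + 1 = j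
    · subst h; simp
    · simp [h]
  have hbF : ∀ i j, i < N → j ≤ N → star (b j) * F i = 0 := by
    intro i j hi hj
    have := congrArg star (hFb i j hi hj)
    rwa [star_mul, hFs i hi, star_zero] at this
  have hbE : ∀ j i, j < N → i ≤ N → star (b i) * E j = if j + 1 = i then star (b i) else 0 := by
    intro j i hj hi
    have := congrArg star (hEb j i hj hi)
    change star (E j * b i) = _ at this
    rw [star_mul, hEs j hj] at this
    rw [this]
    split_ifs <;> simp
  have hFF : ∀ i j, i < N → j < N → F i * F j = if i = j then F i else 0 := by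
    intro i j hi hj
    have e1 : F i * F j = F i * E j := by
      have e0 : F j = E j - b (j + 1) * star (b (j + 1)) := rfl
      rw [e0, mul_sub, ← mul_assoc, hFb i (j + 1) hi (by omega), zero_mul, sub_zero]
    have e0 : F i = E i - b (i + 1) * star (b (i + 1)) := rfl
    rw [e1, e0, sub_mul, mul_assoc, hEE i j hi hj, hbE j (i + 1) hj (by omega)]
    by_cases h : i = j
    · subst h; simp
    · have h' : ¬ (j = i) := fun e => h e.symm
      simp [h, h']
  have hws : ∀ i, i < N → star (w i) = b i * star (b (i + 1)) + F i := by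
    intro i hi
    simp [hw, hFs i hi, star_mul]
  have hEF : ∀ i, i < N → b (i + 1) * star (b (i + 1)) + F i = E i := by
    intro i hi
    simp only [hF]
    abel
  have hww : ∀ i j, i < N → j < N → w i * star (w j) = if i = j then E i else 0 := by
    intro i j hi hj
    have e0 : w i = b (i + 1) * star (b i) + F i := rfl
    rw [hws j hj, e0, add_mul, mul_add, mul_add, mul_assoc, ← mul_assoc (star (b i)) (b j),
      hbb i j (by omega) (by omega), mul_assoc (b (i + 1)) (star (b i)) (F j),
      hbF j i hj (by omega), ← mul_assoc (F i) (b j), hFb i j hi (by omega), hFF i j hi hj]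
    by_cases h : i = j
    · subst h
      simp [hEF i hi]
    · simp [h]
  have hww' : ∀ i, i < N → star (w i) * w i = b i * star (b i) + F i := by
    intro i hi
    have e0 : w i = b (i + 1) * star (b i) + F i := rfl
    rw [hws i hi, e0, add_mul, mul_add, mul_add, mul_assoc, ← mul_assoc (star (b (i + 1))),
      hbb (i + 1) (i + 1) (by omega) (by omega), mul_assoc (b i) _ (F i),
      hbF i (i + 1) hi (by omega), ← mul_assoc (F i) (b (i + 1)), hFb i (i + 1) hi (by omega),
      hFF i i hi hi]
    simp
  have hEp : ∀ g i, i < N → E i * p g i = p g i := by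
    intro g i hi
    simp only [hE]
    rw [Finset.sum_mul, Finset.sum_congr rfl (fun h _ => hpp h g i i hi hi)]
    simp
  have hp1s : ∀ g i, i < N → star (p1 g i) = p1 g i := by
    intro g i hi
    simp [hp1, star_mul, hps g i hi, mul_assoc]
  have hp1p : ∀ g h i j, i < N → j < N →
      p1 g i * p1 h j = if g = h ∧ i = j then p1 g i else 0 := by
    intro g h i j hi hj
    have e1 : p1 g i * p1 h j = star (w i) * p g i * (w i * star (w j)) * p h j * w j := by
      simp only [hp1, mul_assoc]
    rw [e1, hww i j hi hj]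
    by_cases hij : i = j
    · subst hij
      rw [if_pos rfl, mul_assoc _ (E i) (p h i), hEp h i hi, mul_assoc (star (w i)), hpp g h i i hi hi]
      by_cases hg : g = h
      · subst hg
        simp [hp1]
      · simp [hg]
    · simp [hij]
  have hρF : ∀ h i, i < N → ρ h (F i) = F i := by
    intro h i hi
    have e0 : F i = E i - b (i + 1) * star (b (i + 1)) := rfl
    rw [e0, map_sub, map_mul, map_star, hρb h (i + 1) (by omega)]
    congr 1
    simp only [hE, map_sum]
    rw [Finset.sum_congr rfl (fun g _ => hρp h g i hi)]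
    exact Fintype.sum_bijective (fun g => h * g) (Group.mulLeft_bijective h) _ _ (fun g => rfl)
  have hρw : ∀ h i, i < N → ρ h (w i) = w i := by
    intro h i hi
    have e0 : w i = b (i + 1) * star (b i) + F i := rfl
    rw [e0, map_add, map_mul, map_star, hρb h (i + 1) (by omega), hρb h i (by omega), hρF h i hi]
  have hρp1 : ∀ h g i, i < N → ρ h (p1 g i) = p1 (h * g) i := by
    intro h g i hi
    simp only [hp1]
    rw [map_mul, map_mul, map_star, hρw h i hi, hρp h g i hi]
  have hsum1 : ∀ i, i < N → ∑ g, p1 g i = b i * star (b i) + F i := by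
    intro i hi
    simp only [hp1]
    rw [← Finset.sum_mul, ← Finset.mul_sum]
    change star (w i) * E i * w i = _
    have e3 : E i * w i = w i := by
      have e0 : w i = b (i + 1) * star (b i) + F i := rfl
      have e4 : E i * F i = F i := by
        have e5 : F i = E i - b (i + 1) * star (b (i + 1)) := rfl
        have e6 := hEb i (i + 1) hi (by omega)
        change E i * b (i + 1) = _ at e6
        rw [e5, mul_sub, hEE i i hi hi, ← mul_assoc, e6]
        simp
      have e6 := hEb i (i + 1) hi (by omega)
      change E i * b (i + 1) = _ at e6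
      rw [e0, mul_add, e4, ← mul_assoc, e6]
      simp
    rw [mul_assoc, e3, hww' i hi]
  refine ⟨fun l g j => if l = 0 then ∑ i ∈ (range N).filter (fun i => (j : ℕ) ≤ i), p g i
      else ∑ i ∈ (range N).filter (fun i => i + (j : ℕ) < N), p1 g i,
    ∑ i ∈ range N, F i, ?_, ?_, ?_, ?_, ?_, ?_⟩
  · intro l g j
    by_cases hl : l = 0
    · simp only [hl, if_true]
      refine ⟨?_, ?_⟩
      · rw [star_sum]
        refine Finset.sum_congr rfl fun i hi => ?_
        simp only [Finset.mem_filter, Finset.mem_range] at hi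
        exact hps g i hi.1
      · refine ta_sum_mul_sum _ _ fun i hi k hk => ?_
        simp only [Finset.mem_filter, Finset.mem_range] at hi hk
        rw [hpp g g i k hi.1 hk.1]
        simp
    · simp only [hl, if_false]
      refine ⟨?_, ?_⟩
      · rw [star_sum]
        refine Finset.sum_congr rfl fun i hi => ?_
        simp only [Finset.mem_filter, Finset.mem_range] at hi
        exact hp1s g i hi.1
      · refine ta_sum_mul_sum _ _ fun i hi k hk => ?_
        simp only [Finset.mem_filter, Finset.mem_range] at hi hk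
        rw [hp1p g g i k hi.1 hk.1]
        simp
  · intro l g h j
    by_cases hl : l = 0
    · simp only [hl, if_true, map_sum]
      refine Finset.sum_congr rfl fun i hi => ?_
      simp only [Finset.mem_filter, Finset.mem_range] at hi
      exact hρp h g i hi.1
    · simp only [hl, if_false, map_sum]
      refine Finset.sum_congr rfl fun i hi => ?_
      simp only [Finset.mem_filter, Finset.mem_range] at hi
      exact hρp1 h g i hi.1
  · intro l g h i j hgh
    by_cases hl : l = 0
    · simp only [hl, if_true]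
      refine ta_sum_mul_sum_zero _ _ _ _ fun a ha c hc => ?_
      simp only [Finset.mem_filter, Finset.mem_range] at ha hc
      rw [hpp g h a c ha.1 hc.1, if_neg (fun h => hgh h.1)]
    · simp only [hl, if_false]
      refine ta_sum_mul_sum_zero _ _ _ _ fun a ha c hc => ?_
      simp only [Finset.mem_filter, Finset.mem_range] at ha hc
      rw [hp1p g h a c ha.1 hc.1, if_neg (fun h => hgh h.1)]
  · rw [star_sum]
    refine Finset.sum_congr rfl fun i hi => ?_
    rw [Finset.mem_range] at hi
    exact hFs i hi
  · refine ta_sum_mul_sum _ _ fun i hi k hk => ?_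
    rw [Finset.mem_range] at hi hk
    exact hFF i k hi hk
  · rw [Fin.sum_univ_two]
    simp only [if_true, Fin.isValue, one_ne_zero, if_false]
    have s1 : ∑ g : G, ∑ j : Fin N, ∑ i ∈ (range N).filter (fun i => (j : ℕ) ≤ i), p g i =
        ∑ i ∈ range N, (i + 1) • (F i + b (i + 1) * star (b (i + 1))) := by
      rw [Finset.sum_congr rfl (fun g _ => ta_count1 N (p g)), Finset.sum_comm]
      refine Finset.sum_congr rfl fun i hi => ?_
      rw [Finset.mem_range] at hi
      rw [← Finset.smul_sum, add_comm (F i), hEF i hi]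
    have s2 : ∑ g : G, ∑ j : Fin N, ∑ i ∈ (range N).filter (fun i => i + (j : ℕ) < N), p1 g i =
        ∑ i ∈ range N, (N - i) • (b i * star (b i) + F i) := by
      rw [Finset.sum_congr rfl (fun g _ => ta_count2 N (p1 g)), Finset.sum_comm]
      refine Finset.sum_congr rfl fun i hi => ?_
      rw [Finset.mem_range] at hi
      rw [← Finset.smul_sum, hsum1 i hi]
    rw [s1, s2]
    refine ta_total N F (fun i => b i * star (b i)) ?_
    rw [← h1]
    congr 1
    refine Finset.sum_congr rfl fun i hi => ?_
    rw [Finset.mem_range] at hi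
    rw [add_comm (F i), hEF i hi]

section Iso

variable {Q : Type u} [Ring Q] [StarRing Q]

/-- orthogonal isometries from two orthogonal isometries -/
theorem ta_iso (x y : Q) (hx : star x * x = 1) (hy : star y * y = 1) (hxy : star x * y = 0)
    (hyx : star y * x = 0) (i j : ℕ) :
    star (x ^ i * y) * (x ^ j * y) = if i = j then 1 else 0 := by
  have hp : ∀ n : ℕ, star (x ^ n) * x ^ n = 1 := by
    intro n
    induction n with
    | zero => simp
    | succ n ih =>
      rw [pow_succ, star_mul, mul_assoc, ← mul_assoc (star (x ^ n)), ih, one_mul, hx]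
  rw [star_mul, mul_assoc, ← mul_assoc (star (x ^ i))]
  rcases lt_trichotomy i j with h | h | h
  · obtain ⟨k, rfl⟩ := Nat.exists_eq_add_of_lt h
    rw [if_neg (by omega)]
    have e : star (x ^ i) * x ^ (i + k + 1) = x * x ^ k := by
      rw [add_assoc, pow_add, ← mul_assoc, hp, one_mul, pow_succ']
    rw [e, mul_assoc x, ← mul_assoc, hyx, zero_mul]
  · subst h
    rw [if_pos rfl, hp, one_mul, hy]
  · obtain ⟨k, rfl⟩ := Nat.exists_eq_add_of_lt h
    rw [if_neg (by omega)]
    have e : star (x ^ (j + k + 1)) * x ^ j = star (x ^ k) * star x := by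
      rw [add_assoc, pow_add, star_mul, mul_assoc, hp, mul_one, pow_succ', star_mul]
    rw [e, mul_assoc, hxy, mul_zero, mul_zero]

variable {G : Type v} [Group G] [Fintype G] [DecidableEq G]

/-- `Σ_g s_g x s_g*` is multiplicative -/
theorem ta_amp (u : G → Q) (hu : ∀ g h, star (u g) * u h = if g = h then 1 else 0) (x y : Q) :
    (∑ g, u g * x * star (u g)) * (∑ g, u g * y * star (u g)) = ∑ g, u g * (x * y) * star (u g) := by
  rw [Finset.sum_mul_sum]
  refine Finset.sum_congr rfl fun g _ => ?_
  have : ∀ h, u g * x * star (u g) * (u h * y * star (u h)) =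
      if g = h then u g * (x * y) * star (u g) else 0 := by
    intro h
    have e : u g * x * star (u g) * (u h * y * star (u h)) =
        u g * x * (star (u g) * u h) * y * star (u h) := by simp only [mul_assoc]
    rw [e, hu]
    by_cases hg : g = h
    · subst hg; simp [mul_assoc]
    · simp [hg]
  rw [Finset.sum_congr rfl (fun h _ => this h)]
  simp

theorem ta_amp_vec (u : G → Q) (hu : ∀ g h, star (u g) * u h = if g = h then 1 else 0) (x : Q) :
    (∑ g, u g * x * star (u g)) * (∑ g, u g) = (∑ g, u g) * x := by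
  rw [Finset.sum_mul_sum, Finset.sum_mul]
  refine Finset.sum_congr rfl fun g _ => ?_
  have : ∀ h, u g * x * star (u g) * u h = if g = h then u g * x else 0 := by
    intro h
    rw [mul_assoc, hu]
    by_cases hg : g = h
    · subst hg; simp
    · simp [hg]
  rw [Finset.sum_congr rfl (fun h _ => this h)]
  simp

end Iso

theorem ta_alg {Q : Type u} [Ring Q] (e x y z : Q) (h1 : e * e = e) (h2 : e * x = x)
    (h3 : y * e = y) (h4 : y * x = z) : (1 - e + y) * (1 - e + x) = 1 - e + z := by
  have : (1 - e + y) * (1 - e + x) =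
      1 - e - e + e * e + (x - e * x) + (y - y * e) + y * x := by noncomm_ring
  rw [this, h1, h2, h3, h4]
  abel

theorem towers_alg {Q : Type u} [Ring Q] [StarRing Q] [Algebra ℂ Q] [StarModule ℂ Q]
    {G : Type v} [Group G] [Fintype G] [Nontrivial G]
    (ρ : G → (Q →⋆ₐ[ℂ] Q)) (h1 : ∀ x, ρ 1 x = x) (hmul : ∀ g h x, ρ (g * h) x = ρ g (ρ h x))
    (s : Q) (hs : star s * s = 1) (hsg : ∀ g, g ≠ 1 → star s * ρ g s = 0)
    (N : ℕ) (hN : 0 < N) :
    ∃ (q : Fin 2 → G → Fin N → Q) (R : Q),
      (∀ l g j, star (q l g j) = q l g j ∧ q l g j * q l g j = q l g j) ∧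
      (∀ l g h j, ρ h (q l g j) = q l (h * g) j) ∧
      (∀ l g h i j, g ≠ h → q l g i * q l h j = 0) ∧
      star R = R ∧ R * R = R ∧ ∑ l, ∑ g, ∑ j, q l g j = (N : Q) + R := by
  classical
  set u : G → Q := fun g => ρ g s with hudef
  have hu : ∀ g h, star (u g) * u h = if g = h then 1 else 0 := by
    intro g h
    have e : star (u g) * u h = ρ g (star s * ρ (g⁻¹ * h) s) := by
      simp only [hudef]
      rw [map_mul, map_star, ← hmul, mul_inv_cancel_left]
    rw [e]
    by_cases hg : g = h
    · subst hg
      rw [if_pos rfl, inv_mul_cancel, h1, hs, map_one]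
    · rw [if_neg hg, hsg _ (fun h' => hg (by rw [inv_mul_eq_one] at h'; exact h')), map_zero]
  have hρu : ∀ h g, ρ h (u g) = u (h * g) := fun h g => (hmul h g s).symm
  -- the scalar `|G|^{-1/2}`
  set c : ℂ := (((Real.sqrt (Fintype.card G))⁻¹ : ℝ) : ℂ) with hc
  have hcc : star c = c := by simp [hc]
  have hcard : (0 : ℝ) < (Fintype.card G : ℝ) := by exact_mod_cast Fintype.card_pos
  have hc2 : c * c * (Fintype.card G : ℂ) = 1 := by
    rw [hc]
    have : (Real.sqrt (Fintype.card G))⁻¹ * (Real.sqrt (Fintype.card G))⁻¹ * (Fintype.card G : ℝ) = 1 := by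
      rw [← mul_inv, Real.mul_self_sqrt hcard.le, inv_mul_cancel₀ hcard.ne']
    exact_mod_cast this
  -- invariant isometries
  set t : G → Q := fun k => c • ∑ g, u g * u (g * k) with ht
  have htt : ∀ k l, star (t k) * t l = if k = l then 1 else 0 := by
    intro k l
    simp only [ht]
    rw [star_smul, star_sum, smul_mul_smul_comm, hcc, Finset.sum_mul_sum]
    have : ∀ g, ∑ h, star (u g * u (g * k)) * (u h * u (h * l)) = if k = l then 1 else 0 := by
      intro g
      have e : ∀ h, star (u g * u (g * k)) * (u h * u (h * l)) =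
          if g = h then (if k = l then (1 : Q) else 0) else 0 := by
        intro h
        rw [star_mul, mul_assoc, ← mul_assoc (star (u g)), hu]
        by_cases hg : g = h
        · subst hg
          rw [if_pos rfl, if_pos rfl, one_mul, hu]
          simp
        · simp [hg]
      rw [Finset.sum_congr rfl (fun h _ => e h)]
      simp
    rw [Finset.sum_congr rfl (fun g _ => this g), Finset.sum_const, Finset.card_univ]
    by_cases hk : k = l
    · rw [if_pos hk, nsmul_one, ← map_natCast (algebraMap ℂ Q), Algebra.smul_def, ← map_mul, hc2,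
        map_one]
    · rw [if_neg hk]; simp
  have hρt : ∀ h k, ρ h (t k) = t k := by
    intro h k
    simp only [ht]
    rw [map_smul, map_sum]
    congr 1
    refine Fintype.sum_bijective (fun g => h * g) (Group.mulLeft_bijective h) _ _ (fun g => ?_)
    rw [map_mul, hρu, hρu, mul_assoc]
  obtain ⟨k0, k1, hk⟩ := exists_pair_ne G
  set r : ℕ → Q := fun i => t k0 ^ i * t k1 with hr
  have hrr : ∀ i j, star (r i) * r j = if i = j then 1 else 0 := by
    intro i j
    refine ta_iso (t k0) (t k1) ?_ ?_ ?_ ?_ i j
    · rw [htt, if_pos rfl]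
    · rw [htt, if_pos rfl]
    · rw [htt, if_neg hk]
    · rw [htt, if_neg hk.symm]
  have hρr : ∀ h i, ρ h (r i) = r i := by
    intro h i
    simp only [hr]
    rw [map_mul, map_pow, hρt, hρt]
  obtain ⟨M, rfl⟩ : ∃ M, N = M + 1 := ⟨N - 1, by omega⟩
  -- range projections
  set P : ℕ → Q := fun i => r i * star (r i) with hP
  have hPr : ∀ i j, P i * r j = if i = j then r j else 0 := by
    intro i j
    simp only [hP]
    rw [mul_assoc, hrr]
    by_cases h : i = j
    · subst h; simp
    · simp [h]
  have hPP : ∀ i j, P i * P j = if i = j then P i else 0 := by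
    intro i j
    have e : P i * P j = P i * r j * star (r j) := by simp only [hP, mul_assoc]
    rw [e, hPr]
    by_cases h : i = j
    · subst h; simp [hP]
    · simp [h]
  have hPs : ∀ i, star (P i) = P i := by
    intro i; simp [hP, star_mul]
  have hρP : ∀ h i, ρ h (P i) = P i := by
    intro h i
    simp only [hP]
    rw [map_mul, map_star, hρr]
  set a : ℕ → Q := fun i => if i < M then P (i + 1) else 1 - ∑ k ∈ range (M + 1), P k with ha
  have ha1 : ∀ i, i < M → a i = P (i + 1) := fun i hi => if_pos hi
  have ha2 : a M = 1 - ∑ k ∈ range (M + 1), P k := if_neg (lt_irrefl M)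
  have has : ∀ i, i < M + 1 → star (a i) = a i := by
    intro i hi
    rcases Nat.lt_succ_iff_lt_or_eq.mp hi with h | h
    · rw [ha1 i h, hPs]
    · subst h
      rw [ha2, star_sub, star_one, star_sum]
      congr 1
      exact Finset.sum_congr rfl fun k _ => hPs k
  have har : ∀ i j, i < M + 1 → j ≤ M + 1 → a i * r j = if i + 1 = j then r j else 0 := by
    intro i j hi hj
    rcases Nat.lt_succ_iff_lt_or_eq.mp hi with h | h
    · rw [ha1 i h, hPr]
    · subst h
      rw [ha2, sub_mul, one_mul, Finset.sum_mul, Finset.sum_congr rfl (fun k _ => hPr k j)]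
      rw [Finset.sum_ite_eq']
      by_cases h' : j = i + 1
      · subst h'; simp
      · have e1 : j ∈ range (i + 1) := by rw [Finset.mem_range]; omega
        have e2 : ¬ (i + 1 = j) := fun e => h' e.symm
        rw [if_pos e1, if_neg e2, sub_self]
  have haP : ∀ i j, i < M + 1 → j ≤ M + 1 → a i * P j = if i + 1 = j then P j else 0 := by
    intro i j hi hj
    have e : a i * P j = a i * r j * star (r j) := by simp only [hP, mul_assoc]
    rw [e, har i j hi hj]
    by_cases h : i + 1 = j
    · subst h; simp [hP]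
    · simp [h]
  have haa : ∀ i j, i < M + 1 → j < M + 1 → a i * a j = if i = j then a i else 0 := by
    intro i j hi hj
    rcases Nat.lt_succ_iff_lt_or_eq.mp hj with h | h
    · rw [ha1 j h, haP i (j + 1) hi (by omega)]
      by_cases h' : i = j
      · subst h'; simp [ha1 i h]
      · have : ¬ (i + 1 = j + 1) := by omega
        simp [h']
    · subst h
      rw [ha2, mul_sub, mul_one, Finset.mul_sum,
        Finset.sum_congr rfl (fun k hk => haP i k hi (by rw [Finset.mem_range] at hk; omega))]
      by_cases h' : i = j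
      · subst h'
        rw [if_pos rfl, Finset.sum_ite_eq, if_neg (by simp), sub_zero]
      · have e : i + 1 ∈ range (j + 1) := by rw [Finset.mem_range]; omega
        rw [if_neg h', Finset.sum_ite_eq, if_pos e, ha1 i (by omega), sub_self]
  have hρa : ∀ h i, i < M + 1 → ρ h (a i) = a i := by
    intro h i hi
    rcases Nat.lt_succ_iff_lt_or_eq.mp hi with h' | h'
    · rw [ha1 i h', hρP]
    · subst h'
      rw [ha2, map_sub, map_one, map_sum]
      congr 1
      exact Finset.sum_congr rfl fun k _ => hρP h k
  have hsa : ∑ i ∈ range (M + 1), a i = 1 - P 0 := by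
    rw [Finset.sum_range_succ, ha2,
      Finset.sum_congr rfl (fun i hi => ha1 i (Finset.mem_range.mp hi)), Finset.sum_range_succ']
    abel
  -- the data of `ta_towers`
  set U : Q := ∑ g, u g with hU
  set W : Q := (1 - ∑ g, u g * star (u g)) + ∑ g, u g * r 0 * star (u g) with hW
  set b : ℕ → Q := fun i => if i = 0 then W else (c • U) * r i with hb
  have hb0 : b 0 = W := if_pos rfl
  have hbs : ∀ i, b (i + 1) = (c • U) * r (i + 1) := fun i => if_neg (Nat.succ_ne_zero i)
  have hamp1 : ∑ g, u g * star (u g) = ∑ g, u g * 1 * star (u g) :=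
    Finset.sum_congr rfl fun g _ => by rw [mul_one]
  have hUU : star (c • U) * (c • U) = 1 := by
    rw [star_smul, smul_mul_smul_comm, hcc, hU, star_sum, Finset.sum_mul_sum]
    rw [Finset.sum_congr rfl (fun g _ => Finset.sum_congr rfl (fun h _ => hu g h))]
    simp only [Finset.sum_ite_eq, Finset.mem_univ, if_true]
    rw [Finset.sum_const, Finset.card_univ, nsmul_one, ← map_natCast (algebraMap ℂ Q),
      Algebra.smul_def, ← map_mul, hc2, map_one]
  have hampU : ∀ x, (∑ g, u g * x * star (u g)) * (c • U) = (c • U) * x := by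
    intro x
    rw [mul_smul_comm, hU, ta_amp_vec u hu, smul_mul_assoc]
  have hstarAmp : ∀ x, star (∑ g, u g * x * star (u g)) = ∑ g, u g * star x * star (u g) := by
    intro x
    rw [star_sum]
    refine Finset.sum_congr rfl fun g _ => ?_
    simp [star_mul, mul_assoc]
  have hWs : star W = (1 - ∑ g, u g * 1 * star (u g)) + ∑ g, u g * star (r 0) * star (u g) := by
    rw [hW, hamp1, star_add, star_sub, star_one, hstarAmp, hstarAmp, star_one]
  have hWW : star W * W = 1 := by
    rw [hWs, hW, hamp1, ta_alg _ _ _ (∑ g, u g * 1 * star (u g))]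
    · abel
    · rw [ta_amp u hu, mul_one]
    · rw [ta_amp u hu, one_mul]
    · rw [ta_amp u hu, mul_one]
    · rw [ta_amp u hu, hrr 0 0, if_pos rfl]
  have hρamp : ∀ h x, ρ h x = x → ρ h (∑ g, u g * x * star (u g)) = ∑ g, u g * x * star (u g) := by
    intro h x hx
    rw [map_sum]
    refine Fintype.sum_bijective (fun g => h * g) (Group.mulLeft_bijective h) _ _ (fun g => ?_)
    rw [map_mul, map_mul, map_star, hρu, hx]
  have hρU : ∀ h, ρ h (c • U) = c • U := by
    intro h
    rw [map_smul, hU, map_sum]
    congr 1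
    exact Fintype.sum_bijective (fun g => h * g) (Group.mulLeft_bijective h) _ _ (fun g => hρu h g)
  have hWb : ∀ j, star W * ((c • U) * r (j + 1)) = 0 := by
    intro j
    rw [← mul_assoc, hWs, add_mul, sub_mul, one_mul, hampU, hampU, mul_one, sub_self, zero_add,
      mul_assoc, hrr 0 (j + 1), if_neg (by omega), mul_zero]
  refine ta_towers ρ (M + 1) (fun g i => u g * a i * star (u g)) b ?_ ?_ ?_ ?_ ?_ ?_ ?_
  · intro g i hi
    simp [star_mul, has i hi, mul_assoc]
  · intro g h i j hi hj
    have e : u g * a i * star (u g) * (u h * a j * star (u h)) =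
        u g * a i * (star (u g) * u h) * a j * star (u h) := by simp only [mul_assoc]
    rw [e, hu]
    by_cases hg : g = h
    · subst hg
      rw [if_pos rfl, mul_one, mul_assoc (u g), haa i j hi hj]
      by_cases hij : i = j
      · subst hij; simp
      · simp [hij]
    · simp [hg]
  · intro h g i hi
    rw [map_mul, map_mul, map_star, hρu, hρa h i hi]
  · intro h i hi
    rcases Nat.eq_zero_or_pos i with h0 | h0
    · subst h0
      rw [hb0, hW, hamp1, map_add, map_sub, map_one, hρamp h 1 (map_one _), hρamp h (r 0) (hρr h 0)]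
    · obtain ⟨i', rfl⟩ : ∃ i', i = i' + 1 := ⟨i - 1, by omega⟩
      rw [hbs, map_mul, hρU, hρr]
  · intro i j hi hj
    rcases Nat.eq_zero_or_pos i with h0 | h0
    · subst h0
      rcases Nat.eq_zero_or_pos j with h1' | h1'
      · subst h1'
        rw [hb0, hWW, if_pos rfl]
      · obtain ⟨j', rfl⟩ : ∃ j', j = j' + 1 := ⟨j - 1, by omega⟩
        rw [hb0, hbs, hWb, if_neg (by omega)]
    · obtain ⟨i', rfl⟩ : ∃ i', i = i' + 1 := ⟨i - 1, by omega⟩
      rcases Nat.eq_zero_or_pos j with h1' | h1'
      · subst h1'
        have := congrArg star (hWb i')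
        rw [star_mul, star_star, star_zero] at this
        rw [hb0, hbs, this, if_neg (by omega)]
      · obtain ⟨j', rfl⟩ : ∃ j', j = j' + 1 := ⟨j - 1, by omega⟩
        rw [hbs, hbs, star_mul, mul_assoc, ← mul_assoc (star (c • U)), hUU, one_mul, hrr]
  · intro j i hj hi
    rcases Nat.eq_zero_or_pos i with h0 | h0
    · subst h0
      rw [hb0, hW, hamp1, mul_add, mul_sub, mul_one, ta_amp u hu, ta_amp u hu, har j 0 hj (by omega),
        mul_one]
      simp
    · obtain ⟨i', rfl⟩ : ∃ i', i = i' + 1 := ⟨i - 1, by omega⟩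
      rw [hbs, ← mul_assoc, hampU, mul_assoc, har j (i' + 1) hj hi]
      by_cases h : j + 1 = i' + 1
      · rw [if_pos h, if_pos h]
      · rw [if_neg h, if_neg h, mul_zero]
  · have e1 : b 0 * star (b 0) = (1 - ∑ g, u g * 1 * star (u g)) + ∑ g, u g * P 0 * star (u g) := by
      rw [hb0, hWs, hW, hamp1]
      apply ta_alg
      · rw [ta_amp u hu, mul_one]
      · rw [ta_amp u hu, one_mul]
      · rw [ta_amp u hu, mul_one]
      · rw [ta_amp u hu]
    have e2 : ∑ i ∈ range (M + 1), ∑ g, u g * a i * star (u g) =
        ∑ g, u g * 1 * star (u g) - ∑ g, u g * P 0 * star (u g) := by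
      rw [Finset.sum_comm, ← Finset.sum_sub_distrib]
      refine Finset.sum_congr rfl fun g _ => ?_
      rw [← Finset.sum_mul, ← Finset.mul_sum, hsa, mul_sub, sub_mul]
    rw [e1, e2]
    abel

end Pool.Agent.helper23.RK
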