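import Pool.Agent.helper80.RK.Lift
import Pool.Agent.helper23.RK.TowersAlg

set_option autoImplicit false

open Filter Topology
open scoped CStarAlgebra ComplexOrder MultiplierAlgebra

namespace Pool.Agent.helper23.RK

universe u v w

namespace Tr

section final

variable {A : Type u} [NonUnitalCStarAlgebra A]

/-- evaluation at `n` -/
noncomputable def ev (n : ℕ) : RR A →ₐ[ℂ] Unitization ℂ A where
  toFun x := (x : ℕ → Unitization ℂ A) n
  map_one' := rfl
  map_mul' _ _ := rfl
  map_zero' := rfl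
  map_add' _ _ := rfl
  commutes' _ := rfl

lemma ev_apply (n : ℕ) (x : RR A) : ev n x = (x : ℕ → Unitization ℂ A) n := rfl

lemma null_inr {x : ℕ → A} (h : Tendsto (fun n => (x n : Unitization ℂ A)) atTop (𝓝 0)) :
    Tendsto x atTop (𝓝 0) := by
  rw [tendsto_zero_iff_norm_tendsto_zero] at h ⊢
  simpa only [Unitization.norm_inr] using h

lemma inr_null {x : ℕ → A} (h : Tendsto x atTop (𝓝 0)) :
    Tendsto (fun n => (x n : Unitization ℂ A)) atTop (𝓝 0) := by
  rw [tendsto_zero_iff_norm_tendsto_zero] at h ⊢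
  simpa only [Unitization.norm_inr] using h

lemma mem_RR_inr {x : ℕ → A} (hb : ∃ C : ℝ, ∀ n, ‖x n‖ ≤ C)
    (hc : ∀ a, Tendsto (fun n => x n * a - a * x n) atTop (𝓝 0)) :
    (fun n => (x n : Unitization ℂ A)) ∈ RR A := by
  obtain ⟨C, hC⟩ := hb
  refine ⟨⟨C, fun n => by rw [Unitization.norm_inr]; exact hC n⟩, fun a => ?_⟩
  refine (inr_null (hc a)).congr fun n => ?_
  rw [Unitization.inr_sub, Unitization.inr_mul, Unitization.inr_mul]

lemma inr_sum {ι : Type w} (t : Finset ι) (f : ι → A) :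
    ((∑ i ∈ t, f i : A) : Unitization ℂ A) = ∑ i ∈ t, (f i : Unitization ℂ A) :=
  map_sum (Unitization.inrNonUnitalAlgHom ℂ A) f t

/-- consequence of an equality in the quotient -/
lemma null_of_mk_eq {X Y : RR A} (h : Ideal.Quotient.mk (II A) X = Ideal.Quotient.mk (II A) Y)
    (a : A) : Tendsto (fun n => (ev n X - ev n Y) * (a : Unitization ℂ A)) atTop (𝓝 0) :=
  Ideal.Quotient.eq.1 h a

end final

end Tr

section K_Rok

variable {A : Type u} [NonUnitalCStarAlgebra A] [PartialOrder A] [StarOrderedRing A]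

open Tr

theorem rok_of_s [TopologicalSpace.SeparableSpace A] {G : Type v} [Group G] [Fintype G]
    [Nontrivial G] (α : G →* (A ≃⋆ₐ[ℂ] A))
    (hS : ∀ (F : Finset A) (ε : ℝ), 0 < ε → ∃ s : A, ‖s‖ ≤ 1 ∧
      (∀ a ∈ F, ‖star s * a * s - a‖ < ε) ∧
      ∀ a ∈ F, ∀ g, g ≠ 1 → ‖star s * a * α g s‖ < ε) :
    RokDimLE α 1 := by
  classical
  obtain ⟨s, hs1, hs2, hs3⟩ := exists_seq_s α hS
  have hsc := seq_central hs1 hs2
  have hsmem : (fun n => (s n : Unitization ℂ A)) ∈ RR A := mem_RR_inr ⟨1, hs1⟩ hsc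
  have hsb : ∃ C : ℝ, ∀ n, ‖star (s n)‖ ≤ C := ⟨1, fun n => by rw [norm_star]; exact hs1 n⟩
  set S : RR A := ⟨fun n => (s n : Unitization ℂ A), hsmem⟩ with hSdef
  have hs : star (Ideal.Quotient.mk (II A) S) * Ideal.Quotient.mk (II A) S = 1 := by
    rw [star_mk, ← map_mul, ← map_one (Ideal.Quotient.mk (II A))]
    refine Ideal.Quotient.eq.2 fun a => ?_
    have h1 := (hs2 a).add (bdd_mul_null hsb (hsc a))
    rw [add_zero] at h1
    refine (inr_null h1).congr fun n => ?_
    change _ = (star (s n : Unitization ℂ A) * (s n : Unitization ℂ A) - 1) *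
      (a : Unitization ℂ A)
    simp only [Unitization.inr_sub, Unitization.inr_add, Unitization.inr_mul, Unitization.inr_star,
      mul_sub, sub_mul, one_mul, mul_assoc]
    abel
  have hsg : ∀ g, g ≠ 1 → star (Ideal.Quotient.mk (II A) S) *
      rho (α g) (Ideal.Quotient.mk (II A) S) = 0 := by
    intro g hg
    rw [star_mk, rho_mk, ← map_mul]
    refine Ideal.Quotient.eq_zero_iff_mem.2 fun a => ?_
    have h0 : Tendsto (fun n => α g (s n) * a - a * α g (s n)) atTop (𝓝 0) := by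
      have h1 := hsc ((α g).symm a)
      rw [tendsto_zero_iff_norm_tendsto_zero] at h1 ⊢
      refine h1.congr fun n => ?_
      rw [← norm_act (α g), map_sub, map_mul, map_mul, StarAlgEquiv.apply_symm_apply]
    have h1 := (hs3 g hg a).add (bdd_mul_null hsb h0)
    rw [add_zero] at h1
    refine (inr_null h1).congr fun n => ?_
    change _ = (star (s n : Unitization ℂ A) * Unitization.starMap (R := ℂ)
      (α g : A →⋆ₙₐ[ℂ] A) (s n : Unitization ℂ A)) * (a : Unitization ℂ A)
    rw [Unitization.starMap_inr]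
    change _ = (star (s n : Unitization ℂ A) * ((α g (s n) : A) : Unitization ℂ A)) *
      (a : Unitization ℂ A)
    simp only [Unitization.inr_sub, Unitization.inr_add, Unitization.inr_mul, Unitization.inr_star,
      mul_sub, mul_assoc]
    abel
  refine rok_of_local α 1 fun F ε hε => ?_
  obtain ⟨N, hN0, hN⟩ : ∃ N : ℕ, 0 < N ∧ ∀ a ∈ F, ‖a‖ / N < ε / 2 := by
    obtain ⟨N, hN⟩ := exists_nat_gt ((∑ a ∈ F, ‖a‖) * 2 / ε)
    have hsum : 0 ≤ ∑ a ∈ F, ‖a‖ := Finset.sum_nonneg fun _ _ => norm_nonneg _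
    have hNpos : (0 : ℝ) < N := lt_of_le_of_lt (by positivity) hN
    refine ⟨N, by exact_mod_cast hNpos, fun a ha => ?_⟩
    rw [div_lt_iff₀ hNpos]
    have h1 : ‖a‖ ≤ ∑ a ∈ F, ‖a‖ := Finset.single_le_sum (f := fun a : A => ‖a‖)
      (fun _ _ => norm_nonneg _) ha
    rw [div_lt_iff₀ hε] at hN
    nlinarith
  obtain ⟨q, R, hq1, hq2, hq3, hR1, hR2, hq4⟩ := towers_alg (fun g => rho (α g))
    (fun x => by rw [map_one]; exact rho_one x)
    (fun g h x => by rw [map_mul]; exact rho_mul _ _ x)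
    (Ideal.Quotient.mk (II A) S) hs hsg N hN0
  choose X hX hXmem hXq using fun l g j => exists_lift (q l g j) (hq1 l g j).1 (hq1 l g j).2
  obtain ⟨r, hr, hrmem, hrR⟩ := exists_lift R hR1 hR2
  set x : ℕ → Fin 2 → G → A := fun n l g => (1 / N : ℂ) • ∑ j, X l g j n with hx
  set Y : Fin 2 → G → RR A := fun l g => (1 / N : ℂ) • ∑ j,
    (⟨fun n => (X l g j n : Unitization ℂ A), hXmem l g j⟩ : RR A) with hY
  have hYn : ∀ n l g, ev n (Y l g) = (x n l g : Unitization ℂ A) := by
    intro n l g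
    simp only [hY, hx, map_smul, map_sum, Unitization.inr_smul]
    congr 1
    rw [inr_sum]
    rfl
  have hYmk : ∀ l g, Ideal.Quotient.mk (II A) (Y l g) = (1 / N : ℂ) • ∑ j, q l g j := by
    intro l g
    have h1 : Ideal.Quotient.mk (II A) (Y l g) = (1 / N : ℂ) • Ideal.Quotient.mk (II A) (∑ j,
      (⟨fun n => (X l g j n : Unitization ℂ A), hXmem l g j⟩ : RR A)) := rfl
    rw [h1, map_sum]
    congr 1
    exact Finset.sum_congr rfl fun j _ => hXq l g j
  have hN' : (N : ℂ) ≠ 0 := by exact_mod_cast hN0.ne'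
  have hNr : (0 : ℝ) < N := by exact_mod_cast hN0
  have hnormN : ‖(1 / N : ℂ)‖ = 1 / N := by simp
  have hx0 : ∀ n l g, 0 ≤ x n l g := by
    intro n l g
    have : (0 : ℂ) ≤ 1 / N := by simp
    exact smul_nonneg this (Finset.sum_nonneg fun j _ => (hX l g j n).1)
  have hx1 : ∀ n l g, ‖x n l g‖ ≤ 1 := by
    intro n l g
    rw [hx]
    simp only
    rw [norm_smul, hnormN]
    have : ‖∑ j, X l g j n‖ ≤ N := by
      calc ‖∑ j, X l g j n‖ ≤ ∑ j, ‖X l g j n‖ := norm_sum_le _ _
        _ ≤ ∑ _j : Fin N, (1 : ℝ) := Finset.sum_le_sum fun j _ => (hX l g j n).2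
        _ = N := by simp
    calc 1 / (N : ℝ) * ‖∑ j, X l g j n‖ ≤ 1 / (N : ℝ) * N := by gcongr
      _ = 1 := by field_simp
  -- the four limits
  have c1 : ∀ a : A, ∀ l g, Tendsto (fun n => x n l g * a - a * x n l g) atTop (𝓝 0) := by
    intro a l g
    apply null_inr
    refine (RRcentral (Y l g) a).congr fun n => ?_
    rw [← ev_apply, hYn]
    simp only [Unitization.inr_sub, Unitization.inr_mul]
  have c2 : ∀ a : A, ∀ l g h, Tendsto (fun n => (α g (x n l h) - x n l (g * h)) * a)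
      atTop (𝓝 0) := by
    intro a l g h
    have h1 : Ideal.Quotient.mk (II A) (seqMap (α g) (Y l h)) =
        Ideal.Quotient.mk (II A) (Y l (g * h)) := by
      rw [← rho_mk, hYmk, hYmk, map_smul, map_sum]
      congr 1
      exact Finset.sum_congr rfl fun j _ => hq2 l h g j
    apply null_inr
    refine (null_of_mk_eq h1 a).congr fun n => ?_
    rw [hYn, ev_apply, seqMap_apply, ← ev_apply, hYn, Unitization.starMap_inr]
    simp only [Unitization.inr_sub, Unitization.inr_mul]
    rfl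
  have c3 : ∀ a : A, ∀ l g h, g ≠ h → Tendsto (fun n => x n l g * x n l h * a)
      atTop (𝓝 0) := by
    intro a l g h hgh
    have h1 : Ideal.Quotient.mk (II A) (Y l g * Y l h) = Ideal.Quotient.mk (II A) 0 := by
      rw [map_mul, hYmk, hYmk, map_zero, smul_mul_smul_comm, Finset.sum_mul_sum]
      rw [Finset.sum_eq_zero, smul_zero]
      intro i _
      exact Finset.sum_eq_zero fun j _ => hq3 l g h i j hgh
    apply null_inr
    refine (null_of_mk_eq h1 a).congr fun n => ?_
    rw [map_mul, hYn, hYn, map_zero, sub_zero]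
    simp only [Unitization.inr_mul]
  have c4 : ∀ a : A, Tendsto (fun n => (∑ l, ∑ g, x n l g) * a - a -
      (1 / N : ℂ) • (r n * a)) atTop (𝓝 0) := by
    intro a
    have h1 : Ideal.Quotient.mk (II A) (∑ l, ∑ g, Y l g) = Ideal.Quotient.mk (II A)
        (1 + (1 / N : ℂ) • (⟨fun n => (r n : Unitization ℂ A), hrmem⟩ : RR A)) := by
      have h2 : Ideal.Quotient.mk (II A)
        (1 + (1 / N : ℂ) • (⟨fun n => (r n : Unitization ℂ A), hrmem⟩ : RR A)) =
        1 + (1 / N : ℂ) • R := by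
        rw [map_add, map_one, ← hrR]
        rfl
      rw [h2, map_sum]
      simp only [map_sum, hYmk, ← Finset.smul_sum]
      rw [hq4, smul_add]
      congr 1
      have h3 : (N : QQ A) = (N : ℂ) • (1 : QQ A) := by
        rw [← Algebra.algebraMap_eq_smul_one, map_natCast]
      rw [h3, smul_smul, one_div, inv_mul_cancel₀ hN', one_smul]
    apply null_inr
    refine (null_of_mk_eq h1 a).congr fun n => ?_
    simp only [map_sum, map_add, map_one, map_smul, hYn]
    rw [ev_apply]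
    simp only [Unitization.inr_sub, Unitization.inr_mul, Unitization.inr_smul]
    rw [inr_sum]
    simp only [inr_sum]
    rw [sub_mul, add_mul, one_mul, smul_mul_assoc, sub_add_eq_sub_sub]
  -- choose `n`
  have e1 : ∀ {T : ℕ → A}, Tendsto T atTop (𝓝 0) → ∀ᶠ n in atTop, ‖T n‖ < ε / 2 := by
    intro T hT
    exact (tendsto_zero_iff_norm_tendsto_zero.1 hT).eventually (gt_mem_nhds (by positivity))
  have E : ∀ᶠ n in atTop, ∀ a ∈ F, (∀ l g, ‖x n l g * a - a * x n l g‖ < ε / 2) ∧
        (∀ l g h, ‖(α g (x n l h) - x n l (g * h)) * a‖ < ε / 2) ∧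
        (∀ l g h, g ≠ h → ‖x n l g * x n l h * a‖ < ε / 2) ∧
        ‖(∑ l, ∑ g, x n l g) * a - a - (1 / N : ℂ) • (r n * a)‖ < ε / 2 := by
    rw [Filter.eventually_all_finset]
    intro a _
    refine Eventually.and ?_ (Eventually.and ?_ (Eventually.and ?_ ?_))
    · rw [Filter.eventually_all]
      intro l
      rw [Filter.eventually_all]
      intro g
      exact e1 (c1 a l g)
    · rw [Filter.eventually_all]
      intro l
      rw [Filter.eventually_all]
      intro g
      rw [Filter.eventually_all]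
      intro h
      exact e1 (c2 a l g h)
    · rw [Filter.eventually_all]
      intro l
      rw [Filter.eventually_all]
      intro g
      rw [Filter.eventually_all]
      intro h
      rw [Filter.eventually_imp_distrib_left]
      intro hgh
      exact e1 (c3 a l g h hgh)
    · exact e1 (c4 a)
  obtain ⟨n, hn⟩ := E.exists
  refine ⟨x n, fun l g => ⟨hx0 n l g, hx1 n l g⟩, fun a ha => ?_⟩
  obtain ⟨h1, h2, h3, h4⟩ := hn a ha
  refine ⟨fun l g => (h1 l g).trans (by linarith), fun l g h => (h2 l g h).trans (by linarith),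
    fun l g h hgh => (h3 l g h hgh).trans (by linarith), ?_⟩
  have h5 : ‖(1 / N : ℂ) • (r n * a)‖ < ε / 2 := by
    refine lt_of_le_of_lt ?_ (hN a ha)
    have h6 : ‖r n * a‖ ≤ ‖a‖ := by
      calc ‖r n * a‖ ≤ ‖r n‖ * ‖a‖ := norm_mul_le _ _
        _ ≤ 1 * ‖a‖ := by
          gcongr
          exact (hr n).2
        _ = ‖a‖ := one_mul _
    rw [norm_smul, hnormN]
    calc 1 / (N : ℝ) * ‖r n * a‖ ≤ 1 / (N : ℝ) * ‖a‖ := by gcongr
      _ = ‖a‖ / N := by ring
  calc ‖(∑ l, ∑ g, x n l g) * a - a‖ = ‖((∑ l, ∑ g, x n l g) * a - a -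
        (1 / N : ℂ) • (r n * a)) + (1 / N : ℂ) • (r n * a)‖ := by rw [sub_add_cancel]
    _ ≤ ‖(∑ l, ∑ g, x n l g) * a - a - (1 / N : ℂ) • (r n * a)‖ +
        ‖(1 / N : ℂ) • (r n * a)‖ := norm_add_le _ _
    _ < ε / 2 + ε / 2 := add_lt_add h4 h5
    _ = ε := by ring

end K_Rok

end Pool.Agent.helper23.RK
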