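import Pool.Agent.helper23.RK.Kish
import Pool.Agent.helper23.RK.ExistsS
import Pool.Agent.helper23.RK.Transfer
import Pool.Agent.helper25.RK.Converse

/-!
# Outerness and Rokhlin dimension on Kirchberg algebras
-/

open Filter Topology
open scoped CStarAlgebra ComplexOrder MultiplierAlgebra

namespace Pool.Agent.helper23.RK

universe u v

variable {A : Type u} [NonUnitalCStarAlgebra A] [PartialOrder A] [StarOrderedRing A]

theorem rok_of_outer [TopologicalSpace.SeparableSpace A] (hs : IsSimple A) (hn : IsNuclear A)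
    (hp : IsPurelyInfinite A) {G : Type v} [Group G] [Fintype G] (α : G →* (A ≃⋆ₐ[ℂ] A))
    (hα : PointwiseOuter α) : RokDimLE α 1 := by
  classical
  cases subsingleton_or_nontrivial G with
  | inl h => exact rok_of_subsingleton α
  | inr h =>
    have hK : ∀ g : {g : G // g ≠ 1}, KStep (α g.1) := by
      rintro ⟨g, hg⟩
      have hord : 0 < orderOf g := orderOf_pos g
      have h2 : 2 ≤ orderOf g := by
        have : orderOf g ≠ 1 := by simpa [orderOf_eq_one_iff] using hg
        omega
      refine kStep_of_outer hs (α g) (orderOf g) h2 ?_ ?_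
      · rw [← map_pow, pow_orderOf_eq_one, map_one]
      · intro j hj0 hjn
        rw [← map_pow]
        exact hα _ (pow_ne_one_of_lt_orderOf hj0.ne' hjn)
    obtain ⟨⟨a, ha⟩, -⟩ := id hs
    obtain ⟨e, he, hen⟩ : ∃ e : A, 0 ≤ e ∧ ‖e‖ = 1 := by
      have h0 : star a * a ≠ 0 := by
        intro h
        exact ha (CStarRing.star_mul_self_eq_zero_iff a |>.mp h)
      refine ⟨((‖star a * a‖⁻¹ : ℝ) : ℂ) • (star a * a), ?_, ?_⟩
      · have : (0 : ℂ) ≤ ((‖star a * a‖⁻¹ : ℝ) : ℂ) := by
          exact_mod_cast inv_nonneg.mpr (norm_nonneg _)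
        exact smul_nonneg this (star_mul_self_nonneg a)
      · rw [norm_smul]
        simp [norm_ne_zero_iff.mpr h0]
    obtain ⟨f, φ, hE, hf⟩ := exists_excSeq_outer (fun g : {g : G // g ≠ 1} => α g.1) hK e he hen
    exact rok_of_s α (exists_s hs hn hp α f φ hE (fun g hg b => hf ⟨g, hg⟩ b))

end Pool.Agent.helper23.RK
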