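import Mathlib

/-!
# A consequence of the Toeplitz-Hausdorff theorem (module D)
-/

namespace Pool.Agent.helper23.RK

universe v

variable {H : Type v} [NormedAddCommGroup H] [InnerProductSpace ℂ H]

/-- There is a unit complex number `z` making `z * a + conj z * b` real. -/
theorem exists_unit_real (a b : ℂ) : ∃ z : ℂ, ‖z‖ = 1 ∧ (z * a + (starRingEnd ℂ z) * b).im = 0 := by
  -- `im (z a + conj z b) = im (z (a - conj b))`
  set c : ℂ := a - starRingEnd ℂ b with hc
  have key : ∀ z : ℂ, (z * a + (starRingEnd ℂ z) * b).im = (z * c).im := by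
    intro z
    rw [hc]
    simp [Complex.mul_im, Complex.add_im, Complex.sub_re, Complex.sub_im]
    ring
  by_cases h0 : c = 0
  · exact ⟨1, by simp, by rw [key, h0]; simp⟩
  · refine ⟨starRingEnd ℂ c / ‖c‖, ?_, ?_⟩
    · rw [norm_div, Complex.norm_conj, Complex.norm_real, norm_norm]
      field_simp
    · rw [key]
      have : starRingEnd ℂ c / ‖c‖ * c = ((‖c‖ : ℝ) : ℂ) := by
        rw [div_mul_eq_mul_div, Complex.conj_mul', pow_two, mul_div_assoc]
        have : (‖c‖ : ℂ) ≠ 0 := by exact_mod_cast (norm_ne_zero_iff.mpr h0)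
        field_simp
      rw [this, Complex.ofReal_im]

/-- Two-dimensional step of the Toeplitz-Hausdorff theorem, homogeneous form: if the form
`q v = ⟨v, T v⟩` takes the value `0` at a nonzero `x` and the value `‖y‖²` at `y`, then for each
`t ∈ [0,1]` there is a nonzero `v` in the span with `q v = t ‖v‖²`. -/
theorem exists_value (K : Submodule ℂ H) (q : H → ℂ) (B : H → H → ℂ)
    (hq : ∀ (s : ℝ) (z : ℂ) (x y : H), q ((s : ℂ) • x + z • y) =
      s ^ 2 * q x + s * (z * B x y + starRingEnd ℂ z * B y x) + ‖z‖ ^ 2 * q y)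
    (x y : H) (hx : x ∈ K) (hy : y ∈ K) (hx1 : ‖x‖ = 1) (hy1 : ‖y‖ = 1) (hqx : q x = 0)
    (hqy : q y = 1) (t : ℝ) (ht0 : 0 ≤ t) (ht1 : t ≤ 1) :
    ∃ v ∈ K, v ≠ 0 ∧ q v = (t * ‖v‖ ^ 2 : ℝ) := by
  obtain ⟨z, hz, him⟩ := exists_unit_real (B x y) (B y x)
  have hlin : ∀ u w : ℝ, (u : ℂ) • x + ((w : ℂ) * z) • y = 0 → u = 0 ∧ w = 0 := by
    intro u w h
    have h1 := hq u ((w : ℂ) * z) x y
    have h2 : (starRingEnd ℂ) ((w : ℂ) * z) = w * starRingEnd ℂ z := by simp
    have hq0 : q 0 = 0 := by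
      have := hq 0 0 x y
      simpa using this
    by_cases hw : w = 0
    · refine ⟨?_, hw⟩
      rw [hw] at h
      simp only [Complex.ofReal_zero, zero_mul, zero_smul, add_zero, smul_eq_zero] at h
      rcases h with h | h
      · exact_mod_cast h
      · rw [h, norm_zero] at hx1
        norm_num at hx1
    · exfalso
      -- then `y` is a multiple of `x` and `q y = 0`
      have hy2 : y = (-(u / w) / z : ℂ) • x := by
        have hz0 : z ≠ 0 := by
          intro h0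
          rw [h0, norm_zero] at hz
          norm_num at hz
        have hwc : (w : ℂ) ≠ 0 := by exact_mod_cast hw
        have h3 : ((w : ℂ) * z) • y = -((u : ℂ) • x) := by
          rw [eq_neg_iff_add_eq_zero, add_comm]
          exact h
        have h4 : y = ((w : ℂ) * z)⁻¹ • (-((u : ℂ) • x)) := by
          rw [← h3, smul_smul, inv_mul_cancel₀ (mul_ne_zero hwc hz0), one_smul]
        rw [h4, smul_neg, smul_smul, ← neg_smul]
        congr 1
        field_simp
      have h5 : q y = 0 := by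
        have := hq 0 (-(u / w) / z : ℂ) x x
        rw [Complex.ofReal_zero, zero_smul, zero_add, ← hy2, hqx] at this
        simpa using this
      rw [hqy] at h5
      norm_num at h5
  -- the real function
  let v : ℝ → H := fun s => ((1 - s : ℝ) : ℂ) • x + ((s : ℂ) * z) • y
  have hv : ∀ s, q (v s) = (((1 - s) * s * (z * B x y + starRingEnd ℂ z * B y x).re + s ^ 2 : ℝ) : ℂ) := by
    intro s
    have h1 := hq (1 - s) ((s : ℂ) * z) x y
    have h3 : z * B x y + starRingEnd ℂ z * B y x =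
        (((z * B x y + starRingEnd ℂ z * B y x).re : ℝ) : ℂ) := by
      apply Complex.ext
      · simp
      · rw [him, Complex.ofReal_im]
    rw [hqx, hqy] at h1
    simp only [v]
    rw [h1]
    have h2 : (starRingEnd ℂ) ((s : ℂ) * z) = s * starRingEnd ℂ z := by simp
    have h4 : (s : ℂ) * z * B x y + (starRingEnd ℂ) ((s : ℂ) * z) * B y x =
        s * (((z * B x y + starRingEnd ℂ z * B y x).re : ℝ) : ℂ) := by
      rw [← h3, h2]
      ring
    rw [h4]
    rw [norm_mul, hz, Complex.norm_real]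
    push_cast
    rw [Real.norm_eq_abs]
    norm_cast
    simp only [mul_one, sq_abs]
    ring
  set r : ℝ := (z * B x y + starRingEnd ℂ z * B y x).re with hr
  have hcont : Continuous fun s : ℝ => ((1 - s) * s * r + s ^ 2) - t * ‖v s‖ ^ 2 := by
    simp only [v]
    fun_prop
  have h0 : ((1 - (0:ℝ)) * 0 * r + 0 ^ 2) - t * ‖v 0‖ ^ 2 ≤ 0 := by
    simp [v, hx1]
    exact ht0
  have h1 : 0 ≤ ((1 - (1:ℝ)) * 1 * r + 1 ^ 2) - t * ‖v 1‖ ^ 2 := by
    have : ‖v 1‖ = 1 := by
      simp only [v, sub_self, Complex.ofReal_zero, zero_smul, zero_add, Complex.ofReal_one, one_mul]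
      rw [norm_smul, hz, hy1, one_mul]
    rw [this]
    nlinarith
  obtain ⟨s, -, hs⟩ := intermediate_value_Icc (zero_le_one' ℝ) hcont.continuousOn ⟨h0, h1⟩
  refine ⟨v s, K.add_mem (K.smul_mem _ hx) (K.smul_mem _ hy), ?_, ?_⟩
  · intro h
    obtain ⟨h2, h3⟩ := hlin (1 - s) s h
    linarith
  · rw [hv s]
    have hs' : (1 - s) * s * r + s ^ 2 = t * ‖v s‖ ^ 2 := by
      have : ((1 - s) * s * r + s ^ 2) - t * ‖v s‖ ^ 2 = 0 := hs
      linarith
    rw [hs']

/-- the numerical range of `T` on `K` -/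
def numRange (K : Submodule ℂ H) (T : H →L[ℂ] H) : Set ℂ :=
  {w | ∃ v ∈ K, ‖v‖ = 1 ∧ w = inner ℂ v (T v)}

theorem convex_numRange (K : Submodule ℂ H) (T : H →L[ℂ] H) : Convex ℝ (numRange K T) := by
  rw [convex_iff_forall_pos]
  rintro w₁ ⟨x, hx, hx1, rfl⟩ w₂ ⟨y, hy, hy1, rfl⟩ a b ha hb hab
  set p : ℂ := inner ℂ x (T x) with hp
  set p' : ℂ := inner ℂ y (T y) with hp'
  by_cases hpp : p' = p
  · rw [hpp, ← add_smul, hab, one_smul]
    exact ⟨x, hx, hx1, hp⟩
  have hd : p' - p ≠ 0 := sub_ne_zero.mpr hpp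
  -- normalised form
  let q : H → ℂ := fun v => (inner ℂ v (T v) - p * ‖v‖ ^ 2) / (p' - p)
  let B : H → H → ℂ := fun v w => (inner ℂ v (T w) - p * inner ℂ v w) / (p' - p)
  have hnorm : ∀ v : H, ((‖v‖ : ℂ)) ^ 2 = inner ℂ v v := by
    intro v
    rw [inner_self_eq_norm_sq_to_K]
    rfl
  have hq : ∀ (s : ℝ) (z : ℂ) (x y : H), q ((s : ℂ) • x + z • y) =
      s ^ 2 * q x + s * (z * B x y + starRingEnd ℂ z * B y x) + ‖z‖ ^ 2 * q y := by
    intro s z x y
    simp only [q, B, hnorm, map_add, map_smul, inner_add_left, inner_add_right, inner_smul_left,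
      inner_smul_right, Complex.conj_ofReal]
    have : ((‖z‖ : ℂ)) ^ 2 = starRingEnd ℂ z * z := by
      rw [Complex.conj_mul']
    rw [this]
    field_simp
    ring
  obtain ⟨v, hvK, hv0, hv⟩ := exists_value K q B hq x y hx hy hx1 hy1
    (by simp [q, hx1, ← hp]) (by
      simp only [q, hy1, ← hp']
      rw [Complex.ofReal_one, one_pow, mul_one]
      exact div_self hd) b hb.le (by linarith)
  have hvn : ‖v‖ ≠ 0 := norm_ne_zero_iff.mpr hv0
  refine ⟨((‖v‖⁻¹ : ℝ) : ℂ) • v, K.smul_mem _ hvK, ?_, ?_⟩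
  · rw [norm_smul, Complex.norm_real, norm_inv, norm_norm, inv_mul_cancel₀ hvn]
  · have h1 : inner ℂ v (T v) = (p + b * (p' - p)) * ‖v‖ ^ 2 := by
      simp only [q] at hv
      rw [div_eq_iff hd] at hv
      push_cast at hv
      linear_combination hv
    rw [map_smul, inner_smul_left, inner_smul_right, h1, Complex.conj_ofReal]
    have hab' : a = 1 - b := by linarith
    have hvc : (‖v‖ : ℂ) ≠ 0 := by exact_mod_cast hvn
    rw [hab']
    simp only [Complex.real_smul]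
    push_cast
    field_simp
    ring

theorem exists_phase (K : Submodule ℂ H) (T : H →L[ℂ] H) (κ : ℝ) (hκ : 0 < κ)
    (h : ∀ v ∈ K, κ * ‖v‖ ^ 2 ≤ ‖(inner ℂ v (T v) : ℂ)‖) :
    ∃ ζ : ℂ, ‖ζ‖ = 1 ∧ ∀ v ∈ K, κ * ‖v‖ ^ 2 ≤ (ζ * inner ℂ v (T v)).re := by
  have hdisj : Disjoint (Metric.ball (0 : ℂ) κ) (numRange K T) := by
    rw [Set.disjoint_left]
    rintro w hw ⟨v, hv, hv1, rfl⟩
    have h1 := h v hv
    rw [hv1] at h1
    rw [mem_ball_zero_iff] at hw
    linarith
  obtain ⟨F, u, hF1, hF2⟩ := geometric_hahn_banach_open (convex_ball (0 : ℂ) κ)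
    Metric.isOpen_ball (convex_numRange K T) hdisj
  -- the real functional `F`
  by_cases hempty : ∃ v ∈ K, v ≠ 0
  swap
  · push Not at hempty
    refine ⟨1, by simp, fun v hv => ?_⟩
    rw [hempty v hv]
    simp
  set c : ℂ := ⟨F 1, -F Complex.I⟩ with hc
  have hFc : ∀ w : ℂ, F w = (c * w).re := by
    intro w
    have : w = w.re • (1 : ℂ) + w.im • Complex.I := by
      apply Complex.ext <;> simp
    conv_lhs => rw [this]
    rw [map_add, map_smul, map_smul, hc]
    simp [Complex.mul_re]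
    ring
  have hu : 0 < u := by
    have := hF1 0 (Metric.mem_ball_self hκ)
    simpa using this
  have hc0 : c ≠ 0 := by
    intro h0
    obtain ⟨v, hv, hv0⟩ := hempty
    have hvn : ‖v‖ ≠ 0 := norm_ne_zero_iff.mpr hv0
    have := hF2 _ ⟨((‖v‖⁻¹ : ℝ) : ℂ) • v, K.smul_mem _ hv, by
      rw [norm_smul, Complex.norm_real, norm_inv, norm_norm, inv_mul_cancel₀ hvn], rfl⟩
    rw [hFc, h0, zero_mul, Complex.zero_re] at this
    linarith
  have hcn : 0 < ‖c‖ := norm_pos_iff.mpr hc0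
  have hcκ : ‖c‖ * κ ≤ u := by
    -- points of the ball in the direction of `conj c`
    have hlim : ∀ s : ℝ, 0 ≤ s → s < κ → ‖c‖ * s ≤ u := by
      intro s hs0 hs
      have h1 := hF1 ((s : ℂ) * (starRingEnd ℂ c / ‖c‖)) (by
        rw [mem_ball_zero_iff, norm_mul, norm_div, Complex.norm_conj, Complex.norm_real,
          Complex.norm_real, norm_norm, div_self hcn.ne', mul_one, Real.norm_eq_abs,
          abs_of_nonneg hs0]
        exact hs)
      rw [hFc] at h1
      have h2 : c * ((s : ℂ) * (starRingEnd ℂ c / ‖c‖)) = ((‖c‖ * s : ℝ) : ℂ) := by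
        have h3 : c * starRingEnd ℂ c = (‖c‖ : ℂ) ^ 2 := Complex.mul_conj' c
        have h4 : (‖c‖ : ℂ) ≠ 0 := by exact_mod_cast hcn.ne'
        have h5 : c * ((s : ℂ) * (starRingEnd ℂ c / ‖c‖)) =
            s * (c * starRingEnd ℂ c) / ‖c‖ := by ring
        rw [h5, h3]
        push_cast
        field_simp
      rw [h2, Complex.ofReal_re] at h1
      exact h1.le
    by_contra hcon
    push Not at hcon
    have h6 : u / ‖c‖ < κ := by
      rw [div_lt_iff₀ hcn]
      linarith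
    obtain ⟨s, hs1, hs2⟩ := exists_between h6
    have h7 := hlim s (by
      have : 0 < u / ‖c‖ := by positivity
      linarith) hs2
    rw [div_lt_iff₀ hcn] at hs1
    linarith
  refine ⟨c / ‖c‖, ?_, ?_⟩
  · rw [norm_div, Complex.norm_real, norm_norm, div_self hcn.ne']
  · intro v hv
    by_cases hv0 : v = 0
    · rw [hv0]
      simp
    have hvn : ‖v‖ ≠ 0 := norm_ne_zero_iff.mpr hv0
    have h1 := hF2 _ ⟨((‖v‖⁻¹ : ℝ) : ℂ) • v, K.smul_mem _ hv, by
      rw [norm_smul, Complex.norm_real, norm_inv, norm_norm, inv_mul_cancel₀ hvn], rfl⟩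
    rw [hFc, map_smul, inner_smul_left, inner_smul_right, Complex.conj_ofReal] at h1
    have h2 : (c * (((‖v‖⁻¹ : ℝ) : ℂ) * (((‖v‖⁻¹ : ℝ) : ℂ) * inner ℂ v (T v)))).re =
        (‖v‖⁻¹) ^ 2 * (c * inner ℂ v (T v)).re := by
      have : c * (((‖v‖⁻¹ : ℝ) : ℂ) * (((‖v‖⁻¹ : ℝ) : ℂ) * inner ℂ v (T v))) =
          (((‖v‖⁻¹) ^ 2 : ℝ) : ℂ) * (c * inner ℂ v (T v)) := by
        push_cast
        ring
      rw [this, Complex.re_ofReal_mul]
    rw [h2] at h1
    have h3 : (c / ‖c‖ * inner ℂ v (T v)).re = ‖c‖⁻¹ * (c * inner ℂ v (T v)).re := by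
      have : c / ‖c‖ * inner ℂ v (T v) = ((‖c‖⁻¹ : ℝ) : ℂ) * (c * inner ℂ v (T v)) := by
        push_cast
        ring
      rw [this, Complex.re_ofReal_mul]
    rw [h3]
    have hvp : 0 < ‖v‖ := norm_pos_iff.mpr hv0
    have h4 : u * ‖v‖ ^ 2 ≤ (c * inner ℂ v (T v)).re := by
      have h5 : (c * inner ℂ v (T v)).re = ‖v‖ ^ 2 * ((‖v‖⁻¹) ^ 2 * (c * inner ℂ v (T v)).re) := by
        field_simp
      rw [h5, mul_comm]
      gcongr
    rw [inv_mul_eq_div, le_div_iff₀ hcn]
    calc κ * ‖v‖ ^ 2 * ‖c‖ = (‖c‖ * κ) * ‖v‖ ^ 2 := by ring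
      _ ≤ u * ‖v‖ ^ 2 := by gcongr
      _ ≤ _ := h4

end Pool.Agent.helper23.RK
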