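import Pool.Agent.helper23.RK.Seq
import Pool.Agent.helper23.RK.Gns
import Pool.Agent.helper23.RK.NumRange
import Pool.Agent.helper23.RK.Cross
import Pool.Agent.helper23.RK.CrossPos

/-!
# Kishimoto's condition from outerness (module F)
-/

open Filter Topology
open scoped CStarAlgebra ComplexOrder MultiplierAlgebra

namespace Pool.Agent.helper23.RK

universe u v

variable {A : Type u} [NonUnitalCStarAlgebra A]
variable {H : Type v} [NormedAddCommGroup H] [InnerProductSpace ℂ H] [CompleteSpace H]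

/-- A nonzero representation of a simple C*-algebra is injective. -/
theorem injective_of_simple (hs : IsSimple A) (π : A →⋆ₙₐ[ℂ] (H →L[ℂ] H))
    (c₀ : A) (hc₀ : π c₀ ≠ 0) : Function.Injective π := by
  have hcont : Continuous π := by
    apply AddMonoidHomClass.continuous_of_bound π 1
    intro x
    simpa using NonUnitalStarAlgHom.norm_apply_le π x
  let I : Submodule ℂ A :=
    { carrier := {a | π a = 0}
      add_mem' := by
        intro a b ha hb
        simp only [Set.mem_ofPred_eq] at *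
        rw [map_add, ha, hb, add_zero]
      zero_mem' := map_zero π
      smul_mem' := by
        intro z a ha
        simp only [Set.mem_ofPred_eq] at *
        rw [map_smul, ha, smul_zero] }
  have hI : IsClosed (I : Set A) := isClosed_eq hcont continuous_const
  have h2 := hs.2 I hI (by
    intro a b ha
    have ha' : π a = 0 := ha
    constructor
    · change π (b * a) = 0
      rw [map_mul, ha', mul_zero]
    · change π (a * b) = 0
      rw [map_mul, ha', zero_mul])
  rcases h2 with h | h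
  · rw [injective_iff_map_eq_zero]
    intro a ha
    have : a ∈ I := ha
    rw [h] at this
    simpa using this
  · exfalso
    apply hc₀
    have : c₀ ∈ I := by rw [h]; trivial
    exact this

/-- In a covariant representation in which the coefficients are unique, the numerical range of
`a U` on the range of `e₁` comes close to `0`. -/
theorem exists_small_vector [PartialOrder A] [StarOrderedRing A]
    (π : A →⋆ₙₐ[ℂ] (H →L[ℂ] H)) (α : A ≃⋆ₐ[ℂ] A) (n : ℕ) (hn : 2 ≤ n) (hα : α ^ n = 1)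
    (U : H →L[ℂ] H) (hU : U ∈ unitary (H →L[ℂ] H)) (hUn : U ^ n = 1)
    (hUπ : ∀ c, U * π c = π (α c) * U)
    (hinj : ∀ t : ℕ → A, ∑ j ∈ Finset.range n, π (t j) * U ^ j = 0 → ∀ j < n, t j = 0)
    (a e₁ : A) (he₁ : 0 ≤ e₁) (he₁n : ‖e₁‖ = 1) (κ : ℝ) (hκ : 0 < κ) :
    ∃ v : H, ‖(inner ℂ (π e₁ v) (π a (U (π e₁ v))) : ℂ)‖ < κ * ‖π e₁ v‖ ^ 2 := by
  by_contra hcon
  push Not at hcon
  have hsa : star e₁ = e₁ := (IsSelfAdjoint.of_nonneg he₁).star_eq
  obtain ⟨ζ, hζ, hK⟩ := exists_phase (LinearMap.range (π e₁ : H →ₗ[ℂ] H)) (π a * U) κ hκ (by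
    rintro _ ⟨v, rfl⟩
    exact hcon v)
  -- the coefficients
  set b : A := e₁ * a * α e₁ with hb
  have hUs : star U = U ^ (n - 1) := by
    have h1 : U ^ (n - 1) * U = 1 := by
      rw [← pow_succ, Nat.sub_add_cancel (by omega), hUn]
    calc star U = (U ^ (n - 1) * U) * star U := by rw [h1, one_mul]
      _ = U ^ (n - 1) * (U * star U) := by rw [mul_assoc]
      _ = U ^ (n - 1) := by rw [(Unitary.mem_iff.mp hU).2, mul_one]
  have hbU : π e₁ * π a * U * π e₁ = π b * U := by
    rw [hb, map_mul, map_mul, mul_assoc (π e₁ * π a), hUπ, mul_assoc (π e₁ * π a)]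
  have hbU' : star (π b * U) = π (α.symm (star b)) * U ^ (n - 1) := by
    rw [star_mul, ← map_star]
    have h2 : U * π (α.symm (star b)) = π (star b) * U := by
      rw [hUπ, StarAlgEquiv.apply_symm_apply]
    calc star U * π (star b) = star U * (π (star b) * U) * star U := by
          rw [mul_assoc, mul_assoc, (Unitary.mem_iff.mp hU).2, mul_one]
      _ = (star U * U) * π (α.symm (star b)) * star U := by rw [← h2, ← mul_assoc]
      _ = π (α.symm (star b)) * U ^ (n - 1) := by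
          rw [(Unitary.mem_iff.mp hU).1, one_mul, hUs]
  let t : ℕ → A := fun j =>
    (if j = 0 then (-(2 * κ : ℝ) : ℂ) • (e₁ * e₁) else 0) +
      ((if j = 1 then ζ • b else 0) +
      (if j = n - 1 then (starRingEnd ℂ ζ) • α.symm (star b) else 0))
  have hsum : ∑ j ∈ Finset.range n, π (t j) * U ^ j =
      (-(2 * κ : ℝ) : ℂ) • (π e₁ * π e₁) + (ζ • (π b * U) + star (ζ • (π b * U))) := by
    have e0 : ∑ j ∈ Finset.range n,
        π (if j = 0 then (-(2 * κ : ℝ) : ℂ) • (e₁ * e₁) else 0) * U ^ j =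
        (-(2 * κ : ℝ) : ℂ) • (π e₁ * π e₁) := by
      rw [Finset.sum_eq_single 0]
      · simp
      · intro j _ hj
        simp [hj]
      · intro h
        simp at h
        omega
    have e1 : ∑ j ∈ Finset.range n, π (if j = 1 then ζ • b else 0) * U ^ j =
        ζ • (π b * U) := by
      rw [Finset.sum_eq_single 1]
      · simp
      · intro j _ hj
        simp [hj]
      · intro h
        simp at h
        omega
    have e2 : ∑ j ∈ Finset.range n,
        π (if j = n - 1 then (starRingEnd ℂ ζ) • α.symm (star b) else 0) * U ^ j =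
        star (ζ • (π b * U)) := by
      rw [Finset.sum_eq_single (n - 1)]
      · rw [star_smul, hbU']
        simp
      · intro j _ hj
        simp [hj]
      · intro h
        simp at h
        omega
    rw [← e1, ← e0]
    rw [e1, ← e2, ← e1, ← Finset.sum_add_distrib, ← Finset.sum_add_distrib]
    refine Finset.sum_congr rfl fun j _ => ?_
    simp only [t, map_add, add_mul]
  have hpos : 0 ≤ ∑ j ∈ Finset.range n, π (t j) * U ^ j := by
    rw [hsum, ContinuousLinearMap.nonneg_iff_isPositive,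
      ContinuousLinearMap.isPositive_iff_complex]
    intro v
    have hk := hK (π e₁ v) ⟨v, rfl⟩
    have hadj : ∀ x y : H, (inner ℂ (π e₁ x) y : ℂ) = inner ℂ x (π e₁ y) := by
      intro x y
      have : ContinuousLinearMap.adjoint (π e₁) = π e₁ := by
        rw [← ContinuousLinearMap.star_eq_adjoint, ← map_star, hsa]
      rw [← ContinuousLinearMap.adjoint_inner_right, this]
    have hx : (inner ℂ v ((π b * U) v) : ℂ) = inner ℂ (π e₁ v) ((π a * U) (π e₁ v)) := by
      rw [← hbU, hadj]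
      rfl
    have hvv : (inner ℂ v ((π e₁ * π e₁) v) : ℂ) = ((‖π e₁ v‖ ^ 2 : ℝ) : ℂ) := by
      rw [mul_apply_eq_comp, ← hadj, inner_self_eq_norm_sq_to_K]
      norm_cast
    set w : ℂ := ζ * inner ℂ v ((π b * U) v) with hw
    have key : (inner ℂ (((-(2 * κ : ℝ) : ℂ) • (π e₁ * π e₁) +
        (ζ • (π b * U) + star (ζ • (π b * U)))) v) v : ℂ) =
        ((-(2 * κ) * ‖π e₁ v‖ ^ 2 + 2 * w.re : ℝ) : ℂ) := by
      have hconj : (inner ℂ (((-(2 * κ : ℝ) : ℂ) • (π e₁ * π e₁) +
        (ζ • (π b * U) + star (ζ • (π b * U)))) v) v : ℂ) =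
          starRingEnd ℂ (inner ℂ v (((-(2 * κ : ℝ) : ℂ) • (π e₁ * π e₁) +
        (ζ • (π b * U) + star (ζ • (π b * U)))) v)) := (inner_conj_symm _ _).symm
      have hcalc : (inner ℂ v (((-(2 * κ : ℝ) : ℂ) • (π e₁ * π e₁) +
        (ζ • (π b * U) + star (ζ • (π b * U)))) v) : ℂ) =
          ((-(2 * κ) * ‖π e₁ v‖ ^ 2 + 2 * w.re : ℝ) : ℂ) := by
        have h3 : (inner ℂ v ((star (ζ • (π b * U))) v) : ℂ) = starRingEnd ℂ w := by
          rw [ContinuousLinearMap.star_eq_adjoint, ContinuousLinearMap.adjoint_inner_right,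
            hw, ← inner_conj_symm]
          congr 1
          rw [smul_apply, inner_smul_right]
        have h4 : (inner ℂ v ((ζ • (π b * U)) v) : ℂ) = w := by
          rw [smul_apply, inner_smul_right]
        rw [add_apply, add_apply, inner_add_right, inner_add_right, h3, h4, smul_apply,
          inner_smul_right, hvv, Complex.add_conj]
        push_cast
        ring
      rw [hconj, hcalc, Complex.conj_ofReal]
    rw [hx] at hw
    rw [← hw] at hk
    constructor
    · rw [key, RCLike.re_eq_complex_re, Complex.ofReal_re]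
    · rw [key, RCLike.re_eq_complex_re, Complex.ofReal_re]
      nlinarith
  have h0 := coeff_zero_nonneg π α n (by omega) hα U hU hUn hUπ hinj t hpos
  have ht0 : t 0 = (-(2 * κ : ℝ) : ℂ) • (e₁ * e₁) := by
    have hn1 : ¬ (0 = n - 1) := by omega
    simp [t, hn1]
  rw [ht0] at h0
  have h5 : (0 : A) ≤ ((2 * κ : ℝ) : ℂ) • (e₁ * e₁) := by
    have h6 : (0 : ℂ) ≤ ((2 * κ : ℝ) : ℂ) := by
      exact_mod_cast (by positivity : (0 : ℝ) ≤ 2 * κ)
    refine smul_nonneg h6 ?_
    have := star_mul_self_nonneg e₁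
    rwa [hsa] at this
  have h7 : ((2 * κ : ℝ) : ℂ) • (e₁ * e₁) ≤ 0 := by
    have := neg_le_neg_iff.mpr h0
    rwa [neg_zero, neg_smul, neg_neg] at this
  have h8 : ((2 * κ : ℝ) : ℂ) • (e₁ * e₁) = 0 := le_antisymm h7 h5
  have h9 : e₁ * e₁ = 0 := by
    rcases smul_eq_zero.mp h8 with h | h
    · exfalso
      have : (2 * κ : ℝ) = 0 := by exact_mod_cast h
      linarith
    · exact h
  have h10 : star e₁ * e₁ = 0 := by rw [hsa, h9]
  rw [CStarRing.star_mul_self_eq_zero_iff] at h10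
  rw [h10, norm_zero] at he₁n
  norm_num at he₁n

/-- Kishimoto's lemma for automorphisms of finite order with outer powers. -/
theorem kStep_of_outer [PartialOrder A] [StarOrderedRing A]
    [TopologicalSpace.SeparableSpace A] (hs : IsSimple A) (α : A ≃⋆ₐ[ℂ] A)
    (n : ℕ) (hn : 2 ≤ n) (hα : α ^ n = 1) (hout : ∀ j, 0 < j → j < n → ¬ IsInner (α ^ j)) :
    KStep α := by
  intro e he hen a δ hδ
  obtain ⟨e₁, e₂, he₁, he₁n, he₂, he₂n, h21, h12, hloc, -⟩ := exists_bump e he hen (δ / 2)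
    (by positivity)
  obtain ⟨f, φ, hE, hf⟩ := exists_excSeq e he hen δ hδ
  by_cases hb : Tendsto (fun k => ‖f k * a * α (f k)‖) atTop (𝓝 0)
  · obtain ⟨k, hk⟩ := (hb.eventually (gt_mem_nhds hδ)).exists
    exact ⟨f k, hE.nonneg k, hE.norm_one k, hf k, hk⟩
  obtain ⟨H, _, _, _, π, ξ, hξ, hd, hφ⟩ := hE.exists_cyclic
  obtain ⟨U, hU, hUπ, hUn⟩ := hE.exists_implementing π ξ hξ hd hφ α n (by omega) hα a hb
  have hξ0 : ξ ≠ 0 := by
    intro h
    rw [h, norm_zero] at hξ
    norm_num at hξ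
  -- `π` is nonzero, hence injective
  have hne : ∃ c, π c ≠ 0 := by
    by_contra hcon
    push Not at hcon
    have h1 : (Set.range fun c : A => π c ξ) ⊆ {0} := by
      rintro _ ⟨c, rfl⟩
      simp [hcon c]
    have h2 : ξ ∈ closure (Set.range fun c : A => π c ξ) := hd ξ
    have h3 := closure_mono h1 h2
    rw [closure_singleton] at h3
    exact hξ0 h3
  obtain ⟨c₀, hc₀⟩ := hne
  have hπ := injective_of_simple hs π c₀ hc₀
  have hr := hE.tendsto_rank_one π ξ hξ hd hφ
  have hinj := coeff_eq_zero hs f π hπ ξ hξ hd hr α n (by omega) hα hout U hU hUn hUπ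
  obtain ⟨v, hv⟩ := exists_small_vector π α n hn hα U hU hUn hUπ hinj a e₁ he₁ he₁n (δ / 2)
    (by positivity)
  -- replace `v` by `π c' ξ`
  obtain ⟨c', hc'⟩ : ∃ c' : A, ‖(inner ℂ (π e₁ (π c' ξ)) (π a (U (π e₁ (π c' ξ)))) : ℂ)‖ <
      δ / 2 * ‖π e₁ (π c' ξ)‖ ^ 2 := by
    have hopen : IsOpen {v : H | ‖(inner ℂ (π e₁ v) (π a (U (π e₁ v))) : ℂ)‖ <
        δ / 2 * ‖π e₁ v‖ ^ 2} := by
      apply isOpen_lt <;> fun_prop
    obtain ⟨w, hw1⟩ := hd.exists_mem_open hopen ⟨v, hv⟩
    exact ⟨w, hw1⟩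
  set ρ : ℝ := ‖π e₁ (π c' ξ)‖ with hρ
  have hρ0 : 0 < ρ := by
    rcases (norm_nonneg (π e₁ (π c' ξ))).eq_or_lt with h | h
    · exfalso
      rw [← hρ] at h
      rw [← h] at hc'
      have := norm_nonneg (inner ℂ (π e₁ (π c' ξ)) (π a (U (π e₁ (π c' ξ)))) : ℂ)
      nlinarith
    · exact h
  set c : A := ((ρ⁻¹ : ℝ) : ℂ) • (e₁ * c') with hcdef
  have hce : e₂ * c = c := by
    rw [hcdef, mul_smul_comm, ← mul_assoc, h21]
  have hcξ : π c ξ = ((ρ⁻¹ : ℝ) : ℂ) • π e₁ (π c' ξ) := by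
    rw [hcdef, map_smul, map_mul]
    rfl
  have hcn : ‖π c ξ‖ = 1 := by
    rw [hcξ, norm_smul, ← hρ, Complex.norm_real, Real.norm_eq_abs, abs_of_pos (by positivity)]
    field_simp
  have hadj : ∀ (x : A) (y z : H), (inner ℂ (π x y) z : ℂ) = inner ℂ y (π (star x) z) := by
    intro x y z
    rw [map_star, ContinuousLinearMap.star_eq_adjoint, ContinuousLinearMap.adjoint_inner_right]
  have hφc : φ (star c * c) = 1 := by
    rw [← hφ, map_mul, mul_apply_eq_comp, ← hadj,
      inner_self_eq_norm_sq_to_K, hcn]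
    simp
  have hbU : ‖(inner ℂ ξ (π (star c * a * α c) (U ξ)) : ℂ)‖ < δ / 2 := by
    have h1 : π (star c * a * α c) (U ξ) = π (star c) (π a (U (π c ξ))) := by
      have h2 : U (π c ξ) = π (α c) (U ξ) := by
        have := congrArg (fun T : H →L[ℂ] H => T ξ) (hUπ c)
        exact this
      rw [h2, map_mul, map_mul]
      rfl
    have h3 : (inner ℂ ξ (π (star c) (π a (U (π c ξ)))) : ℂ) =
        inner ℂ (π c ξ) (π a (U (π c ξ))) := (hadj c ξ _).symm
    rw [h1, h3, hcξ, map_smul, map_smul, inner_smul_left, inner_smul_right]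
    rw [norm_mul, norm_mul, Complex.conj_ofReal, Complex.norm_real, Real.norm_eq_abs,
      abs_of_pos (by positivity : (0 : ℝ) < ρ⁻¹)]
    calc ρ⁻¹ * (ρ⁻¹ * ‖(inner ℂ (π e₁ (π c' ξ)) (π a (U (π e₁ (π c' ξ)))) : ℂ)‖)
        < ρ⁻¹ * (ρ⁻¹ * (δ / 2 * ρ ^ 2)) := by
          have : 0 < ρ⁻¹ := by positivity
          gcongr
      _ = δ / 2 := by field_simp
  have hev := hE.tendsto_norm π hπ ξ hξ hd hφ α U hU hUπ (star c * a * α c) (δ / 2) hbU
  -- the norms of `c * f m`
  have hexc := hE.exc (star c * c)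
  have hev2 : ∀ᶠ m in atTop, ‖f m * (star c * c) * f m - φ (star c * c) • (f m * f m)‖ < 1 / 4 :=
    hexc.eventually (gt_mem_nhds (by norm_num))
  obtain ⟨m, hm1, hm2⟩ := (hev.and hev2).exists
  have hfs : star (f m) = f m := (IsSelfAdjoint.of_nonneg (hE.nonneg m)).star_eq
  have hfmfm : ‖f m * f m‖ = 1 := by
    have := CStarRing.norm_star_mul_self (x := f m)
    rw [hfs, hE.norm_one m] at this
    simpa using this
  have hfc : star (c * f m) * (c * f m) = f m * (star c * c) * f m := by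
    rw [star_mul, hfs]
    simp only [mul_assoc]
  set y : A := c * f m with hy
  have hyn : 3 / 4 < ‖y‖ ^ 2 := by
    have h1 : ‖y‖ ^ 2 = ‖f m * (star c * c) * f m‖ := by
      rw [← hfc, CStarRing.norm_star_mul_self, sq]
    rw [hφc, one_smul] at hm2
    have h2 := norm_sub_norm_le (f m * f m) (f m * (star c * c) * f m)
    rw [norm_sub_rev, hfmfm] at h2
    rw [h1]
    linarith
  set x : A := y * star y with hx
  have hxn : ‖x‖ = ‖y‖ ^ 2 := by
    rw [hx, CStarRing.norm_self_mul_star, sq]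
  have hx0 : 0 ≤ x := mul_star_self_nonneg y
  have hxpos : 0 < ‖x‖ := by
    rw [hxn]
    linarith
  have hex : e₂ * x = x := by
    rw [hx, hy, ← mul_assoc, ← mul_assoc, hce]
  refine ⟨((‖x‖⁻¹ : ℝ) : ℂ) • x, ?_, ?_, ?_, ?_⟩
  · have : (0 : ℂ) ≤ ((‖x‖⁻¹ : ℝ) : ℂ) := by
      exact_mod_cast (by positivity : (0 : ℝ) ≤ ‖x‖⁻¹)
    exact smul_nonneg this hx0
  · rw [norm_smul, Complex.norm_real, Real.norm_eq_abs, abs_of_pos (by positivity)]
    field_simp
  · have h1 := hloc (((‖x‖⁻¹ : ℝ) : ℂ) • x) (by rw [mul_smul_comm, hex])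
    have h2 : ‖((‖x‖⁻¹ : ℝ) : ℂ) • x‖ = 1 := by
      rw [norm_smul, Complex.norm_real, Real.norm_eq_abs, abs_of_pos (by positivity)]
      field_simp
    rw [h2, mul_one] at h1
    linarith
  · have h1 : x * a * α x = y * (f m * (star c * a * α c) * α (f m)) * α (star y) := by
      have h2 : x = y * (f m * star c) := by rw [hx, hy, star_mul, hfs]
      have h3 : α x = α c * α (f m) * α (star y) := by
        rw [hx, map_mul, ← map_mul α c (f m)]
      rw [h3]
      nth_rewrite 1 [h2]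
      simp only [mul_assoc]
    have hαn : ∀ z : A, ‖α z‖ = ‖z‖ := fun z =>
      NonUnitalStarAlgHom.norm_map (α : A →⋆ₙₐ[ℂ] A) α.injective z
    have h4 : ‖x * a * α x‖ ≤ ‖y‖ * (δ / 2) * ‖y‖ := by
      rw [h1]
      calc ‖y * (f m * (star c * a * α c) * α (f m)) * α (star y)‖
          ≤ ‖y * (f m * (star c * a * α c) * α (f m))‖ * ‖α (star y)‖ := norm_mul_le _ _
        _ ≤ (‖y‖ * ‖f m * (star c * a * α c) * α (f m)‖) * ‖α (star y)‖ := by
            gcongr
            exact norm_mul_le _ _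
        _ ≤ (‖y‖ * (δ / 2)) * ‖y‖ := by
            rw [hαn, norm_star]
            gcongr
    rw [map_smul, smul_mul_assoc, smul_mul_assoc, mul_smul_comm, norm_smul, norm_smul,
      Complex.norm_real, Real.norm_eq_abs, abs_of_pos (by positivity)]
    calc ‖x‖⁻¹ * (‖x‖⁻¹ * ‖x * a * α x‖) ≤ ‖x‖⁻¹ * (‖x‖⁻¹ * (‖y‖ * (δ / 2) * ‖y‖)) := by
          gcongr
      _ = ‖x‖⁻¹ * (δ / 2) := by
          have : ‖y‖ * (δ / 2) * ‖y‖ = ‖x‖ * (δ / 2) := by rw [hxn]; ring
          rw [this]
          field_simp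
      _ < δ := by
          have h5 : ‖x‖⁻¹ < 2 := by
            rw [inv_lt_comm₀ hxpos (by norm_num)]
            rw [hxn]
            linarith
          nlinarith

end Pool.Agent.helper23.RK
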