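import Pool.Agent.helper23.RK.Base

/-!
# Nuclear approximation through an excised state (module G of MP_6e2074_an)
-/

open Filter Topology
open scoped CStarAlgebra ComplexOrder MultiplierAlgebra InnerProductSpace

namespace Pool.Agent.helper23.RK

universe u v w

section G_Nuc

variable {A : Type u} [NonUnitalCStarAlgebra A] [PartialOrder A] [StarOrderedRing A]

lemma phi_cs (φ : A →ₚ[ℂ] ℂ) (x y : A) (hy : φ (star y * y) = 0) : φ (star x * y) = 0 := by
  have h : ‖φ.toPreGNS y‖ = 0 := by
    have h1 := φ.preGNS_norm_sq (φ.toPreGNS y)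
    rw [φ.ofPreGNS_toPreGNS, hy] at h1
    have h2 : ‖φ.toPreGNS y‖ ^ 2 = 0 := by exact_mod_cast h1
    exact pow_eq_zero_iff (two_ne_zero) |>.mp h2
  have h2 := norm_inner_le_norm (𝕜 := ℂ) (φ.toPreGNS x) (φ.toPreGNS y)
  rw [h, mul_zero] at h2
  have h3 : inner ℂ (φ.toPreGNS x) (φ.toPreGNS y) = 0 := norm_le_zero_iff.mp h2
  rwa [φ.preGNS_inner_def, φ.ofPreGNS_toPreGNS, φ.ofPreGNS_toPreGNS] at h3

lemma phi_faithful (hs : IsSimple A) (φ : A →ₚ[ℂ] ℂ) (hφ : φ ≠ 0) (y : A)
    (hy : ∀ a, φ (star (y * a) * (y * a)) = 0) : y = 0 := by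
  let I : Submodule ℂ A :=
    { carrier := {y | ∀ a, φ (star (y * a) * (y * a)) = 0}
      add_mem' := by
        intro x y hx hy a
        have e : star ((x + y) * a) * ((x + y) * a) = star (x * a) * (x * a)
            + star (x * a) * (y * a) + star (y * a) * (x * a) + star (y * a) * (y * a) := by
          simp only [add_mul, star_add, mul_add]
          abel
        rw [e, map_add, map_add, map_add, hx a, hy a, phi_cs φ _ _ (hy a), phi_cs φ _ _ (hx a)]
        simp
      zero_mem' := by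
        intro a
        simp
      smul_mem' := by
        intro r x hx a
        have e : star ((r • x) * a) * ((r • x) * a) = (star r * r) • (star (x * a) * (x * a)) := by
          simp only [smul_mul_assoc, star_smul, mul_smul_comm, smul_smul, mul_comm]
        rw [e, map_smul, hx a, smul_zero] }
  have hcl : IsClosed (I : Set A) := by
    have : (I : Set A) = ⋂ a : A, (fun y : A => φ (star (y * a) * (y * a))) ⁻¹' {0} := by
      ext y
      simp only [Set.mem_iInter, Set.mem_preimage, Set.mem_singleton_iff]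
      rfl
    rw [this]
    refine isClosed_iInter fun a => IsClosed.preimage ?_ isClosed_singleton
    have hc : Continuous φ := map_continuous φ
    fun_prop
  have hid : ∀ a b : A, a ∈ I → b * a ∈ I ∧ a * b ∈ I := by
    intro x b hx
    refine ⟨fun a => ?_, fun a => ?_⟩
    · have e : star (b * x * a) * (b * x * a) = star (star b * b * (x * a)) * (x * a) := by
        simp only [star_mul, star_star, mul_assoc]
      rw [e]
      exact phi_cs φ _ _ (hx a)
    · have h1 := hx (b * a)
      have e : x * b * a = x * (b * a) := mul_assoc _ _ _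
      rw [e]
      exact h1
  rcases hs.2 I hcl hid with h | h
  · have : y ∈ I := hy
    rw [h] at this
    simpa using this
  · exfalso
    apply hφ
    have hpos : ∀ p : A, 0 ≤ p → φ p = 0 := by
      intro p hp
      have h1 : CFC.sqrt p * CFC.sqrt p = p := CFC.sqrt_mul_sqrt_self p
      have h2 : CFC.sqrt (CFC.sqrt p) * CFC.sqrt (CFC.sqrt p) = CFC.sqrt p :=
        CFC.sqrt_mul_sqrt_self (CFC.sqrt p)
      have hs1 : star (CFC.sqrt p) = CFC.sqrt p := (CFC.sqrt_nonneg p).star_eq
      have hm : CFC.sqrt (CFC.sqrt p) ∈ I := by rw [h]; trivial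
      have h3 := hm (CFC.sqrt (CFC.sqrt p))
      have h4 := phi_cs φ (CFC.sqrt p) _ h3
      rw [h2, hs1, h1] at h4
      exact h4
    have hx0 : ∀ x : A, φ x = 0 := by
      intro x
      obtain ⟨z, hz, -, hx⟩ := CStarAlgebra.exists_sum_four_nonneg x
      rw [hx]
      simp only [map_sum, map_smul]
      refine Finset.sum_eq_zero fun i _ => ?_
      rw [hpos _ (hz i), smul_zero]
    ext x
    exact hx0 x

lemma exists_neg_part {B : Type v} [NonUnitalCStarAlgebra B] [PartialOrder B] [StarOrderedRing B]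
    (X : B) (hX : IsSelfAdjoint X) :
    ∃ Z : B, 0 ≤ Z ∧ Z * X * Z = -(Z * Z * Z) ∧ (Z * Z * Z = 0 → 0 ≤ X) := by
  have hZ : 0 ≤ X⁻ := CFC.negPart_nonneg X
  have hZs : star X⁻ = X⁻ := hZ.star_eq
  have hd := CFC.posPart_sub_negPart X hX
  have hm := CFC.posPart_mul_negPart X
  have e0 : X * X⁻ = -(X⁻ * X⁻) := by
    have h1 : (X⁺ - X⁻) * X⁻ = -(X⁻ * X⁻) := by rw [sub_mul, hm, zero_sub]
    rwa [hd] at h1
  refine ⟨X⁻, hZ, by rw [mul_assoc, e0, mul_neg, mul_assoc], fun h0 => ?_⟩
  have h1 : X⁻ * X⁻ = 0 := by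
    have h2 : star (X⁻ * X⁻) * (X⁻ * X⁻) = 0 := by
      rw [star_mul, hZs, ← mul_assoc, h0, zero_mul]
    exact (CStarRing.star_mul_self_eq_zero_iff _).mp h2
  have h2 : X⁻ = 0 := by
    have h3 : star X⁻ * X⁻ = 0 := by rw [hZs, h1]
    exact (CStarRing.star_mul_self_eq_zero_iff _).mp h3
  rw [← hd, h2, sub_zero]
  exact CFC.posPart_nonneg X

lemma exists_star_mul_self_of_nonneg {B : Type v} [NonUnitalCStarAlgebra B] [PartialOrder B]
    [StarOrderedRing B] (X : B) (hX : 0 ≤ X) : ∃ Y : B, X = star Y * Y :=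
  CStarAlgebra.nonneg_iff_eq_star_mul_self.mp hX

lemma cstarMatrix_nonneg_of_phi (hs : IsSimple A) (φ : A →ₚ[ℂ] ℂ) (hφ : φ ≠ 0) {k : ℕ}
    (X : CStarMatrix (Fin k) (Fin k) A) (hX : IsSelfAdjoint X)
    (h : ∀ c : Fin k → A, 0 ≤ (∑ i, ∑ j, φ (star (c i) * X i j * c j)).re) : 0 ≤ X := by
  obtain ⟨Z, hZ, e1, hend⟩ := exists_neg_part X hX
  have hZs : star Z = Z := hZ.star_eq
  have hZ3 : 0 ≤ Z * Z * Z := by
    have := star_left_conjugate_nonneg hZ Z
    rwa [hZs] at this
  obtain ⟨Y, hY⟩ := exists_star_mul_self_of_nonneg _ hZ3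
  apply hend
  have hY0 : ∀ l j, Y l j = 0 := by
    intro l j
    refine phi_faithful hs φ hφ _ fun a => ?_
    have h1 := h (fun i => Z i j * a)
    have h2 : ∑ i, ∑ m, φ (star (Z i j * a) * X i m * (Z m j * a))
        = - ∑ l, φ (star (Y l j * a) * (Y l j * a)) := by
      have h3 : (Z * X * Z) j j = ∑ i, ∑ m, star (Z i j) * X i m * Z m j := by
        have : (Z * X * Z) j j = (star Z * (X * Z)) j j := by rw [hZs, mul_assoc]
        rw [this, CStarMatrix.mul_apply]
        refine Finset.sum_congr rfl fun i _ => ?_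
        rw [CStarMatrix.mul_apply, Finset.mul_sum]
        refine Finset.sum_congr rfl fun m _ => ?_
        rw [CStarMatrix.star_apply, mul_assoc]
      have h4 : (Z * X * Z) j j = - ∑ l, star (Y l j) * Y l j := by
        rw [e1, hY, CStarMatrix.neg_apply, CStarMatrix.mul_apply]
        simp only [CStarMatrix.star_apply]
      have h5 : ∑ i, ∑ m, φ (star (Z i j * a) * X i m * (Z m j * a))
          = φ (star a * (Z * X * Z) j j * a) := by
        rw [h3, Finset.mul_sum, Finset.sum_mul, map_sum]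
        refine Finset.sum_congr rfl fun i _ => ?_
        rw [Finset.mul_sum, Finset.sum_mul, map_sum]
        refine Finset.sum_congr rfl fun m _ => ?_
        simp only [star_mul, mul_assoc]
      rw [h5, h4, mul_neg, neg_mul, map_neg, Finset.mul_sum, Finset.sum_mul, map_sum]
      congr 1
      refine Finset.sum_congr rfl fun m _ => ?_
      simp only [star_mul, mul_assoc]
    have h6 : ∀ m, 0 ≤ φ (star (Y m j * a) * (Y m j * a)) := fun m =>
      map_nonneg φ (star_mul_self_nonneg _)
    have h7 : ∑ m, (φ (star (Y m j * a) * (Y m j * a))).re ≤ 0 := by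
      have h8 : (0 : ℝ) ≤ (- ∑ l, φ (star (Y l j * a) * (Y l j * a))).re := by
        rw [← h2]
        exact h1
      rw [Complex.neg_re, Complex.re_sum] at h8
      linarith
    have h9 : ∀ m, 0 ≤ (φ (star (Y m j * a) * (Y m j * a))).re := fun m =>
      (Complex.nonneg_iff.mp (h6 m)).1
    have h10 : (φ (star (Y l j * a) * (Y l j * a))).re ≤ 0 :=
      (Finset.single_le_sum (f := fun m => (φ (star (Y m j * a) * (Y m j * a))).re)
        (fun m _ => h9 m) (Finset.mem_univ l)).trans h7
    have h11 := Complex.nonneg_iff.mp (h6 l)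
    exact Complex.ext (le_antisymm h10 h11.1) h11.2.symm
  have hYz : Y = 0 := CStarMatrix.ext fun i j => hY0 i j
  rw [hY, hYz, mul_zero]

/-- The Choi decomposition of a completely positive map from a matrix algebra. -/
lemma choi {k : ℕ} (β : CStarMatrix (Fin k) (Fin k) ℂ →CP A) :
    ∃ b : Fin k → Fin k → A, ∀ m : CStarMatrix (Fin k) (Fin k) ℂ,
      β m = ∑ l, ∑ i, ∑ j, m i j • (star (b l i) * b l j) := by
  let E : Fin k → Fin k → CStarMatrix (Fin k) (Fin k) ℂ :=
    fun i j => CStarMatrix.ofMatrix (Matrix.single i j 1)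
  have hEE : ∀ i l j, E i l * E l j = E i j := by
    intro i l j
    have h : Matrix.single i l (1 : ℂ) * Matrix.single l j 1 = Matrix.single i j 1 := by
      rw [Matrix.single_mul_single_same, mul_one]
    exact h
  have hEs : ∀ i j, star (E i j) = E j i := by
    intro i j
    ext a b
    rw [CStarMatrix.star_apply]
    simp only [E, CStarMatrix.ofMatrix_apply, Matrix.single_apply]
    by_cases h1 : i = b <;> by_cases h2 : j = a <;> simp [h1, h2]
  let M : CStarMatrix (Fin k) (Fin k) (CStarMatrix (Fin k) (Fin k) ℂ) :=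
    CStarMatrix.ofMatrix (Matrix.of E)
  have hMij : ∀ i j, M i j = E i j := fun i j => rfl
  have hMs : star M = M := by
    ext1 i j
    rw [CStarMatrix.star_apply, hMij, hMij, hEs]
  have hMM : M * M = (k : ℂ) • M := by
    ext1 i j
    rw [CStarMatrix.mul_apply, CStarMatrix.smul_apply]
    simp only [hMij, hEE, Finset.sum_const, Finset.card_univ, Fintype.card_fin]
    rw [Nat.cast_smul_eq_nsmul]
  have hM : 0 ≤ M := by
    rcases Nat.eq_zero_or_pos k with hk | hk
    · have : M = 0 := by
        ext1 i j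
        subst hk
        exact i.elim0
      rw [this]
    · have h1 : 0 ≤ star M * M := star_mul_self_nonneg M
      rw [hMs, hMM] at h1
      have h2 : M = ((k : ℂ)⁻¹) • ((k : ℂ) • M) := by
        rw [smul_smul, inv_mul_cancel₀ (by exact_mod_cast hk.ne'), one_smul]
      rw [h2]
      refine smul_nonneg ?_ h1
      rw [← Complex.ofReal_natCast, ← Complex.ofReal_inv]
      exact_mod_cast inv_nonneg.mpr (Nat.cast_nonneg k)
  have hβM : 0 ≤ M.map β := CompletelyPositiveMap.map_cstarMatrix_nonneg β M hM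
  obtain ⟨Y, hY⟩ := exists_star_mul_self_of_nonneg _ hβM
  refine ⟨fun l i => Y l i, fun m => ?_⟩
  have hE : ∀ i j, β (E i j) = ∑ l, star (Y l i) * Y l j := by
    intro i j
    have : (M.map β) i j = β (E i j) := rfl
    rw [← this, hY, CStarMatrix.mul_apply]
    simp only [CStarMatrix.star_apply]
  have hm : m = ∑ i, ∑ j, m i j • E i j := by
    have h1 : (m : Matrix (Fin k) (Fin k) ℂ) = ∑ i, ∑ j, (m i j) • Matrix.single i j (1 : ℂ) := by
      conv_lhs => rw [Matrix.matrix_eq_sum_single (m : Matrix (Fin k) (Fin k) ℂ)]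
      refine Finset.sum_congr rfl fun i _ => Finset.sum_congr rfl fun j _ => ?_
      rw [Matrix.smul_single, smul_eq_mul, mul_one]
    exact h1
  conv_lhs => rw [hm]
  simp only [map_sum, map_smul, hE, Finset.smul_sum]
  have h1 : ∀ i, ∑ j, ∑ l, m i j • (star (Y l i) * Y l j)
      = ∑ l, ∑ j, m i j • (star (Y l i) * Y l j) := fun i => Finset.sum_comm
  simp only [h1]
  exact Finset.sum_comm

/-- The quadratic form of a positive matrix over a matrix algebra. -/
lemma sum_diag_nonneg {k : ℕ} (M : CStarMatrix (Fin k) (Fin k) (CStarMatrix (Fin k) (Fin k) ℂ))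
    (hM : 0 ≤ M) : 0 ≤ (∑ i, ∑ j, (M i j) i j).re := by
  obtain ⟨Y, hY⟩ := exists_star_mul_self_of_nonneg _ hM
  have h1 : ∀ i j, (M i j) i j = ∑ l, ∑ m, (starRingEnd ℂ) ((Y l i) m i) * (Y l j) m j := by
    intro i j
    have h2 : M i j = ∑ l, star (Y l i) * Y l j := by
      rw [hY, CStarMatrix.mul_apply]
      simp only [CStarMatrix.star_apply]
    have h3 : ∀ f : Fin k → CStarMatrix (Fin k) (Fin k) ℂ, (∑ l, f l) i j = ∑ l, (f l) i j := by
      intro f
      let ev : CStarMatrix (Fin k) (Fin k) ℂ →+ ℂ :=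
        { toFun := fun N => N i j
          map_zero' := rfl
          map_add' := fun _ _ => rfl }
      exact map_sum ev f Finset.univ
    rw [h2, h3]
    refine Finset.sum_congr rfl fun l _ => ?_
    rw [CStarMatrix.mul_apply]
    refine Finset.sum_congr rfl fun m _ => ?_
    rw [CStarMatrix.star_apply]
    rfl
  have h2 : ∑ i, ∑ j, (M i j) i j
      = ∑ l, ∑ m, ((starRingEnd ℂ) (∑ i, (Y l i) m i)) * (∑ j, (Y l j) m j) := by
    have h3 : ∀ l m, ((starRingEnd ℂ) (∑ i, (Y l i) m i)) * (∑ j, (Y l j) m j)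
        = ∑ i, ∑ j, (starRingEnd ℂ) ((Y l i) m i) * (Y l j) m j := by
      intro l m
      rw [map_sum, Finset.sum_mul_sum]
    simp only [h1, h3]
    have c1 : ∀ i, ∑ j, ∑ l, ∑ m, (starRingEnd ℂ) ((Y l i) m i) * (Y l j) m j
        = ∑ l, ∑ m, ∑ j, (starRingEnd ℂ) ((Y l i) m i) * (Y l j) m j := by
      intro i
      rw [Finset.sum_comm]
      exact Finset.sum_congr rfl fun l _ => Finset.sum_comm
    simp only [c1]
    rw [Finset.sum_comm]
    exact Finset.sum_congr rfl fun l _ => Finset.sum_comm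
  rw [h2, Complex.re_sum]
  refine Finset.sum_nonneg fun l _ => ?_
  rw [Complex.re_sum]
  refine Finset.sum_nonneg fun m _ => ?_
  rw [← Complex.normSq_eq_conj_mul_self, Complex.ofReal_re]
  exact Complex.normSq_nonneg _

/-- The family of matrices of a completely positive map lies in the closure of the cone spanned
by the families coming from `φ`. -/
lemma cone_closure (hs : IsSimple A) (φ : A →ₚ[ℂ] ℂ) (hφ : φ ≠ 0) {k : ℕ}
    (γ : A →CP CStarMatrix (Fin k) (Fin k) ℂ) (F : Finset A) (δ : ℝ) (hδ : 0 < δ) :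
    ∃ (P : ℕ) (c : Fin P → Fin k → A), ∀ a ∈ F, ∀ i j,
      ‖(∑ p, φ (star (c p i) * a * c p j)) - γ a i j‖ < δ := by
  classical
  let T := F × Fin k × Fin k
  let gen : (Fin k → A) → (T → ℂ) := fun c t => φ (star (c t.2.1) * (t.1 : A) * c t.2.2)
  let C : Set (T → ℂ) := {x | ∃ (P : ℕ) (c : Fin P → Fin k → A), x = ∑ p, gen (c p)}
  let g0 : T → ℂ := fun t => γ (t.1 : A) t.2.1 t.2.2
  have hscale : ∀ (r : ℝ) (c : Fin k → A), 0 ≤ r →
      gen (fun i => ((Real.sqrt r : ℝ) : ℂ) • c i) = (r : ℂ) • gen c := by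
    intro r c hr
    funext t
    simp only [gen, Pi.smul_apply, star_smul, smul_mul_assoc, mul_smul_comm, map_smul,
      smul_smul, Complex.star_def, Complex.conj_ofReal, ← Complex.ofReal_mul]
    rw [Real.mul_self_sqrt hr]
  have hsC : ∀ (r : ℝ) (x : T → ℂ), 0 ≤ r → x ∈ C → (r : ℂ) • x ∈ C := by
    rintro r x hr ⟨P, c, rfl⟩
    refine ⟨P, fun p i => ((Real.sqrt r : ℝ) : ℂ) • c p i, ?_⟩
    rw [Finset.smul_sum]
    exact Finset.sum_congr rfl fun p _ => (hscale r (c p) hr).symm
  have haC : ∀ (x y : T → ℂ), x ∈ C → y ∈ C → x + y ∈ C := by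
    rintro x y ⟨P, c, rfl⟩ ⟨P', c', rfl⟩
    refine ⟨P + P', Fin.append c c', ?_⟩
    rw [Fin.sum_univ_add]
    simp only [Fin.append_left, Fin.append_right]
  have h0C : (0 : T → ℂ) ∈ C := ⟨0, Fin.elim0, by simp⟩
  have hconv : Convex ℝ C := by
    intro x hx y hy a b ha hb _
    have h1 := haC _ _ (hsC a x ha hx) (hsC b y hb hy)
    exact h1
  have hmem : g0 ∈ closure C := by
    by_contra hnot
    obtain ⟨f, u, hf, hu⟩ := RCLike.geometric_hahn_banach_closed_point (𝕜 := ℂ)
      hconv.closure isClosed_closure hnot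
    have hu0 : 0 < u := by
      have := hf 0 (subset_closure h0C)
      simpa using this
    have hle : ∀ x ∈ C, (f x).re ≤ 0 := by
      intro x hx
      by_contra hpos
      push Not at hpos
      have h1 := hf _ (subset_closure (hsC (u / (f x).re) x (by positivity) hx))
      rw [map_smul, smul_eq_mul] at h1
      have h2 : RCLike.re (((u / (f x).re : ℝ) : ℂ) * f x) = u := by
        have : RCLike.re (((u / (f x).re : ℝ) : ℂ) * f x) = (u / (f x).re) * (f x).re :=
          Complex.re_ofReal_mul _ _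
        rw [this, div_mul_cancel₀ _ hpos.ne']
      rw [h2] at h1
      exact lt_irrefl _ h1
    let y : T → ℂ := fun t => f (fun j => if t = j then 1 else 0)
    have hfy : ∀ x, f x = ∑ t, x t * y t := by
      intro x
      have := LinearMap.pi_apply_eq_sum_univ (f : (T → ℂ) →ₗ[ℂ] ℂ) x
      exact this
    let X : Fin k → Fin k → A := fun i j => ∑ a : F, y (a, i, j) • (a : A)
    have hsum : ∀ (ψ : Fin k → Fin k → (A →ₗ[ℂ] ℂ)),
        ∑ t : T, ψ t.2.1 t.2.2 (t.1 : A) * y t = ∑ i, ∑ j, ψ i j (X i j) := by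
      intro ψ
      rw [Fintype.sum_prod_type, Finset.sum_comm, Fintype.sum_prod_type]
      refine Finset.sum_congr rfl fun i _ => Finset.sum_congr rfl fun j _ => ?_
      simp only [X, map_sum, map_smul, smul_eq_mul]
      exact Finset.sum_congr rfl fun a _ => mul_comm _ _
    have hfgen : ∀ c : Fin k → A, f (gen c) = ∑ i, ∑ j, φ (star (c i) * X i j * c j) := by
      intro c
      rw [hfy]
      let ψ : Fin k → Fin k → (A →ₗ[ℂ] ℂ) := fun i j =>
        { toFun := fun a => φ (star (c i) * a * c j)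
          map_add' := by intro a b; rw [mul_add, add_mul, map_add]
          map_smul' := by
            intro r a
            rw [mul_smul_comm, smul_mul_assoc, map_smul, RingHom.id_apply] }
      exact hsum ψ
    have hfg0 : f g0 = ∑ i, ∑ j, γ (X i j) i j := by
      rw [hfy]
      let ψ : Fin k → Fin k → (A →ₗ[ℂ] ℂ) := fun i j =>
        { toFun := fun a => γ a i j
          map_add' := by intro a b; rw [map_add]; rfl
          map_smul' := by
            intro r a
            rw [map_smul, RingHom.id_apply]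
            rfl }
      exact hsum ψ
    let X' : CStarMatrix (Fin k) (Fin k) A :=
      CStarMatrix.ofMatrix (Matrix.of fun i j => -(X i j + star (X j i)))
    have hX'ij : ∀ i j, X' i j = -(X i j + star (X j i)) := fun i j => rfl
    have hX's : IsSelfAdjoint X' := by
      rw [IsSelfAdjoint]
      ext1 i j
      rw [CStarMatrix.star_apply, hX'ij, hX'ij, star_neg, star_add, star_star, add_comm]
    have hX'pos : 0 ≤ X' := by
      refine cstarMatrix_nonneg_of_phi hs φ hφ X' hX's fun c => ?_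
      have h1 : ∑ i, ∑ j, φ (star (c i) * X' i j * c j)
          = -(f (gen c) + (starRingEnd ℂ) (f (gen c))) := by
        rw [hfgen]
        have h2 : (starRingEnd ℂ) (∑ i, ∑ j, φ (star (c i) * X i j * c j))
            = ∑ i, ∑ j, φ (star (c i) * star (X j i) * c j) := by
          rw [map_sum]
          simp only [map_sum]
          rw [Finset.sum_comm]
          refine Finset.sum_congr rfl fun i _ => Finset.sum_congr rfl fun j _ => ?_
          rw [← Complex.star_def, ← map_star φ]
          simp only [star_mul, star_star, mul_assoc]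
        rw [h2, ← Finset.sum_add_distrib, ← Finset.sum_neg_distrib]
        refine Finset.sum_congr rfl fun i _ => ?_
        rw [← Finset.sum_add_distrib, ← Finset.sum_neg_distrib]
        refine Finset.sum_congr rfl fun j _ => ?_
        rw [hX'ij, mul_neg, neg_mul, map_neg, mul_add, add_mul, map_add]
      rw [h1, Complex.neg_re, Complex.add_re, Complex.conj_re]
      have h3 := hle (gen c) ⟨1, fun _ => c, by simp⟩
      linarith
    have hγ : 0 ≤ X'.map γ := CompletelyPositiveMap.map_cstarMatrix_nonneg γ X' hX'pos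
    have h1 := sum_diag_nonneg _ hγ
    have h2 : ∑ i, ∑ j, ((X'.map γ) i j) i j = -(f g0 + (starRingEnd ℂ) (f g0)) := by
      rw [hfg0]
      have h3 : (starRingEnd ℂ) (∑ i, ∑ j, γ (X i j) i j) = ∑ i, ∑ j, (star (γ (X j i))) i j := by
        rw [map_sum]
        simp only [map_sum]
        rw [Finset.sum_comm]
        refine Finset.sum_congr rfl fun i _ => Finset.sum_congr rfl fun j _ => ?_
        rw [CStarMatrix.star_apply]
        rfl
      rw [h3, ← Finset.sum_add_distrib, ← Finset.sum_neg_distrib]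
      refine Finset.sum_congr rfl fun i _ => ?_
      rw [← Finset.sum_add_distrib, ← Finset.sum_neg_distrib]
      refine Finset.sum_congr rfl fun j _ => ?_
      have h4 : (X'.map γ) i j = γ (X' i j) := rfl
      rw [h4, hX'ij, map_neg, map_add, map_star, CStarMatrix.neg_apply, CStarMatrix.add_apply]
    rw [h2, Complex.neg_re, Complex.add_re, Complex.conj_re] at h1
    have h5 : u < (f g0).re := hu
    linarith
  obtain ⟨x, ⟨P, c, hx⟩, hd⟩ := Metric.mem_closure_iff.mp hmem δ hδ
  refine ⟨P, c, fun a ha i j => ?_⟩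
  have h1 := (dist_le_pi_dist g0 x ((⟨a, ha⟩ : F), i, j)).trans_lt hd
  rw [dist_comm, dist_eq_norm] at h1
  have h2 : x ((⟨a, ha⟩ : F), i, j) = ∑ p, φ (star (c p i) * a * c p j) := by
    rw [hx, Finset.sum_apply]
  rw [h2] at h1
  exact h1

theorem nuclear_approx (hs : IsSimple A) (hn : IsNuclear A) (φ : A →ₚ[ℂ] ℂ) (hφ : φ ≠ 0)
    (F : Finset A) (ε : ℝ) (hε : 0 < ε) :
    ∃ (k P L : ℕ) (c : Fin P → Fin k → A) (b : Fin L → Fin k → A), ∀ a ∈ F,
      ‖(∑ l, ∑ i, ∑ j, (∑ p, φ (star (c p i) * a * c p j)) • (star (b l i) * b l j)) - a‖ < ε := by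
  obtain ⟨k, γ, β, -, -, hγβ⟩ := hn F (ε / 2) (by positivity)
  obtain ⟨b, hb⟩ := choi β
  let K : ℝ := ∑ l, ∑ i, ∑ j, ‖star (b l i) * b l j‖
  have hK : 0 ≤ K := Finset.sum_nonneg fun l _ => Finset.sum_nonneg fun i _ =>
    Finset.sum_nonneg fun j _ => norm_nonneg _
  obtain ⟨P, c, hc⟩ := cone_closure hs φ hφ γ F (ε / 2 / (K + 1)) (by positivity)
  refine ⟨k, P, k, c, b, fun a ha => ?_⟩
  have h1 : ‖(∑ l, ∑ i, ∑ j, (∑ p, φ (star (c p i) * a * c p j)) • (star (b l i) * b l j))
      - β (γ a)‖ ≤ ε / 2 / (K + 1) * K := by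
    rw [hb, ← Finset.sum_sub_distrib]
    simp only [K]
    rw [Finset.mul_sum]
    refine norm_sum_le_of_le _ fun l _ => ?_
    rw [← Finset.sum_sub_distrib, Finset.mul_sum]
    refine norm_sum_le_of_le _ fun i _ => ?_
    rw [← Finset.sum_sub_distrib, Finset.mul_sum]
    refine norm_sum_le_of_le _ fun j _ => ?_
    rw [← sub_smul, norm_smul]
    exact mul_le_mul_of_nonneg_right (hc a ha i j).le (norm_nonneg _)
  have h2 : ε / 2 / (K + 1) * K ≤ ε / 2 := by
    rw [div_mul_eq_mul_div, div_le_iff₀ (by positivity)]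
    nlinarith
  calc ‖(∑ l, ∑ i, ∑ j, (∑ p, φ (star (c p i) * a * c p j)) • (star (b l i) * b l j)) - a‖
      = ‖((∑ l, ∑ i, ∑ j, (∑ p, φ (star (c p i) * a * c p j)) • (star (b l i) * b l j))
        - β (γ a)) + (β (γ a) - a)‖ := by rw [sub_add_sub_cancel]
    _ ≤ _ := norm_add_le _ _
    _ < ε / 2 + ε / 2 := add_lt_add_of_le_of_lt (h1.trans h2) (hγβ a ha)
    _ = ε := by ring

end G_Nuc

end Pool.Agent.helper23.RK
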