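import Pool.Agent.helper23.RK.Base

/-!
# Sequences with countably many asymptotic requirements (independent of the bump lemma)
-/

open Filter Topology
open scoped CStarAlgebra ComplexOrder MultiplierAlgebra

namespace Pool.Agent.helper23.RK

universe u v w

variable {A : Type u} [NonUnitalCStarAlgebra A] [PartialOrder A] [StarOrderedRing A]

theorem star_of_nonneg {e : A} (he : 0 ≤ e) : star e = e :=
  (IsSelfAdjoint.of_nonneg he).star_eq

theorem norm_sub_comm_star {e e' : A} (he : 0 ≤ e) (he' : 0 ≤ e') :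
    ‖e' * e - e'‖ = ‖e * e' - e'‖ := by
  rw [← norm_star (e * e' - e'), star_sub, star_mul, star_of_nonneg he, star_of_nonneg he']

theorem norm_mul_self_one {e : A} (he : 0 ≤ e) (hn : ‖e‖ = 1) : ‖e * e‖ = 1 := by
  have h := CStarRing.norm_star_mul_self (x := e)
  rw [star_of_nonneg he, hn, one_mul] at h
  exact h

omit [PartialOrder A] [StarOrderedRing A] in
/-- transitivity of approximate domination -/
theorem norm_dom_trans {x y z : A} (hx : ‖x‖ ≤ 1) (hz : ‖z‖ ≤ 1) :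
    ‖x * z - z‖ ≤ ‖x * y - y‖ + 2 * ‖y * z - z‖ := by
  have h1 : x * z - z = -(x * (y * z - z)) + (x * y - y) * z + (y * z - z) := by
    simp only [mul_sub, sub_mul, mul_assoc]
    abel
  rw [h1]
  refine (norm_add₃_le).trans ?_
  rw [norm_neg]
  have h2 : ‖x * (y * z - z)‖ ≤ 1 * ‖y * z - z‖ :=
    (norm_mul_le _ _).trans (mul_le_mul_of_nonneg_right hx (norm_nonneg _))
  have h3 : ‖(x * y - y) * z‖ ≤ ‖x * y - y‖ * 1 :=
    (norm_mul_le _ _).trans (mul_le_mul_of_nonneg_left hz (norm_nonneg _))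
  linarith

omit [PartialOrder A] [StarOrderedRing A] in
/-- stability of a requirement of the form `‖x c γ(x)‖ ≤ r` -/
theorem norm_stab_aux {e e' c g g' : A} {d : ℝ} (he' : ‖e'‖ ≤ 1) (he : ‖e‖ ≤ 1)
    (hg' : ‖g'‖ ≤ 1)
    (h1 : ‖e' * e - e'‖ ≤ d) (h2 : ‖g * g' - g'‖ ≤ d) :
    ‖e' * c * g' - e' * (e * c * g) * g'‖ ≤ 2 * ‖c‖ * d := by
  have h3 : e' * c * g' - e' * (e * c * g) * g' =
      -((e' * e - e') * c * g') + -(e' * e * c * (g * g' - g')) := by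
    simp only [mul_sub, sub_mul, mul_assoc]
    abel
  have hd : 0 ≤ d := (norm_nonneg _).trans h1
  rw [h3]
  refine (norm_add_le _ _).trans ?_
  rw [norm_neg, norm_neg]
  have h4 : ‖(e' * e - e') * c * g'‖ ≤ d * ‖c‖ * 1 := by
    refine (norm_mul_le _ _).trans ?_
    refine mul_le_mul ((norm_mul_le _ _).trans ?_) hg' (norm_nonneg _) (by positivity)
    exact mul_le_mul_of_nonneg_right h1 (norm_nonneg _)
  have h5 : ‖e' * e * c * (g * g' - g')‖ ≤ 1 * 1 * ‖c‖ * d := by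
    refine (norm_mul_le _ _).trans ?_
    refine mul_le_mul ((norm_mul_le _ _).trans ?_) h2 (norm_nonneg _) (by positivity)
    refine mul_le_mul_of_nonneg_right ((norm_mul_le _ _).trans ?_) (norm_nonneg _)
    exact mul_le_mul he' he (norm_nonneg _) zero_le_one
  linarith

/-- stability of the excision requirement -/
theorem exc_stab {e e' : A} (he : 0 ≤ e) (hn : ‖e‖ = 1) (he' : 0 ≤ e') (hn' : ‖e'‖ = 1)
    (c : A) (z : ℂ) :
    ‖e' * c * e' - z • (e' * e')‖ ≤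
      ‖e * c * e - z • (e * e)‖ + (2 * ‖c‖ + 2 * ‖z‖) * ‖e * e' - e'‖ := by
  set d := ‖e * e' - e'‖ with hd
  have hd' : ‖e' * e - e'‖ = d := norm_sub_comm_star he he'
  have h1 := norm_stab_aux (e := e) (e' := e') (c := c) (g := e) (g' := e') (d := d)
    hn'.le hn.le hn'.le hd'.le hd.ge
  have h2 : ‖e' * e' - e' * (e * e) * e'‖ ≤ 2 * d := by
    have h3 : e' * e' - e' * (e * e) * e' =
        -((e' * e - e') * e') + -(e' * e * (e * e' - e')) := by
      simp only [mul_sub, sub_mul, mul_assoc]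
      abel
    rw [h3]
    refine (norm_add_le _ _).trans ?_
    rw [norm_neg, norm_neg]
    have h4 : ‖(e' * e - e') * e'‖ ≤ d * 1 := by
      refine (norm_mul_le _ _).trans ?_
      rw [hd', hn']
    have h5 : ‖e' * e * (e * e' - e')‖ ≤ 1 * 1 * d := by
      refine (norm_mul_le _ _).trans ?_
      refine mul_le_mul ((norm_mul_le _ _).trans ?_) le_rfl (norm_nonneg _) (by positivity)
      exact mul_le_mul hn'.le hn.le (norm_nonneg _) zero_le_one
    linarith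
  have h6 : ‖e' * (e * c * e - z • (e * e)) * e'‖ ≤ ‖e * c * e - z • (e * e)‖ := by
    refine (norm_mul_le _ _).trans ?_
    rw [hn', mul_one]
    refine (norm_mul_le _ _).trans ?_
    rw [hn', one_mul]
  have h7 : e' * c * e' - z • (e' * e') =
      (e' * c * e' - e' * (e * c * e) * e') + -(z • (e' * e' - e' * (e * e) * e')) +
        e' * (e * c * e - z • (e * e)) * e' := by
    simp only [mul_sub, sub_mul, smul_sub, mul_smul_comm, smul_mul_assoc]
    abel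
  rw [h7]
  refine (norm_add₃_le).trans ?_
  rw [norm_neg, norm_smul]
  have h8 : ‖z‖ * ‖e' * e' - e' * (e * e) * e'‖ ≤ ‖z‖ * (2 * d) :=
    mul_le_mul_of_nonneg_left h2 (norm_nonneg _)
  nlinarith [h1, h6, h8]

/-- the coefficient of an excision is bounded -/
theorem exc_norm_le {e : A} (he : 0 ≤ e) (hn : ‖e‖ = 1) (c : A) (z : ℂ) :
    ‖z‖ ≤ ‖c‖ + ‖e * c * e - z • (e * e)‖ := by
  have h1 : ‖z • (e * e)‖ = ‖z‖ := by rw [norm_smul, norm_mul_self_one he hn, mul_one]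
  have h2 : z • (e * e) = e * c * e - (e * c * e - z • (e * e)) := by abel
  rw [← h1]
  calc ‖z • (e * e)‖ = ‖e * c * e - (e * c * e - z • (e * e))‖ := by rw [← h2]
    _ ≤ ‖e * c * e‖ + ‖e * c * e - z • (e * e)‖ := norm_sub_le _ _
    _ ≤ ‖c‖ + ‖e * c * e - z • (e * e)‖ := by
        gcongr
        refine (norm_mul_le _ _).trans ?_
        rw [hn, mul_one]
        refine (norm_mul_le _ _).trans ?_
        rw [hn, one_mul]

omit [StarOrderedRing A] in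
/-- The abstract construction, for a nonempty countable set of requirements. -/
theorem exists_seq_core {κ : Type w} [Countable κ] [Nonempty κ] (R : κ → A → ℝ → Prop)
    (C : κ → ℝ)
    (hmono : ∀ i x r s, r ≤ s → R i x r → R i x s)
    (hstab : ∀ i, ∀ e e' : A, ∀ r, 0 ≤ e → ‖e‖ = 1 → 0 ≤ e' → ‖e'‖ = 1 → R i e r →
      R i e' (r + C i * ‖e * e' - e'‖))
    (hstep : ∀ i, ∀ e : A, 0 ≤ e → ‖e‖ = 1 → ∀ δ : ℝ, 0 < δ →
      ∃ e', 0 ≤ e' ∧ ‖e'‖ = 1 ∧ ‖e * e' - e'‖ < δ ∧ R i e' δ)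
    (e : A) (he : 0 ≤ e) (hn : ‖e‖ = 1) (δ : ℝ) (hδ : 0 < δ) :
    ∃ f : ℕ → A, (∀ n, 0 ≤ f n) ∧ (∀ n, ‖f n‖ = 1) ∧
      (∀ n m, n < m → ‖f n * f m - f m‖ ≤ (1 / 2 : ℝ) ^ n) ∧ (∀ n, ‖e * f n - f n‖ < δ) ∧
      ∀ i, ∀ r : ℝ, 0 < r → ∀ᶠ n in atTop, R i (f n) r := by
  classical
  obtain ⟨enum, henum⟩ := exists_surjective_nat κ
  -- the step as a function
  have hstep' : ∀ (i : κ) (x : {x : A // 0 ≤ x ∧ ‖x‖ = 1}) (t : {t : ℝ // 0 < t}),
      ∃ y : {x : A // 0 ≤ x ∧ ‖x‖ = 1}, ‖x.1 * y.1 - y.1‖ < t.1 ∧ R i y.1 t.1 := by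
    rintro i ⟨x, hx0, hx1⟩ ⟨t, ht⟩
    obtain ⟨y, hy0, hy1, hy2, hy3⟩ := hstep i x hx0 hx1 t ht
    exact ⟨⟨y, hy0, hy1⟩, hy2, hy3⟩
  choose st hst1 hst2 using hstep'
  set δ' : ℝ := min δ 1 / 8 with hδ'
  have hδ'0 : 0 < δ' := by positivity
  have hδ'1 : δ' ≤ 1 / 8 := by
    rw [hδ']; linarith [min_le_right δ 1]
  have hδ'2 : 8 * δ' ≤ δ := by
    rw [hδ']; linarith [min_le_left δ 1]
  let tol : ℕ → {t : ℝ // 0 < t} := fun n => ⟨δ' * (1 / 2 : ℝ) ^ (n + 2), by positivity⟩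
  let g : ℕ → κ := fun n => enum (Nat.unpair n).1
  let F : ℕ → {x : A // 0 ≤ x ∧ ‖x‖ = 1} := fun n =>
    Nat.rec (st (g 0) ⟨e, he, hn⟩ (tol 0)) (fun n x => st (g n) x (tol n)) n
  have hF0 : F 0 = st (g 0) ⟨e, he, hn⟩ (tol 0) := rfl
  have hFs : ∀ n, F (n + 1) = st (g n) (F n) (tol n) := fun n => rfl
  let f : ℕ → A := fun n => (F n).1
  have hf0 : ∀ n, 0 ≤ f n := fun n => (F n).2.1
  have hf1 : ∀ n, ‖f n‖ = 1 := fun n => (F n).2.2
  have hfs : ∀ n, ‖f n * f (n + 1) - f (n + 1)‖ < δ' * (1 / 2 : ℝ) ^ (n + 2) := by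
    intro n
    have := hst1 (g n) (F n) (tol n)
    rw [← hFs] at this
    exact this
  have hfR : ∀ n, R (g n) (f (n + 1)) (δ' * (1 / 2 : ℝ) ^ (n + 2)) := by
    intro n
    have := hst2 (g n) (F n) (tol n)
    rw [← hFs] at this
    exact this
  have hfe : ‖e * f 0 - f 0‖ < δ' := by
    have := hst1 (g 0) ⟨e, he, hn⟩ (tol 0)
    rw [← hF0] at this
    refine lt_of_lt_of_le this ?_
    show δ' * (1 / 2 : ℝ) ^ (0 + 2) ≤ δ'
    norm_num
    linarith
  clear_value f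
  -- the key estimate
  have hkey : ∀ n k, ‖f n * f (n + 1 + k) - f (n + 1 + k)‖ ≤
      δ' * (1 / 2 : ℝ) ^ n - δ' * (1 / 2 : ℝ) ^ (n + 1 + k) := by
    intro n k
    induction k with
    | zero =>
      refine (hfs n).le.trans ?_
      rw [Nat.add_zero, pow_succ, pow_succ]
      have : 0 < δ' * (1 / 2 : ℝ) ^ n := by positivity
      nlinarith
    | succ k ih =>
      have h1 := norm_dom_trans (x := f n) (y := f (n + 1 + k)) (z := f (n + 1 + (k + 1)))
        (hf1 _).le (hf1 _).le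
      have h2 := hfs (n + 1 + k)
      rw [show n + 1 + (k + 1) = n + 1 + k + 1 from by ring] at h1 ⊢
      have h3 : (1 / 2 : ℝ) ^ (n + 1 + k + 1) = (1 / 2 : ℝ) ^ (n + 1 + k) / 2 := by
        rw [pow_succ]; ring
      have h4 : (1 / 2 : ℝ) ^ (n + 1 + k + 2) = (1 / 2 : ℝ) ^ (n + 1 + k) / 4 := by
        rw [pow_succ, pow_succ]; ring
      rw [h4] at h2
      rw [h3]
      nlinarith
  have hdesc' : ∀ n m, n < m → ‖f n * f m - f m‖ ≤ δ' * (1 / 2 : ℝ) ^ n := by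
    intro n m hnm
    obtain ⟨k, rfl⟩ := Nat.exists_eq_add_of_lt hnm
    have h1 := hkey n k
    rw [show n + k + 1 = n + 1 + k from by ring]
    refine h1.trans ?_
    have : 0 < δ' * (1 / 2 : ℝ) ^ (n + 1 + k) := by positivity
    linarith
  have hdesc : ∀ n m, n < m → ‖f n * f m - f m‖ ≤ (1 / 2 : ℝ) ^ n := by
    intro n m hnm
    refine (hdesc' n m hnm).trans ?_
    have : 0 < (1 / 2 : ℝ) ^ n := by positivity
    nlinarith
  refine ⟨f, hf0, hf1, hdesc, ?_, ?_⟩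
  · intro n
    rcases Nat.eq_zero_or_pos n with rfl | hpos
    · linarith
    · have h1 := norm_dom_trans (x := e) (y := f 0) (z := f n) hn.le (hf1 n).le
      have h2 := hdesc' 0 n hpos
      rw [pow_zero, mul_one] at h2
      linarith
  · intro i r hr
    obtain ⟨k, hk⟩ := henum i
    have ht : Tendsto (fun n : ℕ => δ' * (1 / 2 : ℝ) ^ (n + 2) + |C i| * (1 / 2 : ℝ) ^ (n + 1))
        atTop (𝓝 0) := by
      have h1 : Tendsto (fun n : ℕ => (1 / 2 : ℝ) ^ n) atTop (𝓝 0) :=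
        tendsto_pow_atTop_nhds_zero_of_lt_one (by norm_num) (by norm_num)
      have h2 := ((tendsto_add_atTop_iff_nat 2).mpr h1).const_mul δ'
      have h3 := ((tendsto_add_atTop_iff_nat 1).mpr h1).const_mul |C i|
      have h4 := h2.add h3
      simpa using h4
    obtain ⟨N, hN⟩ := eventually_atTop.mp (ht.eventually (gt_mem_nhds hr))
    let n := Nat.pair k N
    have hnN : N ≤ n := Nat.right_le_pair k N
    have hgn : g n = i := by
      show enum (Nat.unpair (Nat.pair k N)).1 = i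
      rw [Nat.unpair_pair]
      exact hk
    have hRn := hfR n
    rw [hgn] at hRn
    refine eventually_atTop.mpr ⟨n + 2, fun m hm => ?_⟩
    have h5 := hstab i (f (n + 1)) (f m) _ (hf0 _) (hf1 _) (hf0 _) (hf1 _) hRn
    refine hmono i _ _ _ ?_ h5
    have h6 := hdesc (n + 1) m (by omega)
    have h7 := hN n hnN
    have h8 : C i * ‖f (n + 1) * f m - f m‖ ≤ |C i| * (1 / 2 : ℝ) ^ (n + 1) :=
      mul_le_mul (le_abs_self _) h6 (norm_nonneg _) (abs_nonneg _)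
    linarith

/-- From approximate excision of a dense sequence to an excised functional. -/
theorem exists_excSeq_of_dense (c : ℕ → A) (hc : DenseRange c) (f : ℕ → A)
    (hf0 : ∀ n, 0 ≤ f n) (hf1 : ∀ n, ‖f n‖ = 1)
    (hdesc : ∀ n m, n < m → ‖f n * f m - f m‖ ≤ (1 / 2 : ℝ) ^ n)
    (hR : ∀ k, ∀ r : ℝ, 0 < r → ∀ᶠ n in atTop,
      ∃ z : ℂ, ‖f n * c k * f n - z • (f n * f n)‖ ≤ r) :
    ∃ φ : A → ℂ, ExcSeq f φ := by
  -- approximate excision of every element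
  have h1 : ∀ a : A, ∀ r : ℝ, 0 < r → ∀ᶠ n in atTop,
      ∃ z : ℂ, ‖f n * a * f n - z • (f n * f n)‖ ≤ r := by
    intro a r hr
    obtain ⟨k, hk⟩ := hc.exists_dist_lt a (half_pos hr)
    rw [dist_eq_norm] at hk
    filter_upwards [hR k (r / 2) (half_pos hr)] with n hn
    obtain ⟨z, hz⟩ := hn
    refine ⟨z, ?_⟩
    have h2 : f n * a * f n - z • (f n * f n) =
        f n * (a - c k) * f n + (f n * c k * f n - z • (f n * f n)) := by
      simp only [mul_sub, sub_mul]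
      abel
    rw [h2]
    refine (norm_add_le _ _).trans ?_
    have h3 : ‖f n * (a - c k) * f n‖ ≤ ‖a - c k‖ := by
      refine (norm_mul_le _ _).trans ?_
      rw [hf1, mul_one]
      refine (norm_mul_le _ _).trans ?_
      rw [hf1, one_mul]
    linarith
  -- one number works for all large n
  have h2 : ∀ a : A, ∀ r : ℝ, 0 < r → ∃ z : ℂ, ∀ᶠ n in atTop,
      ‖f n * a * f n - z • (f n * f n)‖ ≤ r := by
    intro a r hr
    have ht : Tendsto (fun n : ℕ => (2 * ‖a‖ + 2 * (‖a‖ + r / 2)) * (1 / 2 : ℝ) ^ n)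
        atTop (𝓝 0) := by
      have h1 : Tendsto (fun n : ℕ => (1 / 2 : ℝ) ^ n) atTop (𝓝 0) :=
        tendsto_pow_atTop_nhds_zero_of_lt_one (by norm_num) (by norm_num)
      simpa using h1.const_mul (2 * ‖a‖ + 2 * (‖a‖ + r / 2))
    obtain ⟨n, ⟨z, hz⟩, hn2⟩ := ((h1 a (r / 2) (half_pos hr)).and
      (ht.eventually (gt_mem_nhds (half_pos hr)))).exists
    refine ⟨z, eventually_atTop.mpr ⟨n + 1, fun m hm => ?_⟩⟩
    refine (exc_stab (hf0 n) (hf1 n) (hf0 m) (hf1 m) a z).trans ?_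
    have h3 := hdesc n m (by omega)
    have h4 := exc_norm_le (hf0 n) (hf1 n) a z
    have h5 : (2 * ‖a‖ + 2 * ‖z‖) * ‖f n * f m - f m‖ ≤
        (2 * ‖a‖ + 2 * (‖a‖ + r / 2)) * (1 / 2 : ℝ) ^ n := by
      refine mul_le_mul (by linarith) h3 (norm_nonneg _) (by positivity)
    linarith
  -- the functional
  have h3 : ∀ a : A, ∃ z : ℂ,
      Tendsto (fun n => ‖f n * a * f n - z • (f n * f n)‖) atTop (𝓝 0) := by
    intro a
    choose z hz using fun j : ℕ => h2 a ((1 / 2 : ℝ) ^ j) (by positivity)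
    have hsub : ∀ (x y : ℂ) (n : ℕ), ‖x - y‖ ≤ ‖f n * a * f n - x • (f n * f n)‖ +
        ‖f n * a * f n - y • (f n * f n)‖ := by
      intro x y n
      have h4 : ‖(x - y) • (f n * f n)‖ = ‖x - y‖ := by
        rw [norm_smul, norm_mul_self_one (hf0 n) (hf1 n), mul_one]
      rw [← h4]
      have h5 : (x - y) • (f n * f n) = (f n * a * f n - y • (f n * f n)) -
          (f n * a * f n - x • (f n * f n)) := by
        rw [sub_smul]; abel
      rw [h5, add_comm]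
      exact norm_sub_le _ _
    have hcau : ∀ j k : ℕ, dist (z j) (z k) ≤ (1 / 2 : ℝ) ^ j + (1 / 2 : ℝ) ^ k := by
      intro j k
      obtain ⟨n, hn1, hn2⟩ := ((hz j).and (hz k)).exists
      rw [dist_eq_norm]
      exact (hsub (z j) (z k) n).trans (add_le_add hn1 hn2)
    have hlim0 : Tendsto (fun n : ℕ => (1 / 2 : ℝ) ^ n) atTop (𝓝 0) :=
      tendsto_pow_atTop_nhds_zero_of_lt_one (by norm_num) (by norm_num)
    have hcs : CauchySeq z := by
      refine cauchySeq_of_le_tendsto_0 (fun N => 2 * (1 / 2 : ℝ) ^ N) ?_ ?_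
      · intro n m N hn hm
        refine (hcau n m).trans ?_
        have h6 : (1 / 2 : ℝ) ^ n ≤ (1 / 2 : ℝ) ^ N :=
          pow_le_pow_of_le_one (by norm_num) (by norm_num) hn
        have h7 : (1 / 2 : ℝ) ^ m ≤ (1 / 2 : ℝ) ^ N :=
          pow_le_pow_of_le_one (by norm_num) (by norm_num) hm
        linarith
      · simpa using hlim0.const_mul (2 : ℝ)
    obtain ⟨y, hy⟩ := cauchySeq_tendsto_of_complete hcs
    have hyz : ∀ j, ‖y - z j‖ ≤ (1 / 2 : ℝ) ^ j := by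
      intro j
      have h6 : Tendsto (fun k => ‖z k - z j‖) atTop (𝓝 ‖y - z j‖) :=
        (hy.sub_const (z j)).norm
      have h7 : Tendsto (fun k : ℕ => (1 / 2 : ℝ) ^ k + (1 / 2 : ℝ) ^ j) atTop
          (𝓝 (0 + (1 / 2 : ℝ) ^ j)) := hlim0.add_const _
      rw [zero_add] at h7
      refine le_of_tendsto_of_tendsto' h6 h7 (fun k => ?_)
      have := hcau k j
      rwa [dist_eq_norm] at this
    refine ⟨y, ?_⟩
    rw [Metric.tendsto_atTop]
    intro ε hε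
    obtain ⟨j, hj⟩ := (hlim0.eventually (gt_mem_nhds (half_pos hε))).exists
    obtain ⟨N, hN⟩ := eventually_atTop.mp (hz j)
    refine ⟨N, fun n hn => ?_⟩
    rw [Real.dist_eq, sub_zero, abs_of_nonneg (norm_nonneg _)]
    have h8 : f n * a * f n - y • (f n * f n) =
        (f n * a * f n - z j • (f n * f n)) - (y - z j) • (f n * f n) := by
      rw [sub_smul]; abel
    rw [h8]
    refine lt_of_le_of_lt (norm_sub_le _ _) ?_
    rw [norm_smul, norm_mul_self_one (hf0 n) (hf1 n), mul_one]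
    have h9 := hN n hn
    have h10 := hyz j
    have h11 : (1 / 2 : ℝ) ^ j < ε / 2 := hj
    linarith
  choose φ hφ using h3
  exact ⟨φ, ⟨hf0, hf1, hdesc, hφ⟩⟩

/-- One step of excision of an arbitrary element, from the selfadjoint case. -/
theorem exc_step_complex
    (hexc : ∀ e : A, 0 ≤ e → ‖e‖ = 1 → ∀ c : A, IsSelfAdjoint c → ∀ δ : ℝ, 0 < δ →
      ∃ e' : A, 0 ≤ e' ∧ ‖e'‖ = 1 ∧ ‖e * e' - e'‖ < δ ∧
        ∃ r : ℝ, |r| ≤ ‖c‖ ∧ ‖e' * c * e' - (r : ℂ) • (e' * e')‖ < δ)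
    (c : A) (e : A) (he : 0 ≤ e) (hn : ‖e‖ = 1) (δ : ℝ) (hδ : 0 < δ) :
    ∃ e' : A, 0 ≤ e' ∧ ‖e'‖ = 1 ∧ ‖e * e' - e'‖ < δ ∧
      ∃ z : ℂ, ‖z‖ ≤ 2 * ‖c‖ ∧ ‖e' * c * e' - z • (e' * e')‖ ≤ δ := by
  obtain ⟨a, b, ha, hb, hna, hnb, hab⟩ : ∃ a b : A, IsSelfAdjoint a ∧ IsSelfAdjoint b ∧
      ‖a‖ ≤ ‖c‖ ∧ ‖b‖ ≤ ‖c‖ ∧ c = a + Complex.I • b := by
    refine ⟨(realPart c : A), (imaginaryPart c : A), (realPart c).2, (imaginaryPart c).2,
      realPart.norm_le c, imaginaryPart.norm_le c, ?_⟩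
    exact (realPart_add_I_smul_imaginaryPart c).symm
  set δ' : ℝ := δ / (4 + 4 * ‖c‖) with hδ'
  have hden : 0 < 4 + 4 * ‖c‖ := by positivity
  have hδ'0 : 0 < δ' := by positivity
  have hδ'1 : (4 + 4 * ‖c‖) * δ' = δ := by
    rw [hδ']; field_simp
  obtain ⟨e₁, h10, h11, h12, r₁, h13, h14⟩ := hexc e he hn a ha δ' hδ'0
  obtain ⟨e₂, h20, h21, h22, r₂, h23, h24⟩ := hexc e₁ h10 h11 b hb δ' hδ'0
  refine ⟨e₂, h20, h21, ?_, (r₁ : ℂ) + Complex.I * (r₂ : ℂ), ?_, ?_⟩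
  · have h3 := norm_dom_trans (x := e) (y := e₁) (z := e₂) hn.le h21.le
    have h4 : 0 ≤ ‖c‖ * δ' := by positivity
    nlinarith
  · refine (norm_add_le _ _).trans ?_
    rw [norm_mul, Complex.norm_I, one_mul, Complex.norm_real, Complex.norm_real,
      Real.norm_eq_abs, Real.norm_eq_abs]
    linarith
  · have h3 := exc_stab h10 h11 h20 h21 a (r₁ : ℂ)
    rw [Complex.norm_real, Real.norm_eq_abs] at h3
    have h4 : (2 * ‖a‖ + 2 * |r₁|) * ‖e₁ * e₂ - e₂‖ ≤ (4 * ‖c‖) * δ' := by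
      refine mul_le_mul (by linarith) h22.le (norm_nonneg _) (by positivity)
    have h5 : e₂ * c * e₂ - ((r₁ : ℂ) + Complex.I * (r₂ : ℂ)) • (e₂ * e₂) =
        (e₂ * a * e₂ - (r₁ : ℂ) • (e₂ * e₂)) +
          Complex.I • (e₂ * b * e₂ - (r₂ : ℂ) • (e₂ * e₂)) := by
      rw [hab]
      simp only [mul_add, add_mul, mul_smul_comm, smul_mul_assoc, add_smul, smul_sub, mul_smul]
      abel
    rw [h5]
    refine (norm_add_le _ _).trans ?_
    rw [norm_smul, Complex.norm_I, one_mul]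
    linarith

/-- `exists_excSeq` from the selfadjoint excision step. -/
theorem exists_excSeq_core
    (hexc : ∀ e : A, 0 ≤ e → ‖e‖ = 1 → ∀ c : A, IsSelfAdjoint c → ∀ δ : ℝ, 0 < δ →
      ∃ e' : A, 0 ≤ e' ∧ ‖e'‖ = 1 ∧ ‖e * e' - e'‖ < δ ∧
        ∃ r : ℝ, |r| ≤ ‖c‖ ∧ ‖e' * c * e' - (r : ℂ) • (e' * e')‖ < δ)
    [TopologicalSpace.SeparableSpace A] {ι : Type w} [Countable ι]
    (β : ι → (A ≃⋆ₐ[ℂ] A)) (hβ : ∀ i, KStep (β i)) (e : A) (he : 0 ≤ e) (hn : ‖e‖ = 1)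
    (δ : ℝ) (hδ : 0 < δ) :
    ∃ (f : ℕ → A) (φ : A → ℂ), ExcSeq f φ ∧ (∀ n, ‖e * f n - f n‖ < δ) ∧
      ∀ i b, Tendsto (fun n => ‖f n * b * β i (f n)‖) atTop (𝓝 0) := by
  classical
  have : Nonempty A := ⟨0⟩
  set c : ℕ → A := TopologicalSpace.denseSeq A with hc
  have hcd : DenseRange c := TopologicalSpace.denseRange_denseSeq A
  let R : ℕ ⊕ (ι × ℕ) → A → ℝ → Prop := fun k x r =>
    match k with
    | Sum.inl k => ∃ z : ℂ, ‖z‖ ≤ 2 * ‖c k‖ ∧ ‖x * c k * x - z • (x * x)‖ ≤ r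
    | Sum.inr (i, k) => ‖x * c k * β i x‖ ≤ r
  let C : ℕ ⊕ (ι × ℕ) → ℝ := fun k =>
    match k with
    | Sum.inl k => 6 * ‖c k‖
    | Sum.inr (_, k) => 2 * ‖c k‖
  obtain ⟨f, hf0, hf1, hdesc, hfe, hfR⟩ := exists_seq_core R C (by
    rintro (k | ⟨i, k⟩) x r s hrs h
    · obtain ⟨z, hz1, hz2⟩ := h
      exact ⟨z, hz1, hz2.trans hrs⟩
    · exact le_trans h hrs) (by
    rintro (k | ⟨i, k⟩) e e' r he hn he' hn' h
    · obtain ⟨z, hz1, hz2⟩ := h
      refine ⟨z, hz1, ?_⟩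
      refine (exc_stab he hn he' hn' (c k) z).trans ?_
      have h3 : (2 * ‖c k‖ + 2 * ‖z‖) * ‖e * e' - e'‖ ≤ (6 * ‖c k‖) * ‖e * e' - e'‖ := by
        refine mul_le_mul_of_nonneg_right (by linarith) (norm_nonneg _)
      show _ ≤ r + (6 * ‖c k‖) * ‖e * e' - e'‖
      linarith
    · show ‖e' * c k * β i e'‖ ≤ r + (2 * ‖c k‖) * ‖e * e' - e'‖
      have h0 : ‖e * c k * β i e‖ ≤ r := h
      have h1 : ‖β i e * β i e' - β i e'‖ = ‖e * e' - e'‖ := by
        rw [← map_mul, ← map_sub, StarAlgEquiv.norm_map]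
      have h2 := norm_stab_aux (e := e) (e' := e') (c := c k) (g := β i e) (g' := β i e')
        (d := ‖e * e' - e'‖) hn'.le hn.le (by rw [StarAlgEquiv.norm_map]; exact hn'.le)
        (norm_sub_comm_star he he').le h1.le
      have h3 : ‖e' * (e * c k * β i e) * β i e'‖ ≤ ‖e * c k * β i e‖ := by
        refine (norm_mul_le _ _).trans ?_
        rw [StarAlgEquiv.norm_map, hn', mul_one]
        refine (norm_mul_le _ _).trans ?_
        rw [hn', one_mul]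
      have h4 : e' * c k * β i e' = (e' * c k * β i e' - e' * (e * c k * β i e) * β i e') +
          e' * (e * c k * β i e) * β i e' := by abel
      rw [h4]
      refine (norm_add_le _ _).trans ?_
      linarith) (by
    rintro (k | ⟨i, k⟩) e he hn δ hδ
    · exact exc_step_complex hexc (c k) e he hn δ hδ
    · obtain ⟨e', h1, h2, h3, h4⟩ := hβ i e he hn (c k) δ hδ
      exact ⟨e', h1, h2, h3, h4.le⟩) e he hn δ hδ
  have hexcR : ∀ k, ∀ r : ℝ, 0 < r → ∀ᶠ n in atTop,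
      ∃ z : ℂ, ‖f n * c k * f n - z • (f n * f n)‖ ≤ r := by
    intro k r hr
    filter_upwards [hfR (Sum.inl k) r hr] with n hn
    obtain ⟨z, hz1, hz2⟩ := hn
    exact ⟨z, hz2⟩
  obtain ⟨φ, hφ⟩ := exists_excSeq_of_dense c hcd f hf0 hf1 hdesc hexcR
  refine ⟨f, φ, hφ, hfe, ?_⟩
  intro i b
  rw [Metric.tendsto_atTop]
  intro ε hε
  obtain ⟨k, hk⟩ := hcd.exists_dist_lt b (half_pos hε)
  rw [dist_eq_norm] at hk
  obtain ⟨N, hN⟩ := eventually_atTop.mp (hfR (Sum.inr (i, k)) (ε / 2) (half_pos hε))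
  refine ⟨N, fun n hn' => ?_⟩
  rw [Real.dist_eq, sub_zero, abs_of_nonneg (norm_nonneg _)]
  have h1 : ‖f n * c k * β i (f n)‖ ≤ ε / 2 := hN n hn'
  have h2 : f n * b * β i (f n) = f n * (b - c k) * β i (f n) + f n * c k * β i (f n) := by
    simp only [mul_sub, sub_mul]
    abel
  rw [h2]
  refine lt_of_le_of_lt (norm_add_le _ _) ?_
  have h3 : ‖f n * (b - c k) * β i (f n)‖ ≤ ‖b - c k‖ := by
    refine (norm_mul_le _ _).trans ?_
    rw [StarAlgEquiv.norm_map, hf1, mul_one]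
    refine (norm_mul_le _ _).trans ?_
    rw [hf1, one_mul]
  linarith

end Pool.Agent.helper23.RK
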