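import Pool.Agent.helper23.RK.BumpX
import Pool.Agent.helper23.RK.SeqCore

/-!
# Module B: sequences with countably many asymptotic requirements
-/

open Filter Topology
open scoped CStarAlgebra ComplexOrder MultiplierAlgebra

namespace Pool.Agent.helper23.RK

universe u v w

variable {A : Type u} [NonUnitalCStarAlgebra A] [PartialOrder A] [StarOrderedRing A]

theorem exists_seq_of_steps {ι : Type w} [Countable ι] (R : ι → A → ℝ → Prop)
    (C : ι → ℝ)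
    (hmono : ∀ i x r s, r ≤ s → R i x r → R i x s)
    (hstab : ∀ i, ∀ e e' : A, ∀ r, 0 ≤ e → ‖e‖ = 1 → 0 ≤ e' → ‖e'‖ = 1 → R i e r →
      R i e' (r + C i * ‖e * e' - e'‖))
    (hstep : ∀ i, ∀ e : A, 0 ≤ e → ‖e‖ = 1 → ∀ δ : ℝ, 0 < δ →
      ∃ e', 0 ≤ e' ∧ ‖e'‖ = 1 ∧ ‖e * e' - e'‖ < δ ∧ R i e' δ)
    (e : A) (he : 0 ≤ e) (hn : ‖e‖ = 1) (δ : ℝ) (hδ : 0 < δ) :
    ∃ f : ℕ → A, (∀ n, 0 ≤ f n) ∧ (∀ n, ‖f n‖ = 1) ∧
      (∀ n m, n < m → ‖f n * f m - f m‖ ≤ (1 / 2 : ℝ) ^ n) ∧ (∀ n, ‖e * f n - f n‖ < δ) ∧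
      ∀ i, ∀ r : ℝ, 0 < r → ∀ᶠ n in atTop, R i (f n) r := by
  obtain ⟨f, h1, h2, h3, h4, h5⟩ := exists_seq_core (κ := Option ι)
    (fun i x r => match i with
      | none => True
      | some i => R i x r)
    (fun i => match i with
      | none => 0
      | some i => C i) (by
    rintro (_ | i) x r s hrs h
    · trivial
    · exact hmono i x r s hrs h) (by
    rintro (_ | i) e e' r he hn he' hn' h
    · trivial
    · exact hstab i e e' r he hn he' hn' h) (by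
    rintro (_ | i) e he hn δ hδ
    · obtain ⟨e₁, e₂, h1, h2, -, -, h3, -, h4, -⟩ := exists_bump e he hn (δ / 2) (half_pos hδ)
      refine ⟨e₁, h1, h2, ?_, trivial⟩
      have h5 := h4 e₁ h3
      rw [h2, mul_one] at h5
      linarith
    · exact hstep i e he hn δ hδ) e he hn δ hδ
  exact ⟨f, h1, h2, h3, h4, fun i => h5 (some i)⟩

theorem exists_excSeq [TopologicalSpace.SeparableSpace A] (e : A) (he : 0 ≤ e) (hn : ‖e‖ = 1)
    (δ : ℝ) (hδ : 0 < δ) :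
    ∃ (f : ℕ → A) (φ : A → ℂ), ExcSeq f φ ∧ ∀ n, ‖e * f n - f n‖ < δ := by
  obtain ⟨f, φ, h1, h2, -⟩ := exists_excSeq_core (ι := PEmpty.{1})
    (fun e he hn c hc δ hδ => excise_step e he hn c hc δ hδ) (fun i => i.elim)
    (fun i => i.elim) e he hn δ hδ
  exact ⟨f, φ, h1, h2⟩

theorem exists_excSeq_outer [TopologicalSpace.SeparableSpace A] {ι : Type w} [Countable ι]
    (β : ι → (A ≃⋆ₐ[ℂ] A)) (hβ : ∀ i, KStep (β i)) (e : A) (he : 0 ≤ e) (hn : ‖e‖ = 1) :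
    ∃ (f : ℕ → A) (φ : A → ℂ), ExcSeq f φ ∧
      ∀ i b, Tendsto (fun n => ‖f n * b * β i (f n)‖) atTop (𝓝 0) := by
  obtain ⟨f, φ, h1, -, h2⟩ := exists_excSeq_core
    (fun e he hn c hc δ hδ => excise_step e he hn c hc δ hδ) β hβ e he hn 1 one_pos
  exact ⟨f, φ, h1, h2⟩

end Pool.Agent.helper23.RK
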